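import Pool.Agent.H46.EF.Defs

/-!
# EF.Avg : the average over all samples (about 100 lines)

Interchange the sums: for an injective `J` the number of `y : Fin N → P` (`P = {v // c v ≠ 0}`, `p = #P`) with `c (y (J i)) = φ i` for all `i` is `p ^ (N - d) * ∏ i, sz c (φ i)` (the coordinates in the range of `J` are restricted to sets of sizes `sz c (φ i)`, the others are free: `Fintype.card_pi` / `Fintype.piFinset`,
`∏ j, #(allowed j) = (∏ i, sz c (φ i)) * p ^ (N - d)` by splitting the product at the range of `J`). There are `N.descFactorial d` injective `J` (`Fintype.card_embedding_eq`). Finally `sz * (F / sz) = F`.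
-/

set_option autoImplicit false

namespace H46.EF

open Pool.Agent.H3.LC H46.CY

open Classical in
private lemma avg_sz {V : Type} [Fintype V] (c : V → ℕ) {k : ℕ} (h0 : k ≠ 0)
    [Fintype {v : V // c v ≠ 0}] :
    (Finset.univ.filter fun v : {v : V // c v ≠ 0} => c v.1 = k).card = sz c k := by
  unfold sz
  rw [← Set.ncard_coe_finset]
  rw [← Set.ncard_image_of_injective _ (Subtype.val_injective (p := fun v : V => c v ≠ 0))]
  congr 1
  ext v
  constructor
  · rintro ⟨w, hw, rfl⟩
    simpa using hw
  · intro hv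
    have hv' : c v = k := hv
    exact ⟨⟨v, by rw [hv']; exact h0⟩, by simpa using hv', rfl⟩

open Classical in
private lemma avg_one {V : Type} [Fintype V] (c : V → ℕ) {d N : ℕ} (φ : Fin d → ℕ)
    (h0 : ∀ i, φ i ≠ 0) [Fintype {v : V // c v ≠ 0}] (J : Fin d ↪ Fin N) :
    (Finset.univ.filter fun y : Fin N → {v : V // c v ≠ 0} => ∀ i, c (y (J i)).1 = φ i).card =
      (∏ i, sz c (φ i)) * Fintype.card {v : V // c v ≠ 0} ^ (N - d) := by
  set S : Fin N → Finset {v : V // c v ≠ 0} := fun j =>
    if h : ∃ i, J i = j then Finset.univ.filter fun v => c v.1 = φ h.choose else Finset.univ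
    with hS
  have hSJ : ∀ i, S (J i) = Finset.univ.filter fun v => c v.1 = φ i := by
    intro i
    have h : ∃ i', J i' = J i := ⟨i, rfl⟩
    have hc : h.choose = i := J.injective h.choose_spec
    simp only [hS, dif_pos h, hc]
  have hSn : ∀ j, (¬ ∃ i, J i = j) → S j = Finset.univ := by
    intro j h
    simp only [hS, dif_neg h]
  have he : (Finset.univ.filter fun y : Fin N → {v : V // c v ≠ 0} =>
      ∀ i, c (y (J i)).1 = φ i) = Fintype.piFinset S := by
    ext y
    simp only [Finset.mem_filter, Finset.mem_univ, true_and, Fintype.mem_piFinset]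
    constructor
    · intro h j
      by_cases hj : ∃ i, J i = j
      · obtain ⟨i, rfl⟩ := hj
        rw [hSJ]
        simpa using h i
      · rw [hSn j hj]
        exact Finset.mem_univ _
    · intro h i
      have := h (J i)
      rw [hSJ] at this
      simpa using this
  rw [he, Fintype.card_piFinset, ← Finset.prod_mul_prod_compl (Finset.univ.map J)]
  congr 1
  · rw [Finset.prod_map]
    refine Finset.prod_congr rfl fun i _ => ?_
    rw [hSJ, avg_sz c (h0 i)]
  · rw [Finset.prod_congr rfl (g := fun _ => Fintype.card {v : V // c v ≠ 0})]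
    · rw [Finset.prod_const, Finset.card_compl, Finset.card_map, Finset.card_univ,
        Fintype.card_fin, Fintype.card_fin]
    · intro j hj
      rw [hSn j, Finset.card_univ]
      rintro ⟨i, rfl⟩
      exact (Finset.mem_compl.1 hj) (Finset.mem_map_of_mem _ (Finset.mem_univ i))

theorem average {V : Type} [Fintype V] (c : V → ℕ) {d N F : ℕ} (hdN : d ≤ N) (φ : Fin d → ℕ)
    (hφ : Function.Injective φ) (h0 : ∀ i, φ i ≠ 0) (hs : ∀ i, sz c (φ i) ∣ F)
    [Fintype {v : V // c v ≠ 0}] :
    N.descFactorial d * {v | c v ≠ 0}.ncard ^ (N - d) * F ^ d ≤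
      ∑ y : Fin N → {v : V // c v ≠ 0},
        {J : Fin d → Fin N | ∀ i, c (y (J i)).1 = φ i}.ncard * ∏ i, (F / sz c (φ i)) := by
  classical
  have hP : {v | c v ≠ 0}.ncard = Fintype.card {v : V // c v ≠ 0} := by
    rw [← Nat.card_eq_fintype_card]
    rfl
  have hJ : ∀ y : Fin N → {v : V // c v ≠ 0},
      {J : Fin d → Fin N | ∀ i, c (y (J i)).1 = φ i}.ncard =
        ∑ J : Fin d ↪ Fin N, if ∀ i, c (y (J i)).1 = φ i then 1 else 0 := by
    intro y
    rw [Finset.sum_boole, Nat.cast_id]
    rw [← Set.ncard_coe_finset, ← Set.ncard_image_of_injective _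
      (f := fun J : Fin d ↪ Fin N => (J : Fin d → Fin N)) DFunLike.coe_injective]
    congr 1
    ext J
    constructor
    · intro hJ
      have hJ' : ∀ i, c (y (J i)).1 = φ i := hJ
      refine ⟨⟨J, fun a b hab => hφ ?_⟩, ?_, rfl⟩
      · rw [← hJ' a, ← hJ' b, hab]
      · simpa using hJ'
    · rintro ⟨J', hJ', rfl⟩
      simpa using hJ'
  have hsum : ∑ y : Fin N → {v : V // c v ≠ 0},
      {J : Fin d → Fin N | ∀ i, c (y (J i)).1 = φ i}.ncard =
        N.descFactorial d * ((∏ i, sz c (φ i)) * Fintype.card {v : V // c v ≠ 0} ^ (N - d)) := by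
    rw [Finset.sum_congr rfl fun y _ => hJ y, Finset.sum_comm]
    rw [Finset.sum_congr rfl (g := fun _ => (∏ i, sz c (φ i)) *
      Fintype.card {v : V // c v ≠ 0} ^ (N - d))]
    · rw [Finset.sum_const, Finset.card_univ, Fintype.card_embedding_eq, Fintype.card_fin,
        Fintype.card_fin, smul_eq_mul]
    · intro J _
      rw [Finset.sum_boole, Nat.cast_id]
      exact avg_one c φ h0 J
  have hF : (∏ i, sz c (φ i)) * ∏ i, (F / sz c (φ i)) = F ^ d := by
    rw [← Finset.prod_mul_distrib]
    rw [Finset.prod_congr rfl fun i _ => Nat.mul_div_cancel' (hs i)]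
    simp
  rw [← Finset.sum_mul, hsum, hP]
  refine le_of_eq ?_
  rw [← hF]
  ring

end H46.EF
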