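import Pool.Agent.H46.EF.Elm
import Pool.Agent.H46.EF.Scx
import Pool.Agent.H46.EF.Ngd
import Pool.Agent.H46.CY.Fin

/-!
# EF.Cbx : explicit upper bound for c(L, n) and for the values of the templates (about 130 lines)

`cMax_exp`: as `cMax_bound` in `Pool/Agent/H46/CY/Fin.lean`: `exists_cMax`, `elim_exp` with `k = (d + 1) * l`, `q = 2`; for `G'` and the colouring `c = 0` (`w = n`, `M = 0`) no `f` is `Good` (`d ≥ 1`), so for every `m` there are at most `cC D m * (d + d * d) * (n * n ^ (d - 1))` cyclic sequences (`notgood`),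
and every member of `cycles G'` is `cedges f` for some `3 ≤ m < (d + 1) * l` (`mem_cycles_iff`; a union bound over `m` as `cnt2_union` in CY/Cnt2.lean). So `#cycles G ≤ 2 * #cycles G' ≤ cB l d * n ^ d`.
`val_le`: as `vals_bdd` in CY/Fin.lean: with `h` hubs, `p ≥ 1` other vertices, `blow_count` for `M + 1 = h + 1` copies: `#dcyc * (h + 1) ^ d ≤ cMax L (2 * (p * (h + 1)))`. `GamN_le`, `le_GamN'`: `csSup`.
-/

set_option autoImplicit false

namespace H46.EF

open Pool.Agent.H3.LC H46.CY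

variable {L : Finset ℕ} {l d : ℕ}

private theorem cbx_union {α : Type} [Finite α] (S : ℕ → Set α) (N : ℕ) :
    ({E | ∃ m, m < N ∧ E ∈ S m} : Set α).ncard ≤ ∑ m ∈ Finset.range N, (S m).ncard := by
  induction N with
  | zero =>
    have h : ({E | ∃ m, m < 0 ∧ E ∈ S m} : Set α) = ∅ := by
      ext E
      constructor
      · rintro ⟨m, hm, _⟩
        exact absurd hm (Nat.not_lt_zero m)
      · intro h
        exact h.elim
    rw [h, Set.ncard_empty]
    exact Nat.zero_le _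
  | succ N ih =>
    have h : ({E | ∃ m, m < N + 1 ∧ E ∈ S m} : Set α) ⊆ {E | ∃ m, m < N ∧ E ∈ S m} ∪ S N := by
      rintro E ⟨m, hm, hE⟩
      rcases Nat.lt_succ_iff_lt_or_eq.1 hm with h1 | h1
      · exact Or.inl ⟨m, h1, hE⟩
      · exact Or.inr (h1 ▸ hE)
    rw [Finset.sum_range_succ]
    exact (Set.ncard_le_ncard h (Set.toFinite _)).trans
      ((Set.ncard_union_le _ _).trans (Nat.add_le_add_right ih _))

private theorem cbx_isCyc {V : Type} {G G' : SimpleGraph V} (h : G' ≤ G) {m : ℕ} {f : ZMod m → V}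
    (hf : IsCyc G' f) : IsCyc G f :=
  ⟨hf.1, fun i => h (hf.2 i)⟩

private theorem cbx_mono {V : Type} {G G' : SimpleGraph V} (h : G' ≤ G) {L : Finset ℕ}
    (hG : IsLCycleGraph L G) : IsLCycleGraph L G' := by
  rw [isLCycle_iff] at hG ⊢
  intro m f hm hf
  exact hG m f hm (cbx_isCyc h hf)

private theorem cbx_fewer {V : Type} [Finite V] {G : SimpleGraph V} {D : ℕ}
    {le : V → V → Prop} (hl : 2 ≤ l) (hd : 1 ≤ d)
    (hev : ∀ x ∈ L, Even x → 2 * l ≤ x) (hmax : ∀ x ∈ L, x < (d + 1) * l)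
    (hE : IsElim G D le) (hL : IsLCycleGraph L G) :
    (cycles G).ncard ≤ fB D l d * (Nat.card V) ^ d := by
  classical
  have hN : NoEven G l := fun m f hm hf he => hev m (isLCycle_iff.1 hL m f hm hf) he
  have hsub : cycles G ⊆ {E | ∃ m, m < (d + 1) * l ∧
      E ∈ {E | 3 ≤ m ∧ ∃ f : ZMod m → V, IsCyc G f ∧ cedges f = E}} := by
    intro E hE
    obtain ⟨m, f, h3, hf, he⟩ := mem_cycles_iff.1 hE
    exact ⟨m, hmax m (isLCycle_iff.1 hL m f h3 hf), h3, f, hf, he⟩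
  refine (Set.ncard_le_ncard hsub (Set.toFinite _)).trans ((cbx_union _ _).trans ?_)
  rw [fB, Finset.sum_mul]
  refine Finset.sum_le_sum fun m hm => ?_
  have hlt := Finset.mem_range.1 hm
  by_cases h3 : 3 ≤ m
  · have hne0 : NeZero m := ⟨by omega⟩
    have hfn : Finite (ZMod m → V) := inferInstance
    obtain ⟨Φ, -, hΦ⟩ := src_cyc_exp D l d m hl h3 hd hlt V G le hE hN
    have h1 := notgood h3 hd (fun _ : V => 0) (w := Nat.card V) (M := 0) (by
      simpa using Set.ncard_le_card (Set.univ : Set V)) (by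
      intro i hi
      have : {v : V | (0 : ℕ) = i} = ∅ := by
        ext v
        simp only [Set.mem_ofPred_eq, Set.mem_empty_iff_false, iff_false]
        exact fun h => hi h.symm
      rw [this, Set.ncard_empty]) Φ hΦ
    have h2 : Nat.card V * Nat.card V ^ (d - 1) = Nat.card V ^ d := by
      rw [← pow_succ']
      congr 1
      omega
    rw [add_zero, h2] at h1
    refine le_trans ?_ h1
    have himg : {E : Set (Sym2 V) | 3 ≤ m ∧ ∃ f : ZMod m → V, IsCyc G f ∧ cedges f = E} ⊆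
        cedges '' {f : ZMod m → V | IsCyc G f ∧ ¬ Good (fun _ => 0) Φ f} := by
      rintro E ⟨_, f, hf, he⟩
      refine ⟨f, ⟨hf, ?_⟩, he⟩
      intro hg
      exact hg.1 ⟨0, by omega⟩ rfl
    exact (Set.ncard_le_ncard himg (Set.toFinite _)).trans (Set.ncard_image_le (Set.toFinite _))
  · have hemp : {E : Set (Sym2 V) | 3 ≤ m ∧ ∃ f : ZMod m → V, IsCyc G f ∧ cedges f = E} = ∅ := by
      ext E
      constructor
      · rintro ⟨h, _⟩
        exact absurd h h3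
      · intro h
        exact h.elim
    rw [hemp, Set.ncard_empty]
    exact Nat.zero_le _

theorem cMax_exp (hl : 2 ≤ l) (hd : 1 ≤ d) (hev : ∀ x ∈ L, Even x → 2 * l ≤ x)
    (hmax : ∀ x ∈ L, x < (d + 1) * l) (n : ℕ) : cMax L n ≤ cB l d * n ^ d := by
  obtain ⟨G, hG, hn⟩ := exists_cMax L n
  obtain ⟨G', le, hGG, hE, hcard⟩ := elim_exp ((d + 1) * l) 2 (by norm_num) (Fin n) G
    (fun m f hm hf => (hmax m (isLCycle_iff.1 hG m f hm hf)).le)
  have hG' := cbx_mono hGG hG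
  have h1 := cbx_fewer hl hd hev hmax hE hG'
  rw [Nat.card_eq_fintype_card, Fintype.card_fin] at h1
  rw [hn] at hcard
  rw [cB, Nat.mul_assoc]
  omega

private theorem cbx_empty {V : Type} {G : SimpleGraph V} {c : V → ℕ} {d : ℕ} (hd : 1 ≤ d)
    (hc : ∀ v, c v = 0) : dcyc d G c = ∅ := by
  ext E
  simp only [dcyc, Set.mem_ofPred_eq, Set.mem_empty_iff_false, iff_false, not_and, not_le]
  intro _
  have : {i | i ≠ 0 ∧ ∃ v, c v = i ∧ ∃ e ∈ E, v ∈ e} = (∅ : Set ℕ) := by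
    ext i
    simp only [Set.mem_ofPred_eq, Set.mem_empty_iff_false, iff_false, not_and]
    rintro hi ⟨v, hv, -⟩
    exact hi (by rw [← hv, hc v])
  rw [this, Set.ncard_empty]
  exact hd

/-- the value of a valid template is at most `cB l d * 2 ^ d` -/
theorem val_le (hl : 2 ≤ l) (hd : 1 ≤ d) (hev : ∀ x ∈ L, Even x → 2 * l ≤ x)
    (hmax : ∀ x ∈ L, x < (d + 1) * l) {m : ℕ} {G : SimpleGraph (Fin m)} {c : Fin m → ℕ}
    (hc : Compat G c) (hv : ∀ M, IsLCycleGraph L (blow G c M)) :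
    ((dcyc d G c).ncard : ℝ) / ({v | c v ≠ 0}.ncard : ℝ) ^ d ≤ cB l d * 2 ^ d := by
  classical
  rcases Nat.eq_zero_or_pos {v | c v ≠ 0}.ncard with hp | hp
  · rw [hp]
    have : ((0 : ℕ) : ℝ) ^ d = 0 := by
      rw [Nat.cast_zero, zero_pow (by omega)]
    rw [this, div_zero]
    positivity
  · set h := {v | c v = 0}.ncard with hh
    set p := {v | c v ≠ 0}.ncard with hpp
    have h0 := blow_count hc d h
    have : Fintype (BV c h) := Fintype.ofFinite _
    have hcd : Fintype.card (BV c h) ≤ 2 * (p * (h + 1)) := by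
      rw [← Nat.card_eq_fintype_card, card_BV, ← hh, ← hpp]
      have : h ≤ p * (h + 1) := by nlinarith
      omega
    have h1 : (dcyc d G c).ncard * (h + 1) ^ d ≤ cMax L (2 * (p * (h + 1))) :=
      h0.trans (ncard_le_cMax hcd (hv h))
    have h2 := cMax_exp hl hd hev hmax (2 * (p * (h + 1)))
    have h3 : ((dcyc d G c).ncard : ℝ) * ((h : ℝ) + 1) ^ d ≤
        (cB l d : ℝ) * 2 ^ d * (p : ℝ) ^ d * ((h : ℝ) + 1) ^ d := by
      calc ((dcyc d G c).ncard : ℝ) * ((h : ℝ) + 1) ^ d ≤ (cMax L (2 * (p * (h + 1))) : ℝ) := by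
            exact_mod_cast h1
        _ ≤ (cB l d : ℝ) * ((2 * (p * (h + 1)) : ℕ) : ℝ) ^ d := by exact_mod_cast h2
        _ = (cB l d : ℝ) * 2 ^ d * (p : ℝ) ^ d * ((h : ℝ) + 1) ^ d := by
            push_cast
            rw [mul_pow, mul_pow]
            ring
    have h4 : (0 : ℝ) < ((h : ℝ) + 1) ^ d := by positivity
    have h5 := le_of_mul_le_mul_right h3 h4
    have h6 : (0 : ℝ) < (p : ℝ) ^ d := by
      have : (0 : ℝ) < p := by exact_mod_cast hp
      positivity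
    rw [div_le_iff₀ h6]
    exact h5

private theorem cbx_mem (L : Finset ℕ) {d : ℕ} (hd : 1 ≤ d) (N : ℕ) :
    (0 : ℝ) ∈ {r | ∃ (m : ℕ) (_ : m ≤ N) (G : SimpleGraph (Fin m)) (c : Fin m → ℕ), Compat G c ∧
    (∀ M, IsLCycleGraph L (blow G c M)) ∧
    r = ((dcyc d G c).ncard : ℝ) / ({v | c v ≠ 0}.ncard : ℝ) ^ d} := by
  refine ⟨0, Nat.zero_le _, ⊥, fun _ => 0, ?_, ?_, ?_⟩
  · intro u
    exact u.elim0
  · intro M
    rw [isLCycle_iff]
    intro m f _ _
    exact (f 0).1.1.elim0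
  · rw [cbx_empty hd (fun _ => rfl)]
    simp

private theorem cbx_bdd (hl : 2 ≤ l) (hd : 1 ≤ d) (hev : ∀ x ∈ L, Even x → 2 * l ≤ x)
    (hmax : ∀ x ∈ L, x < (d + 1) * l) (N : ℕ) : BddAbove
    {r : ℝ | ∃ (m : ℕ) (_ : m ≤ N) (G : SimpleGraph (Fin m)) (c : Fin m → ℕ), Compat G c ∧
    (∀ M, IsLCycleGraph L (blow G c M)) ∧
    r = ((dcyc d G c).ncard : ℝ) / ({v | c v ≠ 0}.ncard : ℝ) ^ d} := by
  refine ⟨cB l d * 2 ^ d, ?_⟩
  rintro r ⟨m, _, G, c, hc, hv, rfl⟩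
  exact val_le hl hd hev hmax hc hv

theorem GamN_le (hl : 2 ≤ l) (hd : 1 ≤ d) (hev : ∀ x ∈ L, Even x → 2 * l ≤ x)
    (hmax : ∀ x ∈ L, x < (d + 1) * l) (N : ℕ) : GamN L d N ≤ cB l d * 2 ^ d := by
  rw [GamN]
  refine csSup_le ⟨0, cbx_mem L hd N⟩ ?_
  rintro r ⟨m, _, G, c, hc, hv, rfl⟩
  exact val_le hl hd hev hmax hc hv

theorem GamN_nonneg (hl : 2 ≤ l) (hd : 1 ≤ d) (hev : ∀ x ∈ L, Even x → 2 * l ≤ x)
    (hmax : ∀ x ∈ L, x < (d + 1) * l) (N : ℕ) : 0 ≤ GamN L d N :=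
  le_csSup (cbx_bdd hl hd hev hmax N) (cbx_mem L hd N)

theorem le_GamN' (hl : 2 ≤ l) (hd : 1 ≤ d) (hev : ∀ x ∈ L, Even x → 2 * l ≤ x)
    (hmax : ∀ x ∈ L, x < (d + 1) * l) {m N : ℕ} (hmN : m ≤ N) {G : SimpleGraph (Fin m)}
    {c : Fin m → ℕ} (hc : Compat G c) (hv : ∀ M, IsLCycleGraph L (blow G c M)) :
    ((dcyc d G c).ncard : ℝ) / ({v | c v ≠ 0}.ncard : ℝ) ^ d ≤ GamN L d N :=
  le_csSup (cbx_bdd hl hd hev hmax N) ⟨m, hmN, G, c, hc, hv, rfl⟩

end H46.EF
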