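import Pool.Agent.H46.EF.Lft

/-!
# EF.Cny : the number of the lifted cycles of a sample (about 110 lines)

The left side is the number of the triples `(E, J, ρ)`, `E ∈ 𝒢`, `J : Fin d → Fin N` with `c (y (J i)) = φ E i` for all `i`, `ρ i < F / sz c (φ E i)` (then `ρ i * sz < F`) (`Fintype.card_pi`, `Finset.card_pi`, `Finset.card_sigma`). `lift_cycle` maps them into the set on the right. Injective: `E` is the image of `E'`, and for every `i` there is a vertex `w` of `E'` with `c w.1.1 = φ E i`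
(`Lists`: a vertex `v` of `E` with `c v = φ E i`, and `E` is the image of `E'`), its second and third coordinates are `J i` and `ρ i`.
-/

set_option autoImplicit false

namespace H46.EF

open Pool.Agent.H3.LC H46.CY

private theorem mul_lt_of_lt_div {a s F : ℕ} (h : a < F / s) : a * s < F := by
  rcases Nat.eq_zero_or_pos s with hs | hs
  · rw [hs, Nat.div_zero] at h
    exact absurd h (Nat.not_lt_zero _)
  · have h1 : (a + 1) * s ≤ F := (Nat.mul_le_mul_right s h).trans (Nat.div_mul_le_self F s)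
    rw [Nat.add_mul, Nat.one_mul] at h1
    omega

theorem count_sample {V : Type} [Finite V] {G : SimpleGraph V} {c : V → ℕ} (hc : Compat G c)
    {d N F : ℕ} (y : Fin N → V) (H : Set V) (𝒢 : Finset (Set (Sym2 V)))
    (φ : Set (Sym2 V) → Fin d → ℕ) (hφ : ∀ E ∈ 𝒢, Lists G c E (φ E))
    (hH : ∀ E ∈ 𝒢, (∀ i, ∃ j, c (y j) = φ E i) → ∀ v, (∃ e ∈ E, v ∈ e) → c v = 0 → v ∈ H) :
    ∑ E ∈ 𝒢, {J : Fin d → Fin N | ∀ i, c (y (J i)) = φ E i}.ncard * ∏ i, (F / sz c (φ E i)) ≤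
      (dcyc d (sgr G c N F y H) (scol c N F y H)).ncard := by
  classical
  let A : Set (Sym2 V) → Finset (Fin d → Fin N) := fun E => Finset.univ.filter fun J => ∀ i, c (y (J i)) = φ E i
  let B : Set (Sym2 V) → Finset (Fin d → ℕ) := fun E => Fintype.piFinset fun i => Finset.range (F / sz c (φ E i))
  have hA : ∀ E, {J : Fin d → Fin N | ∀ i, c (y (J i)) = φ E i}.ncard = (A E).card := by
    intro E
    rw [← Set.ncard_coe_finset]
    congr 1
    ext J
    simp [A]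
  have hB : ∀ E, ∏ i, (F / sz c (φ E i)) = (B E).card := by
    intro E
    rw [Fintype.card_piFinset]
    exact Finset.prod_congr rfl fun i _ => (Finset.card_range _).symm
  have hsum : ∑ E ∈ 𝒢, {J : Fin d → Fin N | ∀ i, c (y (J i)) = φ E i}.ncard * ∏ i, (F / sz c (φ E i)) =
      (𝒢.sigma fun E => A E ×ˢ B E).card := by
    rw [Finset.card_sigma]
    refine Finset.sum_congr rfl fun E _ => ?_
    rw [hA, hB, Finset.card_product]
  have hex : ∀ x : (Σ _ : Set (Sym2 V), (Fin d → Fin N) × (Fin d → ℕ)), ∃ E' : Set (Sym2 (SV c N F y H)),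
      x ∈ 𝒢.sigma (fun E => A E ×ˢ B E) → E' ∈ dcyc d (sgr G c N F y H) (scol c N F y H) ∧
      Sym2.map (fun w : SV c N F y H => w.1.1) '' E' = x.1 ∧
      ∀ i, ∀ w : SV c N F y H, (∃ e ∈ E', w ∈ e) → c w.1.1 = φ x.1 i → w.1.2 = ((x.2.1 i : ℕ), x.2.2 i) := by
    rintro ⟨E, J, ρ⟩
    by_cases h : (⟨E, J, ρ⟩ : Σ _ : Set (Sym2 V), (Fin d → Fin N) × (Fin d → ℕ)) ∈ 𝒢.sigma (fun E => A E ×ˢ B E)
    · have h' := Finset.mem_sigma.1 h
      have h1 : E ∈ 𝒢 := h'.1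
      have h2 := Finset.mem_product.1 h'.2
      have h3 : ∀ i, c (y (J i)) = φ E i := (Finset.mem_filter.1 h2.1).2
      have h4 : ∀ i, ρ i < F / sz c (φ E i) := fun i => Finset.mem_range.1 (Fintype.mem_piFinset.1 h2.2 i)
      obtain ⟨E', hE', h5, h6⟩ := lift_cycle hc (hφ E h1) (hH E h1 fun i => ⟨J i, h3 i⟩) J h3 ρ
        (fun i => mul_lt_of_lt_div (h4 i))
      exact ⟨E', fun _ => ⟨hE', h5, h6⟩⟩
    · exact ⟨∅, fun h1 => absurd h1 h⟩
  choose Ψ hΨ using hex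
  rw [hsum]
  have hfin : (dcyc d (sgr G c N F y H) (scol c N F y H)).Finite := Set.toFinite _
  rw [Set.ncard_eq_toFinset_card _ hfin]
  refine Finset.card_le_card_of_injOn Ψ (fun x hx => ?_) ?_
  · rw [Finset.mem_coe, Set.Finite.mem_toFinset]
    exact (hΨ x hx).1
  · rintro ⟨E₁, J₁, ρ₁⟩ hx₁ ⟨E₂, J₂, ρ₂⟩ hx₂ heq
    obtain ⟨-, h1, h2⟩ := hΨ _ hx₁
    obtain ⟨-, h3, h4⟩ := hΨ _ hx₂
    have hE : E₁ = E₂ := h1.symm.trans ((congrArg _ heq).trans h3)
    subst hE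
    have hE1 : E₁ ∈ 𝒢 := (Finset.mem_sigma.1 (Finset.mem_coe.1 hx₁)).1
    have hi : ∀ i, ((J₁ i : ℕ), ρ₁ i) = ((J₂ i : ℕ), ρ₂ i) := by
      intro i
      obtain ⟨v, ⟨e, he, hv⟩, hvi⟩ := (hφ E₁ hE1).2.2.2.2 i
      obtain ⟨e', he', rfl⟩ : e ∈ Sym2.map (fun w : SV c N F y H => w.1.1) '' Ψ ⟨E₁, (J₁, ρ₁)⟩ := h1.symm ▸ he
      obtain ⟨w, hw, rfl⟩ := Sym2.mem_map.1 hv
      rw [← h2 i w ⟨e', he', hw⟩ hvi]
      exact h4 i w ⟨e', by rw [← heq]; exact he', hw⟩ hvi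
    have hJ : J₁ = J₂ := funext fun i => Fin.ext (congrArg Prod.fst (hi i))
    have hρ : ρ₁ = ρ₂ := funext fun i => congrArg Prod.snd (hi i)
    rw [hJ, hρ]

end H46.EF
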