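import Pool.Agent.H46.EF.Pul

/-!
# EF.Col : small colours (about 100 lines)

`c' v = 0` if `c v = 0`, otherwise `1 +` the number of the different colours `≠ 0` of `c` which are
`< c v` (at most `m` colours occur, so `c' v ≤ m`). `c u = c v ↔ c' u = c' v` for all `u v`, so the
sets of the colours met by `E` for `c` and for `c'` have the same number of elements.
-/

set_option autoImplicit false

namespace H46.EF

open Pool.Agent.H3.LC H46.CY

/-- the new colour of the colour `i` -/
def newc {m : ℕ} (c : Fin m → ℕ) (i : ℕ) : ℕ :=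
  if i = 0 then 0 else 1 + ((Finset.univ.image c).filter fun j => j ≠ 0 ∧ j < i).card

theorem newc_zero {m : ℕ} (c : Fin m → ℕ) (i : ℕ) : newc c i = 0 ↔ i = 0 := by
  unfold newc
  split_ifs with h
  · simp [h]
  · constructor
    · intro h2
      omega
    · intro h2
      exact absurd h2 h

theorem newc_lt {m : ℕ} (c : Fin m → ℕ) {u v : Fin m} (h : c u < c v) :
    newc c (c u) < newc c (c v) := by
  by_cases h0 : c u = 0
  · have h1 : newc c (c u) = 0 := (newc_zero c _).2 h0
    have h2 : newc c (c v) ≠ 0 := by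
      intro h3
      have := (newc_zero c _).1 h3
      omega
    omega
  · have hv : c v ≠ 0 := by omega
    unfold newc
    rw [if_neg h0, if_neg hv]
    have : ((Finset.univ.image c).filter fun j => j ≠ 0 ∧ j < c u).card <
        ((Finset.univ.image c).filter fun j => j ≠ 0 ∧ j < c v).card := by
      apply Finset.card_lt_card
      rw [Finset.ssubset_iff_of_subset]
      · refine ⟨c u, ?_, ?_⟩
        · rw [Finset.mem_filter]
          exact ⟨Finset.mem_image_of_mem c (Finset.mem_univ u), h0, h⟩
        · rw [Finset.mem_filter]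
          rintro ⟨-, -, h3⟩
          omega
      · intro j hj
        rw [Finset.mem_filter] at hj ⊢
        exact ⟨hj.1, hj.2.1, by omega⟩
    omega

theorem newc_inj {m : ℕ} (c : Fin m → ℕ) {u v : Fin m} (h : newc c (c u) = newc c (c v)) :
    c u = c v := by
  rcases lt_trichotomy (c u) (c v) with h1 | h1 | h1
  · have := newc_lt c h1
    omega
  · exact h1
  · have := newc_lt c h1
    omega

theorem newc_le {m : ℕ} (c : Fin m → ℕ) (v : Fin m) : newc c (c v) ≤ m := by
  unfold newc
  split_ifs with h
  · exact Nat.zero_le _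
  · have h1 : ((Finset.univ.image c).filter fun j => j ≠ 0 ∧ j < c v).card <
        (Finset.univ.image c).card := by
      apply Finset.card_lt_card
      rw [Finset.ssubset_iff_of_subset (Finset.filter_subset _ _)]
      refine ⟨c v, Finset.mem_image_of_mem c (Finset.mem_univ v), ?_⟩
      rw [Finset.mem_filter]
      rintro ⟨-, -, h3⟩
      omega
    have h2 : (Finset.univ.image c).card ≤ m := by
      refine Finset.card_image_le.trans ?_
      simp
    omega

theorem recolour {L : Finset ℕ} {m : ℕ} {G : SimpleGraph (Fin m)} {c : Fin m → ℕ}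
    (hc : Compat G c) (hv : ∀ M, IsLCycleGraph L (blow G c M)) :
    ∃ c' : Fin m → ℕ, (∀ v, c' v ≤ m) ∧ Compat G c' ∧ (∀ M, IsLCycleGraph L (blow G c' M)) ∧
      (∀ d, dcyc d G c' = dcyc d G c) ∧ {v | c' v ≠ 0} = {v | c v ≠ 0} := by
  have h0 : ∀ v, newc c (c v) = 0 ↔ c v = 0 := fun v => newc_zero c (c v)
  have hcomp : Compat G fun v => newc c (c v) := by
    intro u v huv hu hv'
    have : c u = c v := hc u v huv (fun h => hu ((h0 u).2 h)) (fun h => hv' ((h0 v).2 h))
    simp only [this]
  refine ⟨fun v => newc c (c v), fun v => newc_le c v, hcomp, ?_, ?_, ?_⟩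
  · intro M
    have h1 := pul_valid (W := Fin m) (π := id) (c' := fun v => newc c (c v)) hv
      (fun w => h0 w) (fun w w' _ h => h) M
    have h2 : pul G id (fun v => newc c (c v)) = G := by
      ext u v
      constructor
      · intro h
        exact h.1
      · intro h
        exact ⟨h, hcomp u v h⟩
    rw [h2] at h1
    exact h1
  · intro d
    unfold dcyc
    ext E
    simp only [Set.mem_setOf_eq]
    have h3 : {i | i ≠ 0 ∧ ∃ v, newc c (c v) = i ∧ ∃ e ∈ E, v ∈ e} =
        newc c '' {i | i ≠ 0 ∧ ∃ v, c v = i ∧ ∃ e ∈ E, v ∈ e} := by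
      ext i
      simp only [Set.mem_setOf_eq, Set.mem_image]
      constructor
      · rintro ⟨hi, v, hvi, he⟩
        exact ⟨c v, ⟨fun h => hi (hvi ▸ (h0 v).2 h), v, rfl, he⟩, hvi⟩
      · rintro ⟨j, ⟨hj, v, hvj, he⟩, hji⟩
        refine ⟨?_, v, by rw [hvj]; exact hji, he⟩
        rw [← hji]
        intro h
        exact hj ((newc_zero c j).1 h)
    rw [h3, Set.ncard_image_of_injOn]
    rintro i ⟨-, u, hu, -⟩ j ⟨-, v, hv', -⟩ hij
    rw [← hu, ← hv'] at hij ⊢
    exact newc_inj c hij
  · ext v
    simp only [Set.mem_setOf_eq]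
    exact not_congr (h0 v)

end H46.EF
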