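import Pool.Agent.H46.EF.Defs
import Pool.Agent.H3.LC.Glue

/-!
# EF.Dec : it is enough to test one blow-up (about 130 lines)

By `isLCycle_iff` let `g : ZMod t → BV c M`, `3 ≤ t`, `IsCyc (blow G c M) g`, `g i = (v i, a i)`. For `c (v i) ≠ 0` the copy at `i` is the pair `Z i = (c (v i), a i)`. Adjacent positions with colours `≠ 0` have the same copy (`Compat` and `blow`). Case 1: all `c (v i) ≠ 0` and all copies are equal: replace all `a i` by `0`. Case 2: every used copy has an exit: a position `i` with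
copy `Z` such that position `i + 1` does not have copy `Z` (otherwise all positions have it, induction around `ZMod t`); then `c (v (i + 1)) = 0`, and `Z ↦ v (i + 1)` is injective because `g` is; so at most `#{c = 0} ≤ M0` copies are used, and there is an injection `ι` of the used copies into `Fin (M0 + 1)`. Replace `a i` by `ι (Z i)` (by `0` if `c (v i) = 0`):
a cyclic sequence of `blow G c M0` of length `t`. (See the proof of `valid_of_class` in CY/Mov.lean for the same steps.)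
-/

set_option autoImplicit false

namespace H46.EF

open Pool.Agent.H3.LC H46.CY

theorem valid_of_one {V : Type} [Finite V] {L : Finset ℕ} {G : SimpleGraph V} {c : V → ℕ}
    (hc : Compat G c) {M0 : ℕ} (hM : {v | c v = 0}.ncard ≤ M0)
    (h : IsLCycleGraph L (blow G c M0)) (M : ℕ) : IsLCycleGraph L (blow G c M) := by
  classical
  have hL' := isLCycle_iff.1 h
  rw [isLCycle_iff]
  intro t g ht hg
  haveI : NeZero t := ⟨by omega⟩
  obtain ⟨ginj, gadj⟩ := hg
  obtain ⟨v, hv⟩ : ∃ v : ZMod t → V, v = fun i => (g i).1.1 := ⟨_, rfl⟩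
  obtain ⟨a, ha⟩ : ∃ a : ZMod t → Fin (M + 1), a = fun i => (g i).1.2 := ⟨_, rfl⟩
  have hga : ∀ i j, v i = v j → a i = a j → i = j := by
    intro i j h1 h2
    apply ginj
    apply Subtype.ext
    refine Prod.ext ?_ ?_
    · have := h1
      rw [hv] at this
      exact this
    · have := h2
      rw [ha] at this
      exact this
  have ha0 : ∀ i, c (v i) = 0 → a i = 0 := by
    intro i h1
    rw [ha]
    rw [hv] at h1
    exact (g i).2 h1
  have hadj : ∀ i, G.Adj (v i) (v (i + 1)) := by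
    intro i
    rw [hv]
    exact (gadj i).1
  have hsame : ∀ i, c (v i) ≠ 0 → c (v (i + 1)) ≠ 0 → a i = a (i + 1) := by
    intro i h1 h2
    rw [ha]
    rw [hv] at h1 h2
    exact (gadj i).2 h1 h2
  have hcc : ∀ i, c (v i) ≠ 0 → c (v (i + 1)) ≠ 0 → c (v i) = c (v (i + 1)) := by
    intro i h1 h2
    exact hc _ _ (hadj i) h1 h2
  by_cases hcase : ∃ Z : ℕ × Fin (M + 1), ∀ i, c (v i) ≠ 0 ∧ (c (v i), a i) = Z
  · obtain ⟨Z, hZ⟩ := hcase
    refine hL' t (fun i => ⟨(v i, 0), fun _ => rfl⟩) ht ⟨?_, ?_⟩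
    · intro i j hij
      have h0 := congrArg (fun x : BV c M0 => x.1.1) hij
      refine hga i j h0 ?_
      have h1 := (hZ i).2
      rw [← (hZ j).2] at h1
      exact congrArg Prod.snd h1
    · intro i
      exact ⟨hadj i, fun _ _ => rfl⟩
  -- used copies
  obtain ⟨used, hused⟩ : ∃ used : ℕ × Fin (M + 1) → Prop,
      used = fun Z => ∃ i, c (v i) ≠ 0 ∧ (c (v i), a i) = Z := ⟨_, rfl⟩
  have husedi : ∀ i, c (v i) ≠ 0 → used (c (v i), a i) := by
    intro i h1
    rw [hused]
    exact ⟨i, h1, rfl⟩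
  have hexit : ∀ Z, used Z → ∃ i, c (v i) ≠ 0 ∧ (c (v i), a i) = Z ∧ c (v (i + 1)) = 0 := by
    intro Z hZ
    by_contra hno
    push Not at hno
    rw [hused] at hZ
    obtain ⟨i, h1, h2⟩ := hZ
    have hstep : ∀ j, c (v j) ≠ 0 ∧ (c (v j), a j) = Z →
        c (v (j + 1)) ≠ 0 ∧ (c (v (j + 1)), a (j + 1)) = Z := by
      rintro j ⟨h3, h4⟩
      have h5 := hno j h3 h4
      refine ⟨h5, ?_⟩
      rw [← hcc j h3 h5, ← hsame j h3 h5]
      exact h4
    have hall : ∀ n : ℕ, c (v (i + n)) ≠ 0 ∧ (c (v (i + n)), a (i + n)) = Z := by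
      intro n
      induction n with
      | zero =>
        rw [Nat.cast_zero, add_zero]
        exact ⟨h1, h2⟩
      | succ n ih =>
        have h3 := hstep _ ih
        rw [add_assoc] at h3
        rw [Nat.cast_succ]
        exact h3
    apply hcase
    refine ⟨Z, fun j => ?_⟩
    have h3 := hall (j - i).val
    rw [ZMod.natCast_zmod_val, add_sub_cancel] at h3
    exact h3
  choose! ex hex using hexit
  have hWinj : ∀ Z Z', used Z → used Z' → v (ex Z + 1) = v (ex Z' + 1) → Z = Z' := by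
    intro Z Z' hZ hZ' h1
    obtain ⟨h2, h3, h4⟩ := hex Z hZ
    obtain ⟨h2', h3', h4'⟩ := hex Z' hZ'
    have h5 := hga _ _ h1 ((ha0 _ h4).trans (ha0 _ h4').symm)
    have h6 : ex Z = ex Z' := add_right_cancel h5
    rw [← h3, ← h3', h6]
  -- the used copies are mapped injectively into `Fin (M0 + 1)`
  haveI hfin : Finite {Z : ℕ × Fin (M + 1) // used Z} := by
    refine Finite.of_injective (fun Z : {Z : ℕ × Fin (M + 1) // used Z} => ex Z.1) ?_
    intro Z Z' hZZ
    have h1 : ex Z.1 = ex Z'.1 := hZZ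
    exact Subtype.ext (hWinj _ _ Z.2 Z'.2 (by rw [h1]))
  have hemb : Nonempty ({Z : ℕ × Fin (M + 1) // used Z} ↪ Fin (M0 + 1)) := by
    haveI := Fintype.ofFinite {Z : ℕ × Fin (M + 1) // used Z}
    apply Function.Embedding.nonempty_of_card_le
    rw [← Nat.card_eq_fintype_card, Fintype.card_fin]
    refine le_trans ?_ (le_trans hM (Nat.le_succ _))
    rw [← Nat.card_coe_set_eq]
    refine Nat.card_le_card_of_injective
      (fun Z : {Z : ℕ × Fin (M + 1) // used Z} =>
        (⟨v (ex Z.1 + 1), (hex Z.1 Z.2).2.2⟩ : ({v | c v = 0} : Set V))) ?_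
    intro Z Z' hZZ
    exact Subtype.ext (hWinj _ _ Z.2 Z'.2 (congrArg Subtype.val hZZ))
  obtain ⟨emb⟩ := hemb
  obtain ⟨σ, hσ⟩ : ∃ σ : ℕ × Fin (M + 1) → Fin (M0 + 1), ∀ Z (hZ : used Z),
      σ Z = emb ⟨Z, hZ⟩ := by
    refine ⟨fun Z => if hZ : used Z then emb ⟨Z, hZ⟩ else 0, fun Z hZ => ?_⟩
    exact dif_pos hZ
  have hσinj : ∀ Z Z', used Z → used Z' → σ Z = σ Z' → Z = Z' := by
    intro Z Z' hZ hZ' h1
    rw [hσ Z hZ, hσ Z' hZ'] at h1
    exact congrArg Subtype.val (emb.injective h1)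
  obtain ⟨b, hb⟩ : ∃ b : ZMod t → Fin (M0 + 1),
      b = fun i => if c (v i) = 0 then 0 else σ (c (v i), a i) := ⟨_, rfl⟩
  have hb0 : ∀ i, c (v i) = 0 → b i = 0 := by
    intro i h1
    rw [hb]
    exact if_pos h1
  have hb1 : ∀ i, c (v i) ≠ 0 → b i = σ (c (v i), a i) := by
    intro i h1
    rw [hb]
    exact if_neg h1
  refine hL' t (fun i => ⟨(v i, b i), fun h1 => hb0 i h1⟩) ht ⟨?_, ?_⟩
  · intro i j hij
    have h0 : v i = v j := congrArg (fun x : BV c M0 => x.1.1) hij
    have h1 : b i = b j := congrArg (fun x : BV c M0 => x.1.2) hij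
    refine hga i j h0 ?_
    by_cases hi : c (v i) = 0
    · have hj : c (v j) = 0 := by rw [← h0]; exact hi
      rw [ha0 i hi, ha0 j hj]
    · have hj : c (v j) ≠ 0 := by rw [← h0]; exact hi
      rw [hb1 i hi, hb1 j hj] at h1
      exact congrArg Prod.snd (hσinj _ _ (husedi i hi) (husedi j hj) h1)
  · intro i
    refine ⟨hadj i, ?_⟩
    intro h1 h2
    show b i = b (i + 1)
    rw [hb1 i h1, hb1 _ h2, hcc i h1 h2, hsame i h1 h2]

end H46.EF
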