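import Pool.Agent.H46.CY.Defs

/-!
# EF.Defs : explicit constants for the approximation of Gam by finitely many templates
-/

set_option autoImplicit false

namespace H46.EF

open Pool.Agent.H3.LC H46.CY

/-- the largest value of the valid templates with at most `N` vertices -/
noncomputable def GamN (L : Finset ℕ) (d N : ℕ) : ℝ :=
  sSup {r | ∃ (m : ℕ) (_ : m ≤ N) (G : SimpleGraph (Fin m)) (c : Fin m → ℕ), Compat G c ∧
    (∀ M, IsLCycleGraph L (blow G c M)) ∧
    r = ((dcyc d G c).ncard : ℝ) / ({v | c v ≠ 0}.ncard : ℝ) ^ d}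

/-- the values of the valid templates with at most `N` vertices, colours at most `N`, where only the
blow-up with `N + 1` copies is tested: a finite set -/
def gSet (L : Finset ℕ) (d N : ℕ) : Set ℝ :=
  {r | ∃ (m : Fin (N + 1)) (G : SimpleGraph (Fin m)) (c : Fin m → Fin (N + 1)),
    Compat G (fun v => (c v : ℕ)) ∧ IsLCycleGraph L (blow G (fun v => (c v : ℕ)) N) ∧
    r = ((dcyc d G fun v => (c v : ℕ)).ncard : ℝ) / ({v | (c v : ℕ) ≠ 0}.ncard : ℝ) ^ d}

/-- bound for the number of short paths -/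
def cS (D : ℕ) : ℕ → ℕ
  | 0 => 1
  | t + 1 => 1 + D * ((t + 1) * (((t + 1) * cS D t) * ((t + 1) * cS D t)))

/-- bound for the number of paths with given sources -/
def cP (D : ℕ) : ℕ → ℕ
  | 0 => 1
  | t + 1 => cS D (t + 1) +
      (D + 1) * ((t + 1) * ((t + 1) * (((t + 1) * cP D t) * ((t + 1) * cP D t))))

/-- bound for the number of cyclic sequences with given sources -/
def cC (D m : ℕ) : ℕ := (D + 1) * (D * (m * (m * (m * ((m * cP D m) * (m * cP D m))))))

/-- bound for the cycles whose sources are not in `d` different pieces -/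
def fB (D l d : ℕ) : ℕ := ∑ m ∈ Finset.range ((d + 1) * l), cC D m * (d + d * d)

/-- number of codes of the pieces with at most `M` vertices -/
def code (D M : ℕ) : ℕ := 2 ^ (M + 1) * (2 ^ ((M + 1) * (M + 1)) * 2 ^ ((M + 1) * (D + 1)))

/-- the scales -/
def tT (D q : ℕ) : ℕ → ℕ
  | 0 => 1
  | i + 1 => max (tT D q i)
      (3 * (D + 1) * (1 + code (D + 1) (tT D q i) * (D + 1) * tT D q i) * q)

/-- bound for the size of the pieces -/
def tM (D q : ℕ) : ℕ := tT D q (3 * (D + 1) * q)

/-- size of the graph from which on the template exists -/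
def tn (D q : ℕ) : ℕ :=
  ∑ i ∈ Finset.range (3 * (D + 1) * q), 3 * (code (D + 1) (tT D q i) * (D + 1) * tT D q i) * q

/-- `c(L, n) ≤ cB l d * n ^ d` -/
def cB (l d : ℕ) : ℕ := 2 * fB (((d + 1) * l) * ((d + 1) * l + 1) * 2 + 1) l d

/-- bound for the number of vertices of a sample of `N` pieces with at most `M` vertices -/
def sB (D l d M N : ℕ) : ℕ :=
  N * M.factorial + (d + 1) * l * ∑ m ∈ Finset.range ((d + 1) * l), cC D m * (N * M) ^ d

/-- accuracy `1 / m`: depth of the elimination forest -/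
def aD (l d m : ℕ) : ℕ := ((d + 1) * l) * ((d + 1) * l + 1) * (4 * m * (cB l d + 1)) + 1

/-- accuracy `1 / m`: inverse proportion of the hubs -/
def aq (l d m : ℕ) : ℕ := 4 * m * (fB (aD l d m) l d + 1)

/-- accuracy `1 / m`: size of the pieces -/
def aM (l d m : ℕ) : ℕ := tM (aD l d m) (aq l d m)

/-- accuracy `1 / m`: number of the pieces of a sample -/
def aN (l d m : ℕ) : ℕ := 8 * m * d ^ 2 * (cB l d * 2 ^ d + 1)

/-- accuracy `1 / m`: number of vertices of the templates -/
def aB (l d m : ℕ) : ℕ := sB (aD l d m) l d (aM l d m) (aN l d m)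

/-- accuracy `1 / m`: from this `n` on -/
def an (l d m : ℕ) : ℕ :=
  tn (aD l d m) (aq l d m) + 4 * m * fB (aD l d m) l d * aM l d m +
    m * cB l d * 2 ^ d * d * aB l d m + aB l d m + 1

/-- the sources of `f` lie in different pieces -/
def Good {V : Type} {m d : ℕ} (c : V → ℕ) (Φ : (ZMod m → V) → Fin d → V) (f : ZMod m → V) : Prop :=
  (∀ i, c (Φ f i) ≠ 0) ∧ Function.Injective fun i => c (Φ f i)

/-- the graph on `W` pulled back along `π`, without edges between different colours `≠ 0` -/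
def pul {V W : Type} (G : SimpleGraph V) (π : W → V) (c' : W → ℕ) : SimpleGraph W where
  Adj w w' := G.Adj (π w) (π w') ∧ (c' w ≠ 0 → c' w' ≠ 0 → c' w = c' w')
  symm := by
    constructor
    intro w w' h
    exact ⟨h.1.symm, fun h1 h2 => (h.2 h2 h1).symm⟩
  loopless := by
    constructor
    intro w h
    exact G.loopless.irrefl _ h.1

/-- the size of the piece `i` -/
noncomputable def sz {V : Type} (c : V → ℕ) (i : ℕ) : ℕ := {v | c v = i}.ncard

/-- the vertices of the sample `y`: the hubs in `H`, and for each `j < N` the piece of `y j`,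
`F / sz` times -/
abbrev SV {V : Type} (c : V → ℕ) (N F : ℕ) (y : Fin N → V) (H : Set V) : Type :=
  {w : V × ℕ × ℕ // (c w.1 = 0 ∧ w.1 ∈ H ∧ w.2 = (0, 0)) ∨
    (c w.1 ≠ 0 ∧ (∃ h : w.2.1 < N, c w.1 = c (y ⟨w.2.1, h⟩)) ∧ w.2.2 * sz c (c w.1) < F)}

/-- the colouring of the sample -/
def scol {V : Type} (c : V → ℕ) (N F : ℕ) (y : Fin N → V) (H : Set V) (w : SV c N F y H) : ℕ :=
  if c w.1.1 = 0 then 0 else Nat.pair w.1.2.1 w.1.2.2 + 1

/-- the graph of the sample -/
def sgr {V : Type} (G : SimpleGraph V) (c : V → ℕ) (N F : ℕ) (y : Fin N → V) (H : Set V) :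
    SimpleGraph (SV c N F y H) := pul G (fun w => w.1.1) (scol c N F y H)

/-- `φ` lists the `d` pieces met by the cycle `E` -/
def Lists {V : Type} (G : SimpleGraph V) (c : V → ℕ) {d : ℕ} (E : Set (Sym2 V)) (φ : Fin d → ℕ) :
    Prop :=
  E ∈ cycles G ∧ Function.Injective φ ∧ (∀ i, φ i ≠ 0) ∧
    (∀ v, (∃ e ∈ E, v ∈ e) → c v ≠ 0 → ∃ i, φ i = c v) ∧ ∀ i, ∃ v, (∃ e ∈ E, v ∈ e) ∧ c v = φ i

end H46.EF
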