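import Pool.Agent.H46.EF.Defs
import Pool.Agent.H46.CY.Frst
import Pool.Agent.H46.CY.Fle
import Pool.Agent.H3.LC.Glue

/-!
# EF.Elm : explicit form of `exists_elim` (copy of CY/Lay.lean, about 170 lines)

Copy `Pool/Agent/H46/CY/Lay.lean` (its private lemmas included, renamed if you like). With `B = k * (k + 1)` take `R = B * q + 1`. The double counting there gives `#cycles G * (R - B) ≤ ∑ θ < R, #cycles (G θ)`, so some `θ` has
`#cycles G * (R - B) ≤ R * #cycles (G θ)`; multiply by `q` and use `(q - 1) * R ≤ q * (R - B)` (because `q * B ≤ R`).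
-/

set_option autoImplicit false

namespace H46.EF

open Pool.Agent.H3.LC H46.CY

private theorem elm_one (R b : ℕ) :
    ((Finset.range R).filter fun θ => (b + θ) / R ≠ (b + 1 + θ) / R).card ≤ 1 := by
  rw [Finset.card_le_one]
  have key : ∀ θ, (b + θ) / R ≠ (b + 1 + θ) / R → R ∣ b + θ + 1 := by
    intro θ h
    by_contra h1
    apply h
    have h2 : b + 1 + θ = (b + θ) + 1 := by omega
    rw [h2, Nat.succ_div, if_neg h1, add_zero]
  intro x hx y hy
  rw [Finset.mem_filter, Finset.mem_range] at hx hy
  have h1 := key x hx.2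
  have h2 := key y hy.2
  rcases le_total x y with h | h
  · have h3 : R ∣ (b + y + 1) - (b + x + 1) := Nat.dvd_sub h2 h1
    have h4 : (b + y + 1) - (b + x + 1) = y - x := by omega
    rw [h4] at h3
    have h5 : y - x = 0 := Nat.eq_zero_of_dvd_of_lt h3 (by omega)
    omega
  · have h3 : R ∣ (b + x + 1) - (b + y + 1) := Nat.dvd_sub h1 h2
    have h4 : (b + x + 1) - (b + y + 1) = x - y := by omega
    rw [h4] at h3
    have h5 : x - y = 0 := Nat.eq_zero_of_dvd_of_lt h3 (by omega)
    omega

private theorem elm_cnt (R a : ℕ) : ∀ d : ℕ,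
    ((Finset.range R).filter fun θ => (a + θ) / R ≠ (a + d + θ) / R).card ≤ d := by
  intro d
  induction d with
  | zero => simp
  | succ d ih =>
    have hsub : ((Finset.range R).filter fun θ => (a + θ) / R ≠ (a + (d + 1) + θ) / R) ⊆
        ((Finset.range R).filter fun θ => (a + θ) / R ≠ (a + d + θ) / R) ∪
          ((Finset.range R).filter fun θ => (a + d + θ) / R ≠ (a + d + 1 + θ) / R) := by
      intro θ hθ
      rw [Finset.mem_filter] at hθ
      rw [Finset.mem_union, Finset.mem_filter, Finset.mem_filter]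
      by_cases h : (a + θ) / R = (a + d + θ) / R
      · right
        refine ⟨hθ.1, ?_⟩
        rw [← h]
        exact hθ.2
      · left
        exact ⟨hθ.1, h⟩
    calc _ ≤ _ := Finset.card_le_card hsub
      _ ≤ _ := Finset.card_union_le _ _
      _ ≤ d + 1 := Nat.add_le_add ih (elm_one R (a + d))

/-- the graph of the edges inside the layers -/
private def elmG {V : Type} (G : SimpleGraph V) (s : V → ℕ) : SimpleGraph V where
  Adj u v := G.Adj u v ∧ s u = s v
  symm := by
    constructor
    intro u v h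
    exact ⟨h.1.symm, h.2.symm⟩
  loopless := by
    constructor
    intro u h
    exact G.loopless.irrefl _ h.1

theorem elim_exp (k q : ℕ) (hq : 1 ≤ q) (V : Type) [Finite V] (G : SimpleGraph V)
    (hk : ∀ (m : ℕ) (f : ZMod m → V), 3 ≤ m → IsCyc G f → m ≤ k) :
    ∃ (G' : SimpleGraph V) (le : V → V → Prop), G' ≤ G ∧ IsElim G' (k * (k + 1) * q + 1) le ∧
      (q - 1) * (cycles G).ncard ≤ q * (cycles G').ncard := by
  classical
  let B : ℕ := k * (k + 1)
  let R : ℕ := k * (k + 1) * q + 1
  have hR0 : 0 < R := Nat.succ_pos _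
  have hRB : R = B * q + 1 := rfl
  obtain ⟨par, dep, hF, hcomp⟩ := exists_forest G
  let σ : ℕ → V → ℕ := fun θ v => (dep v + θ) / R
  let Gt : ℕ → SimpleGraph V := fun θ => elmG G (σ θ)
  let le : ℕ → V → V → Prop := fun θ u v => fle par dep u v ∧ σ θ u = σ θ v
  have hle : ∀ θ, Gt θ ≤ G := fun θ u v h => h.1
  have hel : ∀ θ, IsElim (Gt θ) R (le θ) := by
    intro θ
    refine ⟨fun u => ⟨fle_refl u, rfl⟩, fun u v w h1 h2 => ⟨fle_trans hF h1.1 h2.1, h1.2.trans h2.2⟩,
      fun u v h1 h2 => fle_anti hF h1.1 h2.1, fun u v w h1 h2 => ?_, fun u v h => ?_, fun v => ?_⟩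
    · rcases fle_chain hF h1.1 h2.1 with h | h
      · exact Or.inl ⟨h, h1.2.trans h2.2.symm⟩
      · exact Or.inr ⟨h, h2.2.trans h1.2.symm⟩
    · rcases hcomp u v h.1 with h1 | h1
      · exact Or.inl ⟨h1, h.2⟩
      · exact Or.inr ⟨h1, h.2.symm⟩
    · have hmap : Set.MapsTo (fun u => (dep u + θ) % R) {u | le θ u v} (↑(Finset.range R) : Set ℕ) := by
        intro u _
        rw [Finset.mem_coe, Finset.mem_range]
        exact Nat.mod_lt _ hR0
      have hinj : Set.InjOn (fun u => (dep u + θ) % R) {u | le θ u v} := by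
        intro u hu w hw huw
        have h1 : (dep u + θ) / R = (dep w + θ) / R := hu.2.trans hw.2.symm
        have h2 : (dep u + θ) % R = (dep w + θ) % R := huw
        have h3 := Nat.div_add_mod (dep u + θ) R
        have h4 := Nat.div_add_mod (dep w + θ) R
        rw [h1, h2, h4] at h3
        have h5 : dep u = dep w := by omega
        have h6 := (fle_dep hF hu.1).2
        have h7 := (fle_dep hF hw.1).2
        rw [h5] at h6
        exact h6.symm.trans h7
      have h := Set.encard_le_encard_of_injOn hmap hinj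
      rw [Set.encard_coe_eq_coe_finsetCard, Finset.card_range] at h
      exact h
  have hadj : ∀ u v, G.Adj u v → dep v ≤ dep u + (k + 1) := by
    intro u v huv
    rcases hcomp u v huv with h | h
    · exact adj_dep hF hk h huv
    · have h1 := (fle_dep hF h).1
      omega
  have hcyc : ∀ E ∈ cycles G, R - B ≤ ((Finset.range R).filter fun θ => E ∈ cycles (Gt θ)).card := by
    intro E hE
    obtain ⟨m, f, hm, hf, rfl⟩ := mem_cycles_iff.1 hE
    have hmk := hk m f hm hf
    have : NeZero m := ⟨by omega⟩
    have hstep : ∀ (n : ℕ) (i : ZMod m), dep (f (i + n)) ≤ dep (f i) + n * (k + 1) := by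
      intro n
      induction n with
      | zero =>
        intro i
        simp
      | succ n ih =>
        intro i
        have h1 := ih i
        have h2 := hadj _ _ (hf.2 (i + n))
        have h3 : i + ((n + 1 : ℕ) : ZMod m) = i + n + 1 := by
          push_cast
          ring
        rw [h3]
        have h4 : (n + 1) * (k + 1) = n * (k + 1) + (k + 1) := by ring
        omega
    have hdist : ∀ i j : ZMod m, dep (f j) ≤ dep (f i) + B := by
      intro i j
      have h1 := hstep (j - i).val i
      rw [ZMod.natCast_zmod_val, add_sub_cancel] at h1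
      have h2 : (j - i).val < m := ZMod.val_lt _
      have h3 : (j - i).val * (k + 1) ≤ k * (k + 1) := Nat.mul_le_mul_right _ (by omega)
      exact h1.trans (Nat.add_le_add_left h3 _)
    obtain ⟨i0, hi0⟩ := Finite.exists_min (fun i => dep (f i))
    obtain ⟨i1, hi1⟩ := Finite.exists_max (fun i => dep (f i))
    have h01 : dep (f i0) ≤ dep (f i1) := hi0 i1
    have hB := hdist i0 i1
    obtain ⟨d, hd⟩ := Nat.exists_eq_add_of_le h01
    have hdB : d ≤ B := by omega
    have hbad := elm_cnt R (dep (f i0)) d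
    have hsub : ((Finset.range R).filter fun θ => ¬ (dep (f i0) + θ) / R ≠ (dep (f i0) + d + θ) / R) ⊆
        ((Finset.range R).filter fun θ => cedges f ∈ cycles (Gt θ)) := by
      intro θ hθ
      rw [Finset.mem_filter] at hθ ⊢
      refine ⟨hθ.1, ?_⟩
      have h1 : (dep (f i0) + θ) / R = (dep (f i1) + θ) / R := by
        rw [hd]
        exact not_not.1 hθ.2
      have h2 : ∀ i, σ θ (f i) = (dep (f i0) + θ) / R := by
        intro i
        apply le_antisymm
        · rw [h1]
          exact Nat.div_le_div_right (Nat.add_le_add_right (hi1 i) θ)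
        · exact Nat.div_le_div_right (Nat.add_le_add_right (hi0 i) θ)
      exact mem_cycles_iff.2 ⟨m, f, hm, ⟨hf.1, fun i => ⟨hf.2 i, (h2 i).trans (h2 (i + 1)).symm⟩⟩, rfl⟩
    have h5 := Finset.card_le_card hsub
    have h6 := Finset.card_filter_add_card_filter_not (s := Finset.range R)
      (fun θ => (dep (f i0) + θ) / R ≠ (dep (f i0) + d + θ) / R)
    rw [Finset.card_range] at h6
    omega
  by_contra hcon
  push Not at hcon
  have hlt : ∀ θ ∈ Finset.range R, q * (cycles (Gt θ)).ncard < (q - 1) * (cycles G).ncard :=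
    fun θ _ => hcon (Gt θ) (le θ) (hle θ) (hel θ)
  have h1 := Finset.sum_lt_sum_of_nonempty (Finset.nonempty_range_iff.2 hR0.ne') hlt
  rw [Finset.sum_const, Finset.card_range, smul_eq_mul, ← Finset.mul_sum] at h1
  have hfin : (cycles G).Finite := Set.toFinite _
  have h2 : ∀ θ, ((hfin.toFinset).filter fun E => E ∈ cycles (Gt θ)).card ≤ (cycles (Gt θ)).ncard := by
    intro θ
    rw [← Set.ncard_coe_finset]
    exact Set.ncard_le_ncard (fun E hE => by
      rw [Finset.mem_coe, Finset.mem_filter] at hE
      exact hE.2) (Set.toFinite _)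
  have h3 : (cycles G).ncard * (R - B) ≤ ∑ θ ∈ Finset.range R, (cycles (Gt θ)).ncard := by
    calc (cycles G).ncard * (R - B) = ∑ _E ∈ hfin.toFinset, (R - B) := by
          rw [Finset.sum_const, smul_eq_mul, Set.ncard_eq_toFinset_card _ hfin]
      _ ≤ ∑ E ∈ hfin.toFinset, ((Finset.range R).filter fun θ => E ∈ cycles (Gt θ)).card :=
          Finset.sum_le_sum fun E hE => hcyc E (hfin.mem_toFinset.1 hE)
      _ = ∑ θ ∈ Finset.range R, ((hfin.toFinset).filter fun E => E ∈ cycles (Gt θ)).card := by
          simp only [Finset.card_filter]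
          exact Finset.sum_comm
      _ ≤ _ := Finset.sum_le_sum fun θ _ => h2 θ
  have h4 : R * (q - 1) ≤ q * (R - B) := by
    obtain ⟨p, rfl⟩ := Nat.exists_eq_add_of_le' hq
    have h5 : R - B = B * p + 1 := by
      rw [hRB, Nat.mul_succ]
      omega
    rw [h5, hRB, Nat.add_sub_cancel]
    nlinarith
  have h6 : R * ((q - 1) * (cycles G).ncard) ≤ q * ∑ θ ∈ Finset.range R, (cycles (Gt θ)).ncard :=
    calc R * ((q - 1) * (cycles G).ncard) = R * (q - 1) * (cycles G).ncard := (mul_assoc _ _ _).symm
      _ ≤ q * (R - B) * (cycles G).ncard := Nat.mul_le_mul_right _ h4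
      _ = q * ((cycles G).ncard * (R - B)) := by ring
      _ ≤ _ := Nat.mul_le_mul_left _ h3
  exact absurd h1 (not_lt.2 h6)

end H46.EF
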