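import Pool.Agent.H46.EF.Defs
import Pool.Agent.H46.CY.Fin

/-!
# EF.Exd : no cycle of a valid template meets more than d pieces (about 50 lines)

If `dcyc (d + 1) G c` is not empty, then `blow_count hc (d + 1) M` gives at least `(M + 1) ^ (d + 1)` cycles in `blow G c M`, which has `h + p * (M + 1)` vertices (`card_BV`), so `(M + 1) ^ (d + 1) ≤ cMax L (h + p * (M + 1))` (`ncard_le_cMax`, use `Fintype.ofFinite`), at most `C * (h + p * (M + 1)) ^ d ≤ C * ((h + p) * (M + 1)) ^ d` by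
`cMax_bound`. So `M + 1 ≤ C * (h + p) ^ d` for all `M`: contradiction.
-/

set_option autoImplicit false

namespace H46.EF

open Pool.Agent.H3.LC H46.CY

theorem dcyc_succ {V : Type} [Finite V] {L : Finset ℕ} {l d : ℕ} (hl : 2 ≤ l) (hd : 1 ≤ d)
    (hev : ∀ x ∈ L, Even x → 2 * l ≤ x) (hmax : ∀ x ∈ L, x < (d + 1) * l) {G : SimpleGraph V}
    {c : V → ℕ} (hc : Compat G c) (hv : ∀ M, IsLCycleGraph L (blow G c M)) :
    dcyc (d + 1) G c = ∅ := by
  by_contra hne
  obtain ⟨C, hC⟩ := cMax_bound hl hd hev hmax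
  set h := {v | c v = 0}.ncard with hh
  set p := {v | c v ≠ 0}.ncard with hpp
  have h1 : 1 ≤ (dcyc (d + 1) G c).ncard := by
    have : (dcyc (d + 1) G c).Nonempty := Set.nonempty_iff_ne_empty.2 hne
    exact (Set.ncard_pos (Set.toFinite _)).2 this
  have key : ∀ M : ℕ, ((M : ℝ) + 1) ≤ C * ((h : ℝ) + p) ^ d := by
    intro M
    have : Fintype (BV c M) := Fintype.ofFinite _
    have h2 : Fintype.card (BV c M) ≤ h + p * (M + 1) := by
      rw [← Nat.card_eq_fintype_card, card_BV]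
    have h3 := (blow_count hc (d + 1) M).trans (ncard_le_cMax h2 (hv M))
    have h4 : (M + 1) ^ (d + 1) ≤ cMax L (h + p * (M + 1)) := by
      refine le_trans ?_ h3
      exact Nat.le_mul_of_pos_left _ h1
    have h5 := hC (h + p * (M + 1))
    have h6 : ((M : ℝ) + 1) ^ (d + 1) ≤ C * ((h + p * (M + 1) : ℕ) : ℝ) ^ d := by
      refine le_trans ?_ h5
      exact_mod_cast h4
    have hM : (0 : ℝ) < ((M : ℝ) + 1) ^ d := by positivity
    have h7 : ((h + p * (M + 1) : ℕ) : ℝ) ^ d ≤ (((h : ℝ) + p) * ((M : ℝ) + 1)) ^ d := by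
      refine pow_le_pow_left₀ (by positivity) ?_ d
      push_cast
      have : (0 : ℝ) ≤ (h : ℝ) * M := by positivity
      nlinarith
    have hC0 : 0 ≤ C := by
      by_contra hCn
      push Not at hCn
      have h8 : C * ((h + p * (M + 1) : ℕ) : ℝ) ^ d ≤ 0 := mul_nonpos_of_nonpos_of_nonneg hCn.le (by positivity)
      have h9 : (0 : ℝ) < ((M : ℝ) + 1) ^ (d + 1) := by positivity
      linarith
    have h8 : ((M : ℝ) + 1) * ((M : ℝ) + 1) ^ d ≤ C * ((h : ℝ) + p) ^ d * ((M : ℝ) + 1) ^ d := by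
      calc ((M : ℝ) + 1) * ((M : ℝ) + 1) ^ d = ((M : ℝ) + 1) ^ (d + 1) := by ring
        _ ≤ C * ((h + p * (M + 1) : ℕ) : ℝ) ^ d := h6
        _ ≤ C * (((h : ℝ) + p) * ((M : ℝ) + 1)) ^ d := mul_le_mul_of_nonneg_left h7 hC0
        _ = C * ((h : ℝ) + p) ^ d * ((M : ℝ) + 1) ^ d := by rw [mul_pow]; ring
    exact le_of_mul_le_mul_right h8 hM
  obtain ⟨M, hM⟩ := exists_nat_gt (C * ((h : ℝ) + p) ^ d)
  have := key M
  linarith

end H46.EF
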