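import Pool.Agent.H46.EF.Dec
import Pool.Agent.H46.EF.Col

/-!
# EF.Gnf : the finite form of GamN (about 90 lines)

`gSet` is finite: it is the image of a finite type (pairs `(m, G, c)`; `Set.finite_range` of a function on the sigma type, or `Set.Finite.subset`); it contains the value `0` of the empty graph (`m = 0`; `d ≥ 1` is not needed if the value is computed: `dcyc` of the empty graph has no cycles, `0 / x = 0`). `gSet ⊆` the set of `GamN`: validity from `valid_of_one` (`#{c = 0} ≤ m ≤ N`).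
Conversely a valid template with `m ≤ N` vertices is replaced by `recolour` (colours `≤ m ≤ N`), and valid templates satisfy the test for `M = N`. So both sets are equal, and `gSet` has a greatest element, which is its supremum (`Set.Finite.exists_maximal` or `Set.exists_max_image`, `IsGreatest.csSup_eq`).
-/

set_option autoImplicit false

namespace H46.EF

open Pool.Agent.H3.LC H46.CY

theorem gSet_finite (L : Finset ℕ) (d N : ℕ) : (gSet L d N).Finite := by
  let F : (Σ m : Fin (N + 1), SimpleGraph (Fin m) × (Fin m → Fin (N + 1))) → ℝ := fun x =>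
    ((dcyc d x.2.1 fun v => (x.2.2 v : ℕ)).ncard : ℝ) /
      ({v | (x.2.2 v : ℕ) ≠ 0}.ncard : ℝ) ^ d
  refine (Set.finite_range F).subset ?_
  rintro r ⟨m, G, c, -, -, rfl⟩
  exact ⟨⟨m, G, c⟩, rfl⟩

private theorem gSet_eq (L : Finset ℕ) (d N : ℕ) :
    gSet L d N = {r | ∃ (m : ℕ) (_ : m ≤ N) (G : SimpleGraph (Fin m)) (c : Fin m → ℕ), Compat G c ∧
      (∀ M, IsLCycleGraph L (blow G c M)) ∧
      r = ((dcyc d G c).ncard : ℝ) / ({v | c v ≠ 0}.ncard : ℝ) ^ d} := by
  ext r
  constructor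
  · rintro ⟨m, G, c, hc, h, rfl⟩
    have hm : (m : ℕ) ≤ N := Nat.lt_succ_iff.1 m.2
    refine ⟨m, hm, G, fun v => (c v : ℕ), hc, fun M => ?_, rfl⟩
    refine valid_of_one hc ?_ h M
    refine le_trans ?_ hm
    refine (Set.ncard_le_ncard (Set.subset_univ _) (Set.toFinite _)).trans ?_
    rw [Set.ncard_univ, Nat.card_eq_fintype_card, Fintype.card_fin]
  · rintro ⟨m, hm, G, c, hc, h, rfl⟩
    obtain ⟨c', h1, h2, h3, h4, h5⟩ := recolour hc h
    refine ⟨⟨m, Nat.lt_succ_iff.2 hm⟩, G, fun v => ⟨c' v, Nat.lt_succ_iff.2 ((h1 v).trans hm)⟩,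
      h2, h3 N, ?_⟩
    change _ = ((dcyc d G c').ncard : ℝ) / ({v | c' v ≠ 0}.ncard : ℝ) ^ d
    rw [h4 d, h5]

private theorem gSet_nonempty (L : Finset ℕ) (d N : ℕ) : (gSet L d N).Nonempty := by
  refine ⟨_, ⟨0, Nat.succ_pos N⟩, ⊥, fun v => Fin.elim0 v, ?_, ?_, rfl⟩
  · intro u
    exact Fin.elim0 u
  · intro u
    exact Fin.elim0 u.1.1

theorem gSet_greatest (L : Finset ℕ) (d N : ℕ) : IsGreatest (gSet L d N) (GamN L d N) := by
  obtain ⟨a, ha, hmax⟩ := Set.exists_max_image (gSet L d N) id (gSet_finite L d N)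
    (gSet_nonempty L d N)
  have hg : IsGreatest (gSet L d N) a := ⟨ha, fun b hb => hmax b hb⟩
  have h1 : GamN L d N = sSup (gSet L d N) := by
    rw [gSet_eq]
    rfl
  rw [h1, hg.csSup_eq]
  exact hg

end H46.EF
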