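import Pool.Agent.H46.EF.Cbx

/-!
# EF.Lwx : the lower bound with explicit constants (about 100 lines)

Let `r` be the value of a valid template with `a ≤ B` vertices, `h` hubs and `p` others (if `p = 0` then `r = 0`, as `0 ^ d = 0` and division by `0`). For `n ≥ B + 1` put `q = (n - h) / p ≥ 1`: `#dcyc * q ^ d ≤ cMax L n` (as `low_nat` in CY/Fin.lean: `blow_count` with `M + 1 = q`, `card_BV`, `ncard_le_cMax`), and `q ≥ (n - h - p) / p ≥ (n - B) / p` as real numbers, so
`cMax L n ≥ r (n - B) ^ d ≥ r n ^ d (1 - d B / n)` (Bernoulli, `one_add_mul_le_pow`), and `r d B / n ≤ cB 2 ^ d d B / n ≤ 1 / m`. Finally `csSup_le` (the set contains `0`) for `GamN`.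
-/

set_option autoImplicit false

namespace H46.EF

open Pool.Agent.H3.LC H46.CY

private theorem low_nat {L : Finset ℕ} {d : ℕ} {N : ℕ} {G : SimpleGraph (Fin N)} {c : Fin N → ℕ}
    (hc : Compat G c) (hv : ∀ M, IsLCycleGraph L (blow G c M)) (q n : ℕ) (hq : 1 ≤ q)
    (hn : {v | c v = 0}.ncard + {v | c v ≠ 0}.ncard * q ≤ n) :
    (dcyc d G c).ncard * q ^ d ≤ cMax L n := by
  classical
  obtain ⟨M, rfl⟩ : ∃ M, q = M + 1 := ⟨q - 1, by omega⟩
  have h1 := blow_count hc d M
  have : Fintype (BV c M) := Fintype.ofFinite _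
  have h2 : Fintype.card (BV c M) ≤ n := by
    rw [← Nat.card_eq_fintype_card, card_BV]
    exact hn
  exact h1.trans (ncard_le_cMax h2 (hv M))

private theorem low_one {L : Finset ℕ} {l d : ℕ} (hl : 2 ≤ l) (hd : 1 ≤ d)
    (hev : ∀ x ∈ L, Even x → 2 * l ≤ x) (hmax : ∀ x ∈ L, x < (d + 1) * l) {m n B : ℕ}
    (hm : 1 ≤ m) (hB : B + 1 ≤ n) (hn : m * cB l d * 2 ^ d * d * B ≤ n) {a : ℕ} (ha : a ≤ B)
    {G : SimpleGraph (Fin a)} {c : Fin a → ℕ} (hc : Compat G c)
    (hv : ∀ M, IsLCycleGraph L (blow G c M)) :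
    ((dcyc d G c).ncard : ℝ) / ({v | c v ≠ 0}.ncard : ℝ) ^ d - 1 / m ≤
      (cMax L n : ℝ) / (n : ℝ) ^ d := by
  have hm' : (0 : ℝ) < m := by exact_mod_cast hm
  have hn' : (0 : ℝ) < n := by
    have : 0 < n := by omega
    exact_mod_cast this
  have hr := val_le hl hd hev hmax hc hv
  have hsum : {v | c v = 0}.ncard + {v | c v ≠ 0}.ncard = a := by
    have h1 := Set.ncard_add_ncard_compl {v | c v = 0}
    rw [Nat.card_eq_fintype_card, Fintype.card_fin] at h1
    exact h1
  rcases Nat.eq_zero_or_pos {v | c v ≠ 0}.ncard with hp | hp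
  · rw [hp]
    have h0 : ((0 : ℕ) : ℝ) ^ d = 0 := by
      rw [Nat.cast_zero, zero_pow (by omega)]
    rw [h0, div_zero]
    have h1 : (0 : ℝ) ≤ (cMax L n : ℝ) / (n : ℝ) ^ d := by positivity
    have h2 : (0 : ℝ) < 1 / m := by positivity
    linarith
  · set h := {v | c v = 0}.ncard with hh
    set p := {v | c v ≠ 0}.ncard with hpp
    have hp' : (0 : ℝ) < p := by exact_mod_cast hp
    set K : ℝ := ((dcyc d G c).ncard : ℝ) with hK
    have hK0 : 0 ≤ K := by positivity
    set q := (n - h) / p with hq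
    have hq1 : 1 ≤ q := by
      rw [hq, Nat.le_div_iff_mul_le hp]
      omega
    have hq2 : h + p * q ≤ n := by
      have := Nat.mul_div_le (n - h) p
      rw [← hq] at this
      omega
    have h5 := low_nat (d := d) hc hv q n hq1 hq2
    have h6 : ((n : ℝ) - B) / p ≤ q := by
      rw [div_le_iff₀ hp']
      have h7 : n - h < p * (q + 1) := by
        have := Nat.lt_mul_div_succ (n - h) hp
        rw [← hq] at this
        exact this
      have h8 : n < h + p * (q + 1) := by omega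
      have h9 : (n : ℝ) < h + p * (q + 1) := by exact_mod_cast h8
      have h10 : (h : ℝ) + p ≤ B := by
        have : h + p ≤ B := by omega
        exact_mod_cast this
      nlinarith
    have hBn : (B : ℝ) ≤ n := by
      have : B ≤ n := by omega
      exact_mod_cast this
    have h7 : 0 ≤ ((n : ℝ) - B) / p := div_nonneg (by linarith) hp'.le
    -- the lower bound
    have h8 : K / (p : ℝ) ^ d * ((n : ℝ) - B) ^ d ≤ (cMax L n : ℝ) := by
      calc K / (p : ℝ) ^ d * ((n : ℝ) - B) ^ d = K * (((n : ℝ) - B) / p) ^ d := by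
            rw [div_pow]
            ring
        _ ≤ K * (q : ℝ) ^ d := mul_le_mul_of_nonneg_left (pow_le_pow_left₀ h7 h6 d) hK0
        _ ≤ (cMax L n : ℝ) := by
            rw [hK]
            exact_mod_cast h5
    set r : ℝ := K / (p : ℝ) ^ d with hrr
    have hr0 : 0 ≤ r := by positivity
    have h9 : r * (1 - d * (B / n)) ≤ (cMax L n : ℝ) / (n : ℝ) ^ d := by
      rw [le_div_iff₀ (by positivity)]
      have hb := one_add_mul_le_pow (a := -((B : ℝ) / n)) (by
        have : (B : ℝ) / n ≤ 1 := by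
          rw [div_le_one hn']
          exact hBn
        linarith) d
      have h10 : (1 + -((B : ℝ) / n)) ^ d * (n : ℝ) ^ d = ((n : ℝ) - B) ^ d := by
        rw [← mul_pow]
        congr 1
        field_simp
        ring
      calc r * (1 - d * (B / n)) * (n : ℝ) ^ d
          = r * ((1 + d * -((B : ℝ) / n)) * (n : ℝ) ^ d) := by ring
        _ ≤ r * ((1 + -((B : ℝ) / n)) ^ d * (n : ℝ) ^ d) := by
            apply mul_le_mul_of_nonneg_left _ hr0
            exact mul_le_mul_of_nonneg_right hb (by positivity)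
        _ = r * ((n : ℝ) - B) ^ d := by rw [h10]
        _ ≤ _ := h8
    have h11 : r * (d * (B / n)) ≤ 1 / m := by
      have h12 : r * (d * (B / n)) ≤ (cB l d * 2 ^ d) * (d * (B / n)) :=
        mul_le_mul_of_nonneg_right hr (by positivity)
      refine h12.trans ?_
      rw [le_div_iff₀ hm']
      have h13 : ((m * cB l d * 2 ^ d * d * B : ℕ) : ℝ) ≤ n := by exact_mod_cast hn
      push_cast at h13
      calc (cB l d : ℝ) * 2 ^ d * (d * (B / n)) * m = (m * cB l d * 2 ^ d * d * B) / n := by ring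
        _ ≤ 1 := by
            rw [div_le_one hn']
            exact h13
    linarith

theorem lower_exp {L : Finset ℕ} {l d : ℕ} (hl : 2 ≤ l) (hd : 1 ≤ d)
    (hev : ∀ x ∈ L, Even x → 2 * l ≤ x) (hmax : ∀ x ∈ L, x < (d + 1) * l) {m n B : ℕ}
    (hm : 1 ≤ m) (hB : B + 1 ≤ n) (hn : m * cB l d * 2 ^ d * d * B ≤ n) :
    GamN L d B - 1 / m ≤ (cMax L n : ℝ) / (n : ℝ) ^ d := by
  rw [sub_le_iff_le_add]
  refine csSup_le ?_ ?_
  · refine ⟨((dcyc d (⊥ : SimpleGraph (Fin 0)) fun _ => 0).ncard : ℝ) /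
      ({v : Fin 0 | (0 : ℕ) ≠ 0}.ncard : ℝ) ^ d, 0, Nat.zero_le _, ⊥, fun _ => 0, ?_, ?_, rfl⟩
    · intro u
      exact u.elim0
    · intro M
      rw [isLCycle_iff]
      intro m f _ _
      exact (f 0).1.1.elim0
  · rintro r ⟨a, ha, G, c, hc, hv, rfl⟩
    have := low_one hl hd hev hmax hm hB hn ha hc hv
    linarith

end H46.EF
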