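import Pool.Agent.H46.EF.Upx
import Pool.Agent.H46.EF.Lwx
import Pool.Agent.H46.EF.Gnf

/-!
# EF.Fnx : the limit and its approximations (about 60 lines)

`|cMax L n / n ^ d - GamN L d (aB l d m)| ≤ 1 / m` for `n ≥ an l d m` from `upper_exp` and `lower_exp`; then let `n → ∞` (`tendsto_Gam` in CY/Fin.lean, `le_of_tendsto'`-type arguments) for `Gam`.
-/

set_option autoImplicit false

namespace H46.EF

open Pool.Agent.H3.LC H46.CY Filter Topology

variable {L : Finset ℕ} {l d : ℕ}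

theorem approx_n (hl : 2 ≤ l) (hd : 1 ≤ d) (hev : ∀ x ∈ L, Even x → 2 * l ≤ x)
    (hmax : ∀ x ∈ L, x < (d + 1) * l) {m n : ℕ} (hm : 1 ≤ m) (hn : an l d m ≤ n) :
    |(cMax L n : ℝ) / (n : ℝ) ^ d - GamN L d (aB l d m)| ≤ 1 / m := by
  have h1 := upper_exp (L := L) hl hd hev hmax hm hn
  have h2 := lower_exp (L := L) (n := n) (B := aB l d m) hl hd hev hmax hm
    (by unfold an at hn; omega) (by unfold an at hn; omega)
  rw [abs_le]
  constructor <;> linarith

theorem approx_Gam (hl : 2 ≤ l) (hd : 1 ≤ d) (hev : ∀ x ∈ L, Even x → 2 * l ≤ x)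
    (hmax : ∀ x ∈ L, x < (d + 1) * l) {m : ℕ} (hm : 1 ≤ m) :
    |Gam L d - GamN L d (aB l d m)| ≤ 1 / m := by
  have h := ((tendsto_Gam (L := L) hl hd hev hmax).sub_const (GamN L d (aB l d m))).abs
  refine le_of_tendsto h ?_
  filter_upwards [eventually_ge_atTop (an l d m)] with n hn
  exact approx_n hl hd hev hmax hm hn

end H46.EF
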