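import Pool.Agent.H46.EF.Exd
import Pool.Agent.H46.EF.Scx
import Pool.Agent.H46.EF.Ngd

/-!
# EF.Gdc : the good cycles (about 130 lines)

Take `Φ m` from `src_cyc_exp` for `3 ≤ m < (d + 1) * l`. `𝒢` is the (finite) set of the `cedges f` with `3 ≤ m < (d + 1) * l`, `IsCyc G f`, `Good c (Φ m) f`; for every `E ∈ 𝒢` choose such `(m, f)` and put `φ E i = c (Φ m f i)`. `Lists`: `φ E` is injective with values `≠ 0`, every `φ E i` is the colour of a vertex of `E` (`Φ m f i ∈ range f`), and every colour `≠ 0` of a vertex of `E` is one of them: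
otherwise `E` would meet `d + 1` colours, so `E ∈ dcyc (d + 1) G c`, against `dcyc_succ`. Every cycle of `G` which is not in `𝒢` is `cedges f` for an `f` which is not `Good`: `notgood`, union bound over `m` (see `cnt2_union` in CY/Cnt2.lean).
-/

set_option autoImplicit false

namespace H46.EF

open Pool.Agent.H3.LC H46.CY

private theorem gdc_union {α : Type} [Finite α] (S : ℕ → Set α) (N : ℕ) :
    ({E | ∃ m, m < N ∧ E ∈ S m} : Set α).ncard ≤ ∑ m ∈ Finset.range N, (S m).ncard := by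
  induction N with
  | zero =>
    have h : ({E | ∃ m, m < 0 ∧ E ∈ S m} : Set α) = ∅ := by
      ext E
      constructor
      · rintro ⟨m, hm, _⟩
        exact absurd hm (Nat.not_lt_zero m)
      · intro h
        exact h.elim
    rw [h]
    simp
  | succ N ih =>
    have h : ({E | ∃ m, m < N + 1 ∧ E ∈ S m} : Set α) ⊆ {E | ∃ m, m < N ∧ E ∈ S m} ∪ S N := by
      rintro E ⟨m, hm, hE⟩
      by_cases h : m = N
      · right
        rw [← h]
        exact hE
      · left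
        exact ⟨m, by omega, hE⟩
    calc ({E | ∃ m, m < N + 1 ∧ E ∈ S m} : Set α).ncard
        ≤ ({E | ∃ m, m < N ∧ E ∈ S m} ∪ S N : Set α).ncard := Set.ncard_le_ncard h (Set.toFinite _)
      _ ≤ ({E | ∃ m, m < N ∧ E ∈ S m} : Set α).ncard + (S N).ncard := Set.ncard_union_le _ _
      _ ≤ ∑ m ∈ Finset.range (N + 1), (S m).ncard := by
        rw [Finset.sum_range_succ]
        exact Nat.add_le_add_right ih _

private theorem gdc_lists {V : Type} [Finite V] {G : SimpleGraph V} {c : V → ℕ} {d m : ℕ}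
    {f : ZMod m → V} (hm : 3 ≤ m) (hf : IsCyc G f) (hsucc : dcyc (d + 1) G c = ∅)
    {y : Fin d → V} (hy : ∀ i, y i ∈ Set.range f) (h0 : ∀ i, c (y i) ≠ 0)
    (hinj : Function.Injective fun i => c (y i)) {φ : Fin d → ℕ} (hφ : ∀ i, φ i = c (y i)) :
    Lists G c (cedges f) φ := by
  have hE : cedges f ∈ cycles G := mem_cycles_iff.2 ⟨m, f, hm, hf, rfl⟩
  have hφ' : φ = fun i => c (y i) := funext hφ
  have hv : ∀ i, ∃ v, (∃ e ∈ cedges f, v ∈ e) ∧ c v = φ i := by
    intro i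
    obtain ⟨x, hx⟩ := hy i
    refine ⟨y i, ⟨s(f x, f (x + 1)), ⟨x, rfl⟩, ?_⟩, (hφ i).symm⟩
    rw [← hx]
    exact Sym2.mem_mk_left _ _
  refine ⟨hE, ?_, fun i => ?_, fun v hve hcv => ?_, hv⟩
  · rw [hφ']
    exact hinj
  · rw [hφ]
    exact h0 i
  · by_contra hno
    push Not at hno
    have hmem : cedges f ∈ dcyc (d + 1) G c := by
      refine ⟨hE, ?_⟩
      have hfin : {i | i ≠ 0 ∧ ∃ v, c v = i ∧ ∃ e ∈ cedges f, v ∈ e}.Finite := by
        refine (Set.finite_range c).subset ?_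
        rintro i ⟨_, u, hu, _⟩
        exact ⟨u, hu⟩
      have hsub : insert (c v) (Set.range φ) ⊆
          {i | i ≠ 0 ∧ ∃ v, c v = i ∧ ∃ e ∈ cedges f, v ∈ e} := by
        intro i hi
        rcases hi with rfl | ⟨j, rfl⟩
        · exact ⟨hcv, v, rfl, hve⟩
        · obtain ⟨u, hu1, hu2⟩ := hv j
          refine ⟨?_, u, hu2, hu1⟩
          rw [hφ]
          exact h0 j
      have hcard : (insert (c v) (Set.range φ)).ncard = d + 1 := by
        rw [Set.ncard_insert_of_notMem]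
        · rw [Set.ncard_range_of_injective, Nat.card_eq_fintype_card, Fintype.card_fin]
          rw [hφ']
          exact hinj
        · rintro ⟨j, hj⟩
          exact hno j hj
      rw [← hcard]
      exact Set.ncard_le_ncard hsub hfin
    rw [hsucc] at hmem
    exact hmem

theorem good_cycles {V : Type} [Finite V] {L : Finset ℕ} {l d D : ℕ} (hl : 2 ≤ l) (hd : 1 ≤ d)
    (hev : ∀ x ∈ L, Even x → 2 * l ≤ x) (hmax : ∀ x ∈ L, x < (d + 1) * l) {G : SimpleGraph V}
    {le : V → V → Prop} (hE : IsElim G D le) (hL : IsLCycleGraph L G) {c : V → ℕ}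
    (hc : Compat G c) (hv : ∀ M, IsLCycleGraph L (blow G c M)) {M : ℕ}
    (hM : ∀ i, i ≠ 0 → {v | c v = i}.ncard ≤ M) :
    ∃ (Φ : (m : ℕ) → (ZMod m → V) → Fin d → V) (𝒢 : Finset (Set (Sym2 V)))
      (φ : Set (Sym2 V) → Fin d → ℕ),
      (∀ m, 3 ≤ m → m < (d + 1) * l → ∀ y,
        {f : ZMod m → V | IsCyc G f ∧ Φ m f = y}.ncard ≤ cC D m) ∧
      (∀ E ∈ 𝒢, Lists G c E (φ E) ∧ ∃ m, 3 ≤ m ∧ m < (d + 1) * l ∧ ∃ f : ZMod m → V,
        IsCyc G f ∧ cedges f = E ∧ ∀ i, φ E i = c (Φ m f i)) ∧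
      (cycles G).ncard ≤ 𝒢.card +
        fB D l d * (({v | c v = 0}.ncard + M) * Nat.card V ^ (d - 1)) := by
  classical
  have hN : NoEven G l := fun m f hm hf he => hev m (isLCycle_iff.1 hL m f hm hf) he
  have hsucc := dcyc_succ hl hd hev hmax hc hv
  have h1 : ∀ m : ℕ, ∃ Φ : (ZMod m → V) → Fin d → V, 3 ≤ m → m < (d + 1) * l →
      (∀ f, IsCyc G f → ∀ i, Φ f i ∈ Set.range f) ∧
      ∀ y, {f : ZMod m → V | IsCyc G f ∧ Φ f = y}.ncard ≤ cC D m := by
    intro m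
    by_cases h : 3 ≤ m ∧ m < (d + 1) * l
    · obtain ⟨Φ, hΦ⟩ := src_cyc_exp D l d m hl h.1 hd h.2 V G le hE hN
      exact ⟨Φ, fun _ _ => hΦ⟩
    · exact ⟨fun f _ => f 0, fun a b => absurd ⟨a, b⟩ h⟩
  choose Φ hΦ using h1
  let SG : Set (Set (Sym2 V)) := {E | ∃ m, 3 ≤ m ∧ m < (d + 1) * l ∧ ∃ f : ZMod m → V,
    IsCyc G f ∧ Good c (Φ m) f ∧ cedges f = E}
  have hSG : SG.Finite := Set.toFinite _
  have h2 : ∀ E : Set (Sym2 V), ∃ φ : Fin d → ℕ, E ∈ SG → ∃ m, 3 ≤ m ∧ m < (d + 1) * l ∧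
      ∃ f : ZMod m → V, IsCyc G f ∧ Good c (Φ m) f ∧ cedges f = E ∧ ∀ i, φ i = c (Φ m f i) := by
    intro E
    by_cases h : E ∈ SG
    · obtain ⟨m, a, b, f, hf, hg, he⟩ := h
      exact ⟨fun i => c (Φ m f i), fun _ => ⟨m, a, b, f, hf, hg, he, fun _ => rfl⟩⟩
    · exact ⟨fun _ => 0, fun h' => absurd h' h⟩
  choose φ hφ using h2
  refine ⟨Φ, hSG.toFinset, φ, fun m a b => (hΦ m a b).2, ?_, ?_⟩
  · intro E hE
    rw [Set.Finite.mem_toFinset] at hE
    obtain ⟨m, a, b, f, hf, hg, he, hi⟩ := hφ E hE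
    refine ⟨?_, m, a, b, f, hf, he, hi⟩
    rw [← he]
    have hi' : ∀ i, φ (cedges f) i = c (Φ m f i) := by
      rw [he]
      exact hi
    exact gdc_lists a hf hsucc ((hΦ m a b).1 f hf) hg.1 hg.2 hi'
  · have hsub : cycles G ⊆ SG ∪ {E | ∃ m, m < (d + 1) * l ∧
        E ∈ {E | 3 ≤ m ∧ ∃ f : ZMod m → V, (IsCyc G f ∧ ¬ Good c (Φ m) f) ∧ cedges f = E}} := by
      intro E hE
      obtain ⟨m, f, h3, hf, he⟩ := mem_cycles_iff.1 hE
      have hlt : m < (d + 1) * l := hmax m (isLCycle_iff.1 hL m f h3 hf)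
      by_cases hg : Good c (Φ m) f
      · exact Or.inl ⟨m, h3, hlt, f, hf, hg, he⟩
      · exact Or.inr ⟨m, hlt, h3, f, ⟨hf, hg⟩, he⟩
    have hfin : Finite (Set (Sym2 V)) := inferInstance
    refine (Set.ncard_le_ncard hsub (Set.toFinite _)).trans ((Set.ncard_union_le _ _).trans ?_)
    rw [← Set.ncard_eq_toFinset_card SG hSG]
    refine Nat.add_le_add_left ?_ _
    refine (gdc_union _ _).trans ?_
    rw [fB, Finset.sum_mul]
    refine Finset.sum_le_sum fun m hm => ?_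
    have hlt := Finset.mem_range.1 hm
    by_cases h3 : 3 ≤ m
    · have hne0 : NeZero m := ⟨by omega⟩
      have hfn : Finite (ZMod m → V) := inferInstance
      refine le_trans ?_ (notgood h3 hd c le_rfl hM (Φ m) (hΦ m h3 hlt).2)
      have himg : {E : Set (Sym2 V) | 3 ≤ m ∧ ∃ f : ZMod m → V,
          (IsCyc G f ∧ ¬ Good c (Φ m) f) ∧ cedges f = E} ⊆
          cedges '' {f : ZMod m → V | IsCyc G f ∧ ¬ Good c (Φ m) f} := by
        rintro E ⟨_, f, hf, he⟩
        exact ⟨f, hf, he⟩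
      exact (Set.ncard_le_ncard himg (Set.toFinite _)).trans (Set.ncard_image_le (Set.toFinite _))
    · have hemp : {E : Set (Sym2 V) | 3 ≤ m ∧ ∃ f : ZMod m → V,
          (IsCyc G f ∧ ¬ Good c (Φ m) f) ∧ cedges f = E} = ∅ := by
        ext E
        constructor
        · rintro ⟨h, _⟩
          exact absurd h h3
        · intro h
          exact h.elim
      rw [hemp, Set.ncard_empty]
      exact Nat.zero_le _

end H46.EF
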