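import Pool.Agent.H46.EF.Defs
import Pool.Agent.H3.LC.Glue

/-!
# EF.Hbn : the number of the hubs needed for a sample (about 110 lines)

`U` is the set of the vertices `v` of the cyclic sequences `f` (`3 ≤ m < K`, `IsCyc G f`, `Good c (Φ m) f`) all of whose sources have colours among the `c (y j)`. For every `m < K` the sources `Φ m f` lie in the set `S` of the vertices whose colour is some `c (y j)`, `#S ≤ N * M`, so there are at most `(N * M) ^ d` values of `Φ m f`, each with at most `C m` sequences `f`,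
each with `m < K` vertices: `#U ≤ ∑ m < K, K * (C m * (N * M) ^ d)`.
-/

set_option autoImplicit false

namespace H46.EF

open Pool.Agent.H3.LC H46.CY

private theorem ncard_S {V : Type} [Fintype V] {c : V → ℕ} {N M : ℕ}
    (hM : ∀ i, i ≠ 0 → {v | c v = i}.ncard ≤ M) (y : Fin N → V) (hy : ∀ j, c (y j) ≠ 0)
    (S : Finset V) (hS : ∀ v ∈ S, ∃ j, c (y j) = c v) : S.card ≤ N * M := by
  classical
  have h1 : S ⊆ (Finset.univ : Finset (Fin N)).biUnion
      (fun j => Finset.univ.filter (fun v => c v = c (y j))) := by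
    intro v hv
    obtain ⟨j, hj⟩ := hS v hv
    exact Finset.mem_biUnion.2 ⟨j, Finset.mem_univ _, Finset.mem_filter.2 ⟨Finset.mem_univ _, hj.symm⟩⟩
  refine (Finset.card_le_card h1).trans ?_
  have h2 := Finset.card_biUnion_le_card_mul (Finset.univ : Finset (Fin N))
    (fun j => Finset.univ.filter (fun v => c v = c (y j))) M (by
      intro j _
      have h3 := hM (c (y j)) (hy j)
      rw [Set.ncard_eq_toFinset_card'] at h3
      refine le_trans (le_of_eq ?_) h3
      congr 1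
      ext v
      simp)
  simpa using h2

private theorem layer {V : Type} [Finite V] {G : SimpleGraph V} {c : V → ℕ} {d N M K : ℕ}
    (hM : ∀ i, i ≠ 0 → {v | c v = i}.ncard ≤ M) {m : ℕ} (hm : 3 ≤ m) (hmK : m < K)
    (Φ : (ZMod m → V) → Fin d → V) (C : ℕ)
    (hΦ : ∀ y, {f : ZMod m → V | IsCyc G f ∧ Φ f = y}.ncard ≤ C)
    (y : Fin N → V) (hy : ∀ j, c (y j) ≠ 0) :
    {v | ∃ f : ZMod m → V, IsCyc G f ∧
      (∀ i, ∃ j, c (y j) = c (Φ f i)) ∧ v ∈ Set.range f}.ncard ≤ K * (C * (N * M) ^ d) := by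
  classical
  haveI : NeZero m := ⟨by omega⟩
  haveI : Fintype V := Fintype.ofFinite V
  let S : Finset V := Finset.univ.filter (fun v => ∃ j, c (y j) = c v)
  have hS : S.card ≤ N * M := ncard_S hM y hy S (fun v hv => (Finset.mem_filter.1 hv).2)
  let T : Finset (Fin d → V) := Fintype.piFinset (fun _ => S)
  have hT : T.card ≤ (N * M) ^ d := by
    have : T.card = S.card ^ d := by
      change (Fintype.piFinset (fun _ : Fin d => S)).card = _
      rw [Fintype.card_piFinset]
      simp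
    rw [this]
    exact Nat.pow_le_pow_left hS d
  let F : (Fin d → V) → Finset (ZMod m → V) := fun z =>
    Finset.univ.filter (fun f => IsCyc G f ∧ Φ f = z)
  have hF : ∀ z, (F z).card ≤ C := by
    intro z
    have h3 := hΦ z
    rw [Set.ncard_eq_toFinset_card'] at h3
    refine le_trans (le_of_eq ?_) h3
    congr 1
    ext f
    simp [F]
  have hA : (T.biUnion F).card ≤ (N * M) ^ d * C :=
    (Finset.card_biUnion_le_card_mul T F C (fun z _ => hF z)).trans (Nat.mul_le_mul_right _ hT)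
  have hB : ((T.biUnion F).biUnion (fun f => Finset.univ.image f)).card ≤ (N * M) ^ d * C * K := by
    refine (Finset.card_biUnion_le_card_mul _ _ K (fun f _ => ?_)).trans (Nat.mul_le_mul_right _ hA)
    refine Finset.card_image_le.trans ?_
    rw [Finset.card_univ, ZMod.card]
    exact hmK.le
  have hsub : {v | ∃ f : ZMod m → V, IsCyc G f ∧
      (∀ i, ∃ j, c (y j) = c (Φ f i)) ∧ v ∈ Set.range f} ⊆
      (((T.biUnion F).biUnion (fun f => Finset.univ.image f) : Finset V) : Set V) := by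
    rintro v ⟨f, hf, hf2, x, rfl⟩
    rw [Finset.mem_coe, Finset.mem_biUnion]
    refine ⟨f, Finset.mem_biUnion.2 ⟨Φ f, ?_, ?_⟩, Finset.mem_image.2 ⟨x, Finset.mem_univ _, rfl⟩⟩
    · exact Fintype.mem_piFinset.2 (fun i => Finset.mem_filter.2 ⟨Finset.mem_univ _, hf2 i⟩)
    · exact Finset.mem_filter.2 ⟨Finset.mem_univ _, hf, rfl⟩
  refine (Set.ncard_le_ncard hsub (Finset.finite_toSet _)).trans ?_
  rw [Set.ncard_coe_finset]
  refine hB.trans (le_of_eq ?_)
  ring

theorem hub_bound {V : Type} [Finite V] {G : SimpleGraph V} {c : V → ℕ} {d N M K : ℕ}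
    (hd : 1 ≤ d) (hM : ∀ i, i ≠ 0 → {v | c v = i}.ncard ≤ M)
    (Φ : (m : ℕ) → (ZMod m → V) → Fin d → V) (C : ℕ → ℕ)
    (hΦ : ∀ m, 3 ≤ m → m < K → ∀ y, {f : ZMod m → V | IsCyc G f ∧ Φ m f = y}.ncard ≤ C m)
    (y : Fin N → V) (hy : ∀ j, c (y j) ≠ 0) :
    {v | ∃ m, 3 ≤ m ∧ m < K ∧ ∃ f : ZMod m → V, IsCyc G f ∧
      (∀ i, ∃ j, c (y j) = c (Φ m f i)) ∧ v ∈ Set.range f}.ncard ≤
      K * ∑ m ∈ Finset.range K, C m * (N * M) ^ d := by
  classical
  haveI : Fintype V := Fintype.ofFinite V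
  let W : ℕ → Finset V := fun m => if 3 ≤ m ∧ m < K then
    Finset.univ.filter (fun v => ∃ f : ZMod m → V, IsCyc G f ∧
      (∀ i, ∃ j, c (y j) = c (Φ m f i)) ∧ v ∈ Set.range f) else ∅
  have hW : ∀ m, (W m).card ≤ K * (C m * (N * M) ^ d) := by
    intro m
    by_cases h : 3 ≤ m ∧ m < K
    · have h1 := layer (G := G) (c := c) hM h.1 h.2 (Φ m) (C m) (hΦ m h.1 h.2) y hy
      rw [Set.ncard_eq_toFinset_card'] at h1
      refine le_trans (le_of_eq ?_) h1
      simp only [W, if_pos h]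
      congr 1
      ext v
      simp
    · simp only [W, if_neg h]
      simp
  have hsub : {v | ∃ m, 3 ≤ m ∧ m < K ∧ ∃ f : ZMod m → V, IsCyc G f ∧
      (∀ i, ∃ j, c (y j) = c (Φ m f i)) ∧ v ∈ Set.range f} ⊆
      (((Finset.range K).biUnion W : Finset V) : Set V) := by
    rintro v ⟨m, h3, hK, hv⟩
    rw [Finset.mem_coe, Finset.mem_biUnion]
    refine ⟨m, Finset.mem_range.2 hK, ?_⟩
    simp only [W, if_pos (And.intro h3 hK)]
    exact Finset.mem_filter.2 ⟨Finset.mem_univ _, hv⟩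
  refine (Set.ncard_le_ncard hsub (Finset.finite_toSet _)).trans ?_
  rw [Set.ncard_coe_finset]
  refine Finset.card_biUnion_le.trans ?_
  rw [Finset.mul_sum]
  exact Finset.sum_le_sum (fun m _ => hW m)

end H46.EF
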