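import Pool.Agent.H46.EF.Smd

/-!
# EF.Lft : lifting a cycle to the sample (about 130 lines)

`E = cedges f`, `f : ZMod m → V`, `3 ≤ m`, `IsCyc G f` (`mem_cycles_iff`); the vertices of `E` are the `f x`. Define `f' x = (f x, (0, 0))` if `c (f x) = 0` (in `H` by `hH`), and `f' x = (f x, (J i, ρ i))` for the `i` with `φ i = c (f x)` otherwise (unique). It is injective because `f` is; adjacency in `sgr`: `G.Adj` of the first coordinates, and if both colours are `≠ 0` then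
`c (f x) = c (f (x + 1))` by `Compat`, so the same `i`. `E' = cedges f'`: it meets the `d` different colours `Nat.pair (J i) (ρ i) + 1` (`J` is injective because `c (y (J i)) = φ i` and `φ` is injective).
-/

set_option autoImplicit false

namespace H46.EF

open Pool.Agent.H3.LC H46.CY

open Classical in
/-- the second coordinate -/
private noncomputable def gg {V : Type} (c : V → ℕ) {d N : ℕ} (φ : Fin d → ℕ) (J : Fin d → Fin N) (ρ : Fin d → ℕ) (v : V) :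
    ℕ × ℕ :=
  if h : ∃ i, φ i = c v then ((J h.choose : ℕ), ρ h.choose) else (0, 0)

private theorem gg_eq {V : Type} {c : V → ℕ} {d N : ℕ} {φ : Fin d → ℕ} (hφ : Function.Injective φ) (J : Fin d → Fin N)
    (ρ : Fin d → ℕ) {v : V} {i : Fin d} (h : φ i = c v) : gg c φ J ρ v = ((J i : ℕ), ρ i) := by
  have hex : ∃ i, φ i = c v := ⟨i, h⟩
  unfold gg
  rw [dif_pos hex]
  have h1 : hex.choose = i := hφ (hex.choose_spec.trans h.symm)
  rw [h1]

private theorem gg_zero {V : Type} {c : V → ℕ} {d N : ℕ} {φ : Fin d → ℕ} (h0 : ∀ i, φ i ≠ 0) (J : Fin d → Fin N)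
    (ρ : Fin d → ℕ) {v : V} (h : c v = 0) : gg c φ J ρ v = (0, 0) := by
  unfold gg
  rw [dif_neg]
  rintro ⟨i, hi⟩
  exact h0 i (hi.trans h)

theorem lift_cycle {V : Type} [Finite V] {G : SimpleGraph V} {c : V → ℕ} (hc : Compat G c)
    {d N F : ℕ} {y : Fin N → V} {H : Set V} {E : Set (Sym2 V)} {φ : Fin d → ℕ}
    (hE : Lists G c E φ) (hH : ∀ v, (∃ e ∈ E, v ∈ e) → c v = 0 → v ∈ H)
    (J : Fin d → Fin N) (hJ : ∀ i, c (y (J i)) = φ i) (ρ : Fin d → ℕ)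
    (hρ : ∀ i, ρ i * sz c (φ i) < F) :
    ∃ E' ∈ dcyc d (sgr G c N F y H) (scol c N F y H),
      Sym2.map (fun w : SV c N F y H => w.1.1) '' E' = E ∧
      ∀ i, ∀ w : SV c N F y H, (∃ e ∈ E', w ∈ e) → c w.1.1 = φ i → w.1.2 = ((J i : ℕ), ρ i) := by
  classical
  obtain ⟨hcyc, hφ, hφ0, hall, hatt⟩ := hE
  obtain ⟨m, f, hm, hf, rfl⟩ := mem_cycles_iff.1 hcyc
  have hme : ∀ x, ∃ e ∈ cedges f, f x ∈ e := fun x => ⟨s(f x, f (x + 1)), ⟨x, rfl⟩, Sym2.mem_mk_left _ _⟩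
  have hmem : ∀ x, (c (f x) = 0 ∧ f x ∈ H ∧ gg c φ J ρ (f x) = (0, 0)) ∨
      (c (f x) ≠ 0 ∧ (∃ h : (gg c φ J ρ (f x)).1 < N, c (f x) = c (y ⟨(gg c φ J ρ (f x)).1, h⟩)) ∧
        (gg c φ J ρ (f x)).2 * sz c (c (f x)) < F) := by
    intro x
    by_cases h : c (f x) = 0
    · exact Or.inl ⟨h, hH _ (hme x) h, gg_zero hφ0 J ρ h⟩
    · obtain ⟨i, hi⟩ := hall _ (hme x) h
      refine Or.inr ⟨h, ?_, ?_⟩
      · rw [gg_eq hφ J ρ hi]
        exact ⟨(J i).2, by rw [← hi, ← hJ i]⟩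
      · rw [gg_eq hφ J ρ hi, ← hi]
        exact hρ i
  let f' : ZMod m → SV c N F y H := fun x => ⟨(f x, gg c φ J ρ (f x)), hmem x⟩
  have hf'1 : ∀ x, (f' x).1.1 = f x := fun x => rfl
  have hf'2 : ∀ x, (f' x).1.2 = gg c φ J ρ (f x) := fun x => rfl
  have hinj : Function.Injective f' := fun x x' h => hf.1 (congrArg (fun w : SV c N F y H => w.1.1) h)
  have hIs : IsCyc (sgr G c N F y H) f' := by
    refine ⟨hinj, fun x => ⟨hf.2 x, fun h1 h2 => ?_⟩⟩
    have h3 : c (f x) ≠ 0 := fun h => h1 (by unfold scol; rw [if_pos (by rw [hf'1]; exact h)])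
    have h4 : c (f (x + 1)) ≠ 0 := fun h => h2 (by unfold scol; rw [if_pos (by rw [hf'1]; exact h)])
    have h5 : c (f x) = c (f (x + 1)) := hc _ _ (hf.2 x) h3 h4
    obtain ⟨i, hi⟩ := hall _ (hme x) h3
    unfold scol
    rw [if_neg (by rw [hf'1]; exact h3), if_neg (by rw [hf'1]; exact h4), hf'2, hf'2, gg_eq hφ J ρ hi,
      gg_eq hφ J ρ (hi.trans h5)]
  have hE' : cedges f' ∈ cycles (sgr G c N F y H) := mem_cycles_iff.2 ⟨m, f', hm, hIs, rfl⟩
  have hvert : ∀ v, (∃ e ∈ cedges f, v ∈ e) → ∃ x, f x = v := by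
    rintro v ⟨e, ⟨x, rfl⟩, hv⟩
    rcases Sym2.mem_iff.1 hv with h | h
    · exact ⟨x, h.symm⟩
    · exact ⟨x + 1, h.symm⟩
  have hJinj : Function.Injective J := fun i j h => hφ (by rw [← hJ i, ← hJ j, h])
  refine ⟨cedges f', ⟨hE', ?_⟩, ?_, ?_⟩
  · let k : Fin d → ℕ := fun i => Nat.pair (J i) (ρ i) + 1
    have hk : Function.Injective k := by
      intro i j h
      have h1 : Nat.pair (J i) (ρ i) = Nat.pair (J j) (ρ j) := Nat.succ_injective h
      exact hJinj (Fin.ext (Nat.pair_eq_pair.1 h1).1)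
    have hsub : ((Finset.univ.image k : Finset ℕ) : Set ℕ) ⊆
        {i | i ≠ 0 ∧ ∃ v, scol c N F y H v = i ∧ ∃ e ∈ cedges f', v ∈ e} := by
      intro j hj
      obtain ⟨i, -, rfl⟩ := Finset.mem_image.1 (Finset.mem_coe.1 hj)
      obtain ⟨v, hv, hvi⟩ := hatt i
      obtain ⟨x, rfl⟩ := hvert v hv
      refine ⟨Nat.succ_ne_zero _, f' x, ?_, s(f' x, f' (x + 1)), ⟨x, rfl⟩, Sym2.mem_mk_left _ _⟩
      unfold scol
      rw [if_neg (by rw [hf'1, hvi]; exact hφ0 i), hf'2, gg_eq hφ J ρ hvi.symm]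
    have hfin : {i | i ≠ 0 ∧ ∃ v, scol c N F y H v = i ∧ ∃ e ∈ cedges f', v ∈ e}.Finite := by
      refine (Set.finite_range (scol c N F y H)).subset ?_
      rintro i ⟨-, v, hv, -⟩
      exact ⟨v, hv⟩
    calc d = (Finset.univ.image k).card := by
          rw [Finset.card_image_of_injective _ hk, Finset.card_univ, Fintype.card_fin]
      _ = ((Finset.univ.image k : Finset ℕ) : Set ℕ).ncard := (Set.ncard_coe_finset _).symm
      _ ≤ _ := Set.ncard_le_ncard hsub hfin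
  · ext e
    constructor
    · rintro ⟨_, ⟨x, rfl⟩, rfl⟩
      exact ⟨x, rfl⟩
    · rintro ⟨x, rfl⟩
      exact ⟨s(f' x, f' (x + 1)), ⟨x, rfl⟩, rfl⟩
  · rintro i w ⟨_, ⟨x, rfl⟩, hw⟩ hwi
    rcases Sym2.mem_iff.1 hw with h | h
    · rw [h] at hwi ⊢
      rw [hf'2]
      exact gg_eq hφ J ρ hwi.symm
    · rw [h] at hwi ⊢
      rw [hf'2]
      exact gg_eq hφ J ρ hwi.symm

end H46.EF
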