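import Pool.Agent.H46.EF.Defs
import Pool.Agent.H3.LC.Glue

/-!
# EF.Pul : pulled back templates are valid (about 90 lines)

`pul_valid`: by `isLCycle_iff` let `f : ZMod m → BV c' M`, `3 ≤ m`, `IsCyc (blow (pul G π c') c' M) f`. Let `K` bound all `c' w` (`W` is finite), `M' = (K + 1) * (M + 1)`. Map `(w, i)` to `(π w, c' w * (M + 1) + i)`, which is `≤ M'`; if `c (π w) = 0` then `c' w = 0` (`h0`), so `i = 0` and the second coordinate is `0`. The map is injective
(equal second coordinates: equal `c' w` and equal `i`, since `i < M + 1`; then `hinj`), and it preserves adjacency: both colours `≠ 0` implies `c' w = c' w'` and `i = i'`. So the composition is a cyclic sequence of `blow G c M'` of the same length `m`.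
-/

set_option autoImplicit false

namespace H46.EF

open Pool.Agent.H3.LC H46.CY

theorem pul_compat {V W : Type} (G : SimpleGraph V) (π : W → V) (c' : W → ℕ) :
    Compat (pul G π c') c' := by
  intro u v h hu hv
  exact h.2 hu hv

theorem pul_valid {V W : Type} [Finite W] {L : Finset ℕ} {G : SimpleGraph V} {c : V → ℕ}
    (hv : ∀ M, IsLCycleGraph L (blow G c M)) {π : W → V} {c' : W → ℕ}
    (h0 : ∀ w, c' w = 0 ↔ c (π w) = 0)
    (hinj : ∀ w w', c' w = c' w' → π w = π w' → w = w') (M : ℕ) :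
    IsLCycleGraph L (blow (pul G π c') c' M) := by
  rw [isLCycle_iff]
  intro m f hm hf
  obtain ⟨K, hK⟩ := (Set.finite_range c').bddAbove
  have hK' : ∀ w, c' w ≤ K := fun w => hK ⟨w, rfl⟩
  have hlt : ∀ x : BV c' M, c' x.1.1 * (M + 1) + (x.1.2 : ℕ) < (K + 1) * (M + 1) + 1 := by
    intro x
    have h1 := Nat.mul_le_mul_right (M + 1) (hK' x.1.1)
    have h2 := x.1.2.isLt
    have h3 : (K + 1) * (M + 1) = K * (M + 1) + (M + 1) := by ring
    omega
  let Ψ : BV c' M → BV c ((K + 1) * (M + 1)) := fun x =>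
    ⟨(π x.1.1, ⟨c' x.1.1 * (M + 1) + (x.1.2 : ℕ), hlt x⟩), by
      intro h
      have h1 : c' x.1.1 = 0 := (h0 _).2 h
      have h2 := x.2 h1
      apply Fin.ext
      simp [h1, h2]⟩
  have hdiv : ∀ x : BV c' M, (c' x.1.1 * (M + 1) + (x.1.2 : ℕ)) / (M + 1) = c' x.1.1 := by
    intro x
    rw [Nat.mul_comm, Nat.mul_add_div (Nat.succ_pos M), Nat.div_eq_of_lt x.1.2.isLt, Nat.add_zero]
  have hmod : ∀ x : BV c' M, (c' x.1.1 * (M + 1) + (x.1.2 : ℕ)) % (M + 1) = (x.1.2 : ℕ) := by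
    intro x
    rw [Nat.mul_comm, Nat.mul_add_mod, Nat.mod_eq_of_lt x.1.2.isLt]
  have hΨ : Function.Injective Ψ := by
    intro x y h
    have h1 : π x.1.1 = π y.1.1 := congrArg (fun z => z.1.1) h
    have h2 : c' x.1.1 * (M + 1) + (x.1.2 : ℕ) = c' y.1.1 * (M + 1) + (y.1.2 : ℕ) :=
      congrArg (fun z => (z.1.2 : ℕ)) h
    have h3 : c' x.1.1 = c' y.1.1 := by rw [← hdiv x, ← hdiv y, h2]
    have h4 : (x.1.2 : ℕ) = (y.1.2 : ℕ) := by rw [← hmod x, ← hmod y, h2]
    apply Subtype.ext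
    exact Prod.ext (hinj _ _ h3 h1) (Fin.ext h4)
  have hadj : ∀ x y : BV c' M, (blow (pul G π c') c' M).Adj x y →
      (blow G c ((K + 1) * (M + 1))).Adj (Ψ x) (Ψ y) := by
    intro x y h
    refine ⟨h.1.1, ?_⟩
    intro h1 h2
    have h3 : c' x.1.1 ≠ 0 := fun h4 => h1 ((h0 _).1 h4)
    have h5 : c' y.1.1 ≠ 0 := fun h4 => h2 ((h0 _).1 h4)
    have h6 := h.1.2 h3 h5
    have h7 := h.2 h3 h5
    apply Fin.ext
    change c' x.1.1 * (M + 1) + (x.1.2 : ℕ) = c' y.1.1 * (M + 1) + (y.1.2 : ℕ)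
    rw [h6, h7]
  refine (isLCycle_iff.1 (hv ((K + 1) * (M + 1)))) m (Ψ ∘ f) hm ?_
  exact ⟨hΨ.comp hf.1, fun i => hadj _ _ (hf.2 i)⟩

end H46.EF
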