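import Pool.Agent.H46.EF.Defs
import Pool.Agent.H46.CY.Short

/-!
# EF.Shx : explicit form of `short_paths` (copy of CY/Short.lean, about 130 lines)

`one_le_cS`, `cS_mono`: from the definition (`monotone_nat_of_le_succ`; for `D = 0` all values are `1`, for `D ≥ 1` use `cS D t ≤ ((t + 1) * cS D t) * ((t + 1) * cS D t)`). `short_exp`: copy the proof of `H46.CY.short_paths` (`Pool/Agent/H46/CY/Short.lean`, with its private lemmas) with `C t' = cS D t'`:
for `t = u + 1` the sum `B` is replaced by `(u + 1) * cS D u`, which bounds `cS D t'` for all `t' ≤ u`; the case `t = 0` is trivial (there are no such lists).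
-/

set_option autoImplicit false

namespace H46.EF

open Pool.Agent.H3.LC H46.CY

private theorem Shx_fin {V : Type} [Finite V] (G : SimpleGraph V) (a b : V) (t : ℕ) :
    {s : List V | PI G a b s ∧ s.length + 1 = t}.Finite :=
  (List.finite_length_eq V (t - 1)).subset fun s hs => by
    have := hs.2
    show s.length = t - 1
    omega

/-- a finite set of pairwise comparable elements has at most `D` members -/
private theorem Shx_chain {V : Type} [Finite V] {G : SimpleGraph V} {D : ℕ} {le : V → V → Prop}
    (h : IsElim G D le) (Q : Finset V) (hQ : ∀ r ∈ Q, ∀ r' ∈ Q, le r r' ∨ le r' r) :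
    Q.card ≤ D := by
  classical
  rcases Q.eq_empty_or_nonempty with h0 | h0
  · rw [h0, Finset.card_empty]
    exact Nat.zero_le D
  · have key : ∀ Q : Finset V, Q.Nonempty → (∀ r ∈ Q, ∀ r' ∈ Q, le r r' ∨ le r' r) →
        ∃ q ∈ Q, ∀ r ∈ Q, le r q := by
      intro Q
      induction Q using Finset.induction_on with
      | empty => exact fun h => absurd h Finset.not_nonempty_empty
      | insert x Q hx ih =>
        intro _ hc
        rcases Q.eq_empty_or_nonempty with h1 | h1
        · refine ⟨x, Finset.mem_insert_self _ _, ?_⟩
          intro r hr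
          rw [h1, Finset.mem_insert] at hr
          rcases hr with rfl | hr
          · exact h.refl _
          · exact absurd hr (Finset.notMem_empty _)
        · obtain ⟨q, hq, hq'⟩ := ih h1 fun r hr r' hr' =>
            hc r (Finset.mem_insert_of_mem hr) r' (Finset.mem_insert_of_mem hr')
          rcases hc x (Finset.mem_insert_self _ _) q (Finset.mem_insert_of_mem hq) with h2 | h2
          · refine ⟨q, Finset.mem_insert_of_mem hq, ?_⟩
            intro r hr
            rcases Finset.mem_insert.1 hr with rfl | hr
            · exact h2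
            · exact hq' r hr
          · refine ⟨x, Finset.mem_insert_self _ _, ?_⟩
            intro r hr
            rcases Finset.mem_insert.1 hr with rfl | hr
            · exact h.refl _
            · exact h.trans _ _ _ (hq' r hr) h2
    obtain ⟨q, _, hq'⟩ := key Q h0 hQ
    have h1 : (Q : Set V).encard ≤ {u | le u q}.encard :=
      Set.encard_le_encard fun r hr => hq' r hr
    have h2 := h1.trans (h.height q)
    rw [Set.encard_coe_eq_coe_finsetCard] at h2
    exact_mod_cast h2

theorem one_le_cS (D t : ℕ) : 1 ≤ cS D t := by
  cases t with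
  | zero => exact le_rfl
  | succ t => exact Nat.le_add_right _ _

theorem cS_mono (D : ℕ) : Monotone (cS D) := by
  refine monotone_nat_of_le_succ fun t => ?_
  rcases Nat.eq_zero_or_pos D with rfl | hD
  · cases t with
    | zero => exact one_le_cS 0 1
    | succ t =>
      show 1 + 0 * _ ≤ 1 + 0 * _
      rw [Nat.zero_mul, Nat.zero_mul]
  · have h0 := one_le_cS D t
    have h1 : cS D t ≤ (t + 1) * cS D t := Nat.le_mul_of_pos_left _ (Nat.succ_pos t)
    have h2 : (t + 1) * cS D t ≤ ((t + 1) * cS D t) * ((t + 1) * cS D t) :=
      Nat.le_mul_of_pos_left _ (Nat.mul_pos (Nat.succ_pos t) h0)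
    have h3 : ((t + 1) * cS D t) * ((t + 1) * cS D t) ≤
        (t + 1) * (((t + 1) * cS D t) * ((t + 1) * cS D t)) := Nat.le_mul_of_pos_left _ (Nat.succ_pos t)
    have h4 : (t + 1) * (((t + 1) * cS D t) * ((t + 1) * cS D t)) ≤
        D * ((t + 1) * (((t + 1) * cS D t) * ((t + 1) * cS D t))) := Nat.le_mul_of_pos_left _ hD
    exact (h1.trans (h2.trans (h3.trans h4))).trans (Nat.le_add_left _ _)

theorem short_exp (D l t : ℕ) (ht : t < l) (V : Type) [Finite V] (G : SimpleGraph V)
    (le : V → V → Prop) (hE : IsElim G D le) (hN : NoEven G l) (a b : V) (hab : a ≠ b) :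
    {s : List V | PI G a b s ∧ s.length + 1 = t}.ncard ≤ cS D t := by
  classical
  have aux : ∀ t : ℕ, t < l → ∀ a b : V, a ≠ b →
      {s : List V | PI G a b s ∧ s.length + 1 = t}.ncard ≤ cS D t := by
    intro t
    induction t using Nat.strong_induction_on with
    | _ t ih =>
    intro ht a b hab
    by_cases ht2 : t < 2
    · -- at most the empty list
      have hsub : {s : List V | PI G a b s ∧ s.length + 1 = t} ⊆ {[]} := by
        rintro s ⟨_, hs⟩
        exact List.length_eq_zero_iff.1 (by omega)
      have := Set.ncard_le_ncard hsub (Set.finite_singleton _)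
      rw [Set.ncard_singleton] at this
      exact this.trans (one_le_cS D t)
    · obtain ⟨u, hu⟩ : ∃ u, t = u + 1 := ⟨t - 1, by omega⟩
      obtain ⟨B, hB⟩ : ∃ B, B = (u + 1) * cS D u := ⟨_, rfl⟩
      have hCB : ∀ t' < t, cS D t' ≤ B := by
        intro t' h
        rw [hB]
        exact (cS_mono D (by omega : t' ≤ u)).trans (Nat.le_mul_of_pos_left _ (Nat.succ_pos u))
      have hfinal : 1 + D * (t * (B * B)) ≤ cS D t := by
        rw [hB, hu]
        exact le_rfl
      refine le_trans ?_ hfinal
      -- the smallest members
      have hmin : ∀ s : List V, PI G a b s → s.length + 1 = t → ∃ r ∈ s, ∀ x ∈ s, le r x := by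
        intro s hs hl
        refine exists_min_list hE s ?_ ?_
        · rintro rfl
          simp only [List.length_nil] at hl
          omega
        · exact List.IsChain.left_of_append (l₁ := s) (l₂ := [b]) hs.1.tail
      obtain ⟨Q, hQ⟩ : ∃ Q : Finset V, ∀ r, r ∈ Q ↔ ∃ s, PI G a b s ∧ s.length + 1 = t ∧ r ∈ s ∧
          ∀ x ∈ s, le r x := by
        have := Fintype.ofFinite V
        exact ⟨Finset.univ.filter fun r => ∃ s, PI G a b s ∧ s.length + 1 = t ∧ r ∈ s ∧
          ∀ x ∈ s, le r x, by simp⟩
      have hQD : Q.card ≤ D := by
        refine Shx_chain hE Q ?_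
        intro r hr r' hr'
        obtain ⟨s, hs, hl, _, hrs⟩ := (hQ r).1 hr
        obtain ⟨s', hs', hl', _, hrs'⟩ := (hQ r').1 hr'
        by_cases hd : ∀ x ∈ s, x ∉ s'
        · exfalso
          obtain ⟨f, hf⟩ := cyc_of_two hab hs hs' hd (by omega)
          have := hN _ f (by omega) hf ⟨t, by omega⟩
          omega
        · push Not at hd
          obtain ⟨x, hx, hx'⟩ := hd
          exact hE.chain r r' x (hrs x hx) (hrs' x hx')
      have hfin := Shx_fin G a b t
      rw [Set.ncard_eq_toFinset_card _ hfin]
      have hsub : hfin.toFinset ⊆ Q.biUnion fun r => (Finset.range t).biUnion fun i =>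
          Finset.image₂ (fun s1 s2 => s1 ++ r :: s2) (if r = a then ∅ else
            (Shx_fin G a r i).toFinset) (if r = b then ∅ else
            (Shx_fin G r b (t - i)).toFinset) := by
        intro s hs
        rw [Set.Finite.mem_toFinset] at hs
        obtain ⟨hs, hl⟩ := hs
        obtain ⟨r, hr, hrx⟩ := hmin s hs hl
        obtain ⟨s1, s2, rfl⟩ := List.append_of_mem hr
        obtain ⟨h1, h2⟩ := pi_split hs
        have hra : r ≠ a := by
          rintro rfl
          exact hs.2.2.1 hr
        have hrb : r ≠ b := by
          rintro rfl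
          exact hs.2.2.2 hr
        simp only [List.length_append, List.length_cons] at hl
        rw [Finset.mem_biUnion]
        refine ⟨r, (hQ r).2 ⟨_, hs, by simpa using hl, hr, hrx⟩, ?_⟩
        rw [Finset.mem_biUnion]
        refine ⟨s1.length + 1, Finset.mem_range.2 (by omega), ?_⟩
        rw [Finset.mem_image₂]
        refine ⟨s1, ?_, s2, ?_, rfl⟩
        · rw [if_neg hra, Set.Finite.mem_toFinset]
          exact ⟨h1, rfl⟩
        · rw [if_neg hrb, Set.Finite.mem_toFinset]
          exact ⟨h2, by omega⟩
      refine (Finset.card_le_card hsub).trans ?_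
      refine (Finset.card_biUnion_le_card_mul Q _ (t * (B * B)) ?_).trans ?_
      · intro r _
        refine (Finset.card_biUnion_le_card_mul (Finset.range t) _ (B * B) ?_).trans ?_
        · intro i hi
          rw [Finset.mem_range] at hi
          refine (Finset.card_image₂_le _ _ _).trans ?_
          by_cases hra : r = a
          · simp [hra]
          by_cases hrb : r = b
          · simp [hrb]
          rw [if_neg hra, if_neg hrb]
          rcases Nat.eq_zero_or_pos i with h0 | h0
          · have : (Shx_fin G a r i).toFinset = ∅ := by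
              rw [Finset.eq_empty_iff_forall_notMem]
              intro s hs
              rw [Set.Finite.mem_toFinset] at hs
              have := hs.2
              omega
            rw [this, Finset.card_empty, Nat.zero_mul]
            exact Nat.zero_le _
          · have h1 := ih i hi (by omega) a r (fun h => hra h.symm)
            have h2 := ih (t - i) (by omega) (by omega) r b hrb
            rw [Set.ncard_eq_toFinset_card _ (Shx_fin G a r i)] at h1
            rw [Set.ncard_eq_toFinset_card _ (Shx_fin G r b (t - i))] at h2
            exact Nat.mul_le_mul (h1.trans (hCB i hi)) (h2.trans (hCB _ (by omega)))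
        · rw [Finset.card_range]
      · have := Nat.mul_le_mul_right (t * (B * B)) hQD
        omega
  exact aux t ht a b hab

end H46.EF
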