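import Pool.Agent.H46.EF.Pul

/-!
# EF.Smd : the vertices of a sample (about 120 lines)

Here `sz c i ∣ F` and `1 ≤ F` are only needed for the pieces `i = c (y j)`; all hypotheses are in the form `∀ j, sz c (c (y j)) ∣ F`. `SV c N F y H` is finite: the second coordinate is `< N` or `0`, the third is `< F` or `0` (`sz ≥ 1` for a colour that occurs). `scol = 0` iff `c w.1.1 = 0`; `scol w = scol w'` and `w.1.1 = w'.1.1` imply `w = w'`
(`Nat.pair_eq_pair`; for hubs `w.1.2 = (0, 0)`). `card_SV`: hubs: `{v ∈ H | c v = 0}`; the others: for every `j < N` the pairs `(v, r)` with `c v = c (y j)`, `r * s < F`, `s = sz c (c (y j))`: `s` values of `v` and `F / s` values of `r` (`r * s < F` iff `r < F / s` as `s ∣ F`, `Nat.lt_div_iff_mul_lt'` or similar), together `N * F`.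
-/

set_option autoImplicit false

namespace H46.EF

open Pool.Agent.H3.LC H46.CY

variable {V : Type} [Finite V] {c : V → ℕ} {N F : ℕ} {y : Fin N → V} {H : Set V}

private theorem sz_pos (v : V) : 0 < sz c (c v) :=
  (Set.ncard_pos (Set.toFinite {u | c u = c v})).2 ⟨v, rfl⟩

instance SV_finite : Finite (SV c N F y H) := by
  have key : ∀ w : SV c N F y H, w.1.2.1 < N + 1 ∧ w.1.2.2 < F + 1 := by
    rintro ⟨w, hw⟩
    rcases hw with ⟨_, _, h⟩ | ⟨_, ⟨h, _⟩, h2⟩
    · simp only [h]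
      exact ⟨Nat.succ_pos N, Nat.succ_pos F⟩
    · refine ⟨Nat.lt_succ_of_lt h, ?_⟩
      have h3 : w.2.2 ≤ w.2.2 * sz c (c w.1) := Nat.le_mul_of_pos_right _ (sz_pos w.1)
      show w.2.2 < F + 1
      omega
  refine Finite.of_injective
    (fun w : SV c N F y H => ((w.1.1, (⟨w.1.2.1, (key w).1⟩ : Fin (N + 1)),
      (⟨w.1.2.2, (key w).2⟩ : Fin (F + 1))) : V × Fin (N + 1) × Fin (F + 1))) ?_
  intro w w' h
  simp only [Prod.mk.injEq, Fin.mk.injEq] at h
  exact Subtype.ext (Prod.ext h.1 (Prod.ext h.2.1 h.2.2))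

theorem scol_zero (w : SV c N F y H) : scol c N F y H w = 0 ↔ c w.1.1 = 0 := by
  unfold scol
  split_ifs with h
  · simp [h]
  · simp [h]

theorem scol_inj (w w' : SV c N F y H) (h : scol c N F y H w = scol c N F y H w')
    (h1 : w.1.1 = w'.1.1) : w = w' := by
  by_cases h0 : c w.1.1 = 0
  · have h0' : c w'.1.1 = 0 := by rw [← h1]; exact h0
    have e : ∀ u : SV c N F y H, c u.1.1 = 0 → u.1.2 = (0, 0) := by
      intro u hu
      rcases u.2 with h2 | h2
      · exact h2.2.2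
      · exact absurd hu h2.1
    exact Subtype.ext (Prod.ext h1 ((e w h0).trans (e w' h0').symm))
  · have h0' : ¬ c w'.1.1 = 0 := by rw [← h1]; exact h0
    unfold scol at h
    rw [if_neg h0, if_neg h0'] at h
    have h2 := Nat.pair_eq_pair.1 (Nat.succ_injective h)
    exact Subtype.ext (Prod.ext h1 (Prod.ext h2.1 h2.2))

private theorem snd_part (w : SV c N F y H) (h : scol c N F y H w ≠ 0) :
    (∃ h : w.1.2.1 < N, c w.1.1 = c (y ⟨w.1.2.1, h⟩)) ∧ w.1.2.2 * sz c (c w.1.1) < F := by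
  have h0 : c w.1.1 ≠ 0 := fun e => h ((scol_zero w).2 e)
  rcases w.2 with h2 | h2
  · exact absurd h2.1 h0
  · exact h2.2

private def eqv (hy : ∀ j, c (y j) ≠ 0) (hs : ∀ j, sz c (c (y j)) ∣ F) :
    {w : SV c N F y H // scol c N F y H w ≠ 0} ≃
      Σ j : Fin N, ({v // c v = c (y j)} × Fin (F / sz c (c (y j)))) where
  toFun w := ⟨⟨w.1.1.2.1, (snd_part w.1 w.2).1.1⟩, ⟨w.1.1.1, (snd_part w.1 w.2).1.2⟩,
    ⟨w.1.1.2.2, by
      have h1 := (snd_part w.1 w.2).1.2
      have h2 := (snd_part w.1 w.2).2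
      rw [h1] at h2
      exact (Nat.lt_div_iff_mul_lt' (hs _) _).2 (by rw [mul_comm]; exact h2)⟩⟩
  invFun p := ⟨⟨(p.2.1.1, p.1.1, p.2.2.1), Or.inr ⟨by rw [p.2.1.2]; exact hy _,
    ⟨p.1.2, p.2.1.2⟩, by
      have h := (Nat.lt_div_iff_mul_lt' (hs p.1) _).1 p.2.2.2
      rw [mul_comm] at h
      show p.2.2.1 * sz c (c p.2.1.1) < F
      rw [p.2.1.2]
      exact h⟩⟩, fun e => by
        have := (scol_zero _).1 e
        exact hy p.1 (p.2.1.2.symm.trans this)⟩
  left_inv w := by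
    rfl
  right_inv p := by
    rfl

theorem ncard_scol (hF : 1 ≤ F) (hy : ∀ j, c (y j) ≠ 0) (hs : ∀ j, sz c (c (y j)) ∣ F) :
    {w : SV c N F y H | scol c N F y H w ≠ 0}.ncard = N * F := by
  have h1 : {w : SV c N F y H | scol c N F y H w ≠ 0}.ncard =
      Nat.card {w : SV c N F y H // scol c N F y H w ≠ 0} :=
    (Nat.card_coe_set_eq {w : SV c N F y H | scol c N F y H w ≠ 0}).symm
  rw [h1, Nat.card_congr (eqv hy hs), Nat.card_sigma]
  have h2 : ∀ j : Fin N, Nat.card ({v // c v = c (y j)} × Fin (F / sz c (c (y j)))) = F := by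
    intro j
    rw [Nat.card_prod, Nat.card_fin]
    have h3 : Nat.card {v // c v = c (y j)} = sz c (c (y j)) :=
      Nat.card_coe_set_eq {v | c v = c (y j)}
    rw [h3]
    exact Nat.mul_div_cancel' (hs j)
  rw [Finset.sum_congr rfl fun j _ => h2 j]
  simp

theorem card_SV (hF : 1 ≤ F) (hy : ∀ j, c (y j) ≠ 0) (hs : ∀ j, sz c (c (y j)) ∣ F) :
    Nat.card (SV c N F y H) ≤ N * F + H.ncard := by
  rw [← Set.ncard_add_ncard_compl {w : SV c N F y H | scol c N F y H w ≠ 0},
    ncard_scol hF hy hs]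
  refine Nat.add_le_add_left ?_ _
  refine Set.ncard_le_ncard_of_injOn (fun w : SV c N F y H => w.1.1) ?_ ?_ (Set.toFinite H)
  · intro w hw
    have h0 : scol c N F y H w = 0 := by
      by_contra h
      exact hw h
    rcases w.2 with h2 | h2
    · exact h2.2.1
    · exact absurd ((scol_zero w).1 h0) h2.1
  · intro w hw w' hw' h
    have h0 : scol c N F y H w = 0 := by
      by_contra h
      exact hw h
    have h0' : scol c N F y H w' = 0 := by
      by_contra h
      exact hw' h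
    exact scol_inj w w' (h0.trans h0'.symm) h

end H46.EF
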