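import Pool.Agent.H46.EF.Trn
import Pool.Agent.H46.EF.Cny
import Pool.Agent.H46.EF.Avg
import Pool.Agent.H46.EF.Hbn
import Pool.Agent.H46.EF.Gdc

/-!
# EF.Smp : the sampling inequality (about 130 lines)

`Φ`, `𝒢`, `φ` from `good_cycles`, `F = M.factorial` (`sz c (φ E i) ∣ F` because `1 ≤ sz ≤ M`: `Nat.dvd_factorial`), `p = #{c ≠ 0}`. For `y : Fin N → {v // c v ≠ 0}` let `H y` be the set of `hub_bound` (with `C = cC D`, `K = (d + 1) * l`). `count_sample` (the hypothesis `hH` holds by the definition of `H y`), and the sample is a valid template with at most `sB l d ..` vertices (`card_SV`, `hub_bound`,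
`pul_compat`, `pul_valid` with `scol_zero`, `scol_inj`), so by `le_GamN` and `ncard_scol`: `#dcyc(sample) ≤ GamN * (N * F) ^ d`. Sum over the `p ^ N` samples `y` and use `average` for every `E ∈ 𝒢`:
`#𝒢 * (N.descFactorial d * p ^ (N - d) * F ^ d) ≤ p ^ N * GamN * (N * F) ^ d`; divide by `p ^ (N - d) * F ^ d` (if `p = 0` then `𝒢` is empty).
-/

set_option autoImplicit false

namespace H46.EF

open Pool.Agent.H3.LC H46.CY

private theorem gamN_nonneg_smp (L : Finset ℕ) (d N : ℕ) : 0 ≤ GamN L d N := by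
  unfold GamN
  apply Real.sSup_nonneg
  rintro r ⟨m, _, G, c, _, _, rfl⟩
  positivity

theorem sampling {V : Type} [Finite V] {L : Finset ℕ} {l d D : ℕ} (hl : 2 ≤ l) (hd : 1 ≤ d)
    (hev : ∀ x ∈ L, Even x → 2 * l ≤ x) (hmax : ∀ x ∈ L, x < (d + 1) * l) {G : SimpleGraph V}
    {le : V → V → Prop} (hE : IsElim G D le) (hL : IsLCycleGraph L G) {c : V → ℕ}
    (hc : Compat G c) (hv : ∀ M, IsLCycleGraph L (blow G c M)) {M : ℕ}
    (hM : ∀ i, i ≠ 0 → {v | c v = i}.ncard ≤ M) {N : ℕ} (hN : d ≤ N) :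
    ∃ g : ℕ, (cycles G).ncard ≤ g +
        fB D l d * (({v | c v = 0}.ncard + M) * Nat.card V ^ (d - 1)) ∧
      (g : ℝ) * N.descFactorial d ≤
        GamN L d (sB D l d M N) * (N : ℝ) ^ d * (Nat.card V : ℝ) ^ d := by
  classical
  obtain ⟨Φ, 𝒢, φ, hΦ, h𝒢, hcount⟩ := good_cycles hl hd hev hmax hE hL hc hv hM
  refine ⟨𝒢.card, hcount, ?_⟩
  have : Fintype V := Fintype.ofFinite V
  have : Fintype {v : V // c v ≠ 0} := Fintype.ofFinite _
  have hG0 : 0 ≤ GamN L d (sB D l d M N) := gamN_nonneg_smp L d _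
  -- sizes of the pieces
  have hsz : ∀ i, i ≠ 0 → (∃ v, c v = i) → sz c i ∣ M.factorial := by
    intro i hi hv'
    obtain ⟨v, hv'⟩ := hv'
    apply Nat.dvd_factorial
    · have : {v | c v = i}.Nonempty := ⟨v, hv'⟩
      exact (Set.ncard_pos (Set.toFinite _)).2 this
    · exact hM i hi
  have hF : 1 ≤ M.factorial := Nat.succ_le_of_lt (Nat.factorial_pos M)
  set p : ℕ := {v | c v ≠ 0}.ncard with hp
  have hpV : p ≤ Nat.card V := by
    rw [hp, ← Set.ncard_univ]
    exact Set.ncard_le_ncard (Set.subset_univ _) (Set.toFinite _)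
  have hcardS : Fintype.card {v : V // c v ≠ 0} = p := by
    rw [hp, ← Nat.card_eq_fintype_card]
    rfl
  -- bound for one sample
  have hone : ∀ y : Fin N → {v : V // c v ≠ 0},
      ((∑ E ∈ 𝒢, {J : Fin d → Fin N | ∀ i, c (y (J i)).1 = φ E i}.ncard *
        ∏ i, (M.factorial / sz c (φ E i)) : ℕ) : ℝ) ≤
      GamN L d (sB D l d M N) * ((N * M.factorial : ℕ) : ℝ) ^ d := by
    intro y
    set y' : Fin N → V := fun j => (y j).1 with hy'
    have hy0 : ∀ j, c (y' j) ≠ 0 := fun j => (y j).2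
    set H : Set V := {v | ∃ m, 3 ≤ m ∧ m < (d + 1) * l ∧ ∃ f : ZMod m → V, IsCyc G f ∧
      (∀ i, ∃ j, c (y' j) = c (Φ m f i)) ∧ v ∈ Set.range f} with hH
    have hHc : H.ncard ≤ ((d + 1) * l) *
        ∑ m ∈ Finset.range ((d + 1) * l), cC D m * (N * M) ^ d :=
      hub_bound hd hM Φ (cC D) hΦ y' hy0
    have hsy : ∀ j, sz c (c (y' j)) ∣ M.factorial := fun j => hsz _ (hy0 j) ⟨y' j, rfl⟩
    have h1 : (∑ E ∈ 𝒢, {J : Fin d → Fin N | ∀ i, c (y' (J i)) = φ E i}.ncard *
        ∏ i, (M.factorial / sz c (φ E i))) ≤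
        (dcyc d (sgr G c N M.factorial y' H) (scol c N M.factorial y' H)).ncard := by
      apply count_sample hc y' H 𝒢 φ (fun E hE' => (h𝒢 E hE').1)
      intro E hE' hall v hv' _
      obtain ⟨_, m, hm3, hmK, f, hf, hfE, hφ⟩ := h𝒢 E hE'
      refine ⟨m, hm3, hmK, f, hf, ?_, ?_⟩
      · intro i
        obtain ⟨j, hj⟩ := hall i
        exact ⟨j, by rw [hj, hφ i]⟩
      · obtain ⟨e, he, hve⟩ := hv'
        rw [← hfE] at he
        obtain ⟨i, rfl⟩ := he
        rcases Sym2.mem_iff.1 hve with h | h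
        · exact ⟨i, h.symm⟩
        · exact ⟨i + 1, h.symm⟩
    have hcardSV : Nat.card (SV c N M.factorial y' H) ≤ sB D l d M N :=
      (card_SV hF hy0 hsy).trans (by unfold sB; exact Nat.add_le_add_left hHc _)
    have h2 := le_GamN (L := L) (l := l) (d := d) hl hd hev hmax hcardSV
      (G' := sgr G c N M.factorial y' H) (c' := scol c N M.factorial y' H)
      (pul_compat G _ _) (pul_valid hv scol_zero scol_inj)
    rw [ncard_scol hF hy0 hsy] at h2
    refine le_trans ?_ h2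
    exact_mod_cast h1
  -- sum over all samples
  have hsum : (𝒢.card : ℝ) * ((N.descFactorial d : ℝ) * (p : ℝ) ^ (N - d) *
      (M.factorial : ℝ) ^ d) ≤
      (p : ℝ) ^ N * (GamN L d (sB D l d M N) * ((N * M.factorial : ℕ) : ℝ) ^ d) := by
    have hA : ∀ E ∈ 𝒢, N.descFactorial d * p ^ (N - d) * M.factorial ^ d ≤
        ∑ y : Fin N → {v : V // c v ≠ 0},
          {J : Fin d → Fin N | ∀ i, c (y (J i)).1 = φ E i}.ncard *
            ∏ i, (M.factorial / sz c (φ E i)) := by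
      intro E hE'
      obtain ⟨hLi, _⟩ := h𝒢 E hE'
      obtain ⟨_, hinj, h0, _, hex⟩ := hLi
      exact average c hN (φ E) hinj h0 (fun i => hsz _ (h0 i)
        (by obtain ⟨v, _, hv'⟩ := hex i; exact ⟨v, hv'⟩))
    have hB : 𝒢.card * (N.descFactorial d * p ^ (N - d) * M.factorial ^ d) ≤
        ∑ y : Fin N → {v : V // c v ≠ 0}, ∑ E ∈ 𝒢,
          {J : Fin d → Fin N | ∀ i, c (y (J i)).1 = φ E i}.ncard *
            ∏ i, (M.factorial / sz c (φ E i)) := by
      rw [Finset.sum_comm]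
      calc 𝒢.card * (N.descFactorial d * p ^ (N - d) * M.factorial ^ d)
          = ∑ _E ∈ 𝒢, (N.descFactorial d * p ^ (N - d) * M.factorial ^ d) := by
            rw [Finset.sum_const, smul_eq_mul]
        _ ≤ _ := Finset.sum_le_sum hA
    have hC : ((∑ y : Fin N → {v : V // c v ≠ 0}, ∑ E ∈ 𝒢,
          {J : Fin d → Fin N | ∀ i, c (y (J i)).1 = φ E i}.ncard *
            ∏ i, (M.factorial / sz c (φ E i)) : ℕ) : ℝ) ≤
        (p : ℝ) ^ N * (GamN L d (sB D l d M N) * ((N * M.factorial : ℕ) : ℝ) ^ d) := by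
      rw [Nat.cast_sum]
      calc _ ≤ ∑ _y : Fin N → {v : V // c v ≠ 0},
            GamN L d (sB D l d M N) * ((N * M.factorial : ℕ) : ℝ) ^ d :=
            Finset.sum_le_sum (fun y _ => hone y)
        _ = _ := by
            rw [Finset.sum_const, Finset.card_univ, Fintype.card_fun, hcardS, Fintype.card_fin,
              nsmul_eq_mul]
            push_cast
            ring
    refine le_trans ?_ hC
    exact_mod_cast hB
  rcases Nat.eq_zero_or_pos 𝒢.card with h0 | hpos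
  · rw [h0]
    simp only [Nat.cast_zero, zero_mul]
    positivity
  · have hp1 : 0 < p := by
      obtain ⟨E, hE'⟩ := Finset.card_pos.1 hpos
      obtain ⟨hLi, _⟩ := h𝒢 E hE'
      obtain ⟨_, _, h0, _, hex⟩ := hLi
      obtain ⟨v, _, hv'⟩ := hex ⟨0, hd⟩
      rw [hp]
      exact (Set.ncard_pos (Set.toFinite _)).2 ⟨v, by
        show c v ≠ 0
        rw [hv']; exact h0 _⟩
    have hpR : (0 : ℝ) < p := by exact_mod_cast hp1
    have hFR : (0 : ℝ) < (M.factorial : ℝ) := by exact_mod_cast Nat.factorial_pos M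
    have hpow : (p : ℝ) ^ N = (p : ℝ) ^ (N - d) * (p : ℝ) ^ d := by
      rw [← pow_add, Nat.sub_add_cancel hN]
    rw [hpow] at hsum
    push_cast at hsum
    have hmain : (𝒢.card : ℝ) * (N.descFactorial d : ℝ) ≤
        GamN L d (sB D l d M N) * (N : ℝ) ^ d * (p : ℝ) ^ d := by
      have hQ : (0 : ℝ) < (p : ℝ) ^ (N - d) * (M.factorial : ℝ) ^ d := by positivity
      apply le_of_mul_le_mul_right _ hQ
      calc (𝒢.card : ℝ) * (N.descFactorial d : ℝ) * ((p : ℝ) ^ (N - d) * (M.factorial : ℝ) ^ d)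
          = (𝒢.card : ℝ) * ((N.descFactorial d : ℝ) * (p : ℝ) ^ (N - d) *
            (M.factorial : ℝ) ^ d) := by ring
        _ ≤ _ := hsum
        _ = _ := by rw [mul_pow]; ring
    refine hmain.trans ?_
    apply mul_le_mul_of_nonneg_left _ (by positivity)
    exact pow_le_pow_left₀ hpR.le (by exact_mod_cast hpV) d

end H46.EF
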