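import Pool.Agent.H46.EF.Shx

/-!
# EF.Spx : explicit form of `src_path` (copy of CY/SrcP.lean, about 230 lines)

`cP_mono`, `cS_le_cP`: from the definitions. `src_path_exp`: copy the proof of `H46.CY.src_path` (`Pool/Agent/H46/CY/SrcP.lean`, with its private lemmas), strong induction on `t`, with `C t' = cP D t'`: for `t < l` use `short_exp` and `cS_le_cP`;
for `t = u + 1 ≥ l` the sum `B` is replaced by `(u + 1) * cP D u`, which bounds `cP D t'` for all `t' ≤ u`.
-/

set_option autoImplicit false

namespace H46.EF

open Pool.Agent.H3.LC H46.CY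

private theorem SpxP_fin {V : Type} [Finite V] (G : SimpleGraph V) (a b : V) (t : ℕ) :
    {s : List V | PI G a b s ∧ s.length + 1 = t}.Finite :=
  (List.finite_length_eq V (t - 1)).subset fun s hs => by
    have := hs.2
    show s.length = t - 1
    omega

private theorem SpxP_fin' {V : Type} [Finite V] (G : SimpleGraph V) (a b : V) (t : ℕ)
    (p : List V → Prop) : {s : List V | PI G a b s ∧ s.length + 1 = t ∧ p s}.Finite :=
  (SpxP_fin G a b t).subset fun _ hs => ⟨hs.1, hs.2.1⟩

private theorem SpxP_a {r r1 r2 : ℕ} (h : r1 + r2 < r) :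
    ¬ (r - 1 < r1) ∧ ¬ (r - 1 - r1 < r2) := by
  constructor <;> omega

private theorem SpxP_b {r r1 r2 j : ℕ} (h : r1 + r2 ≤ r) (hj : j < r2) :
    r1 + j < r ∧ ¬ (r1 + j < r1) ∧ r1 + j - r1 < r2 ∧ j = r1 + j - r1 := by
  refine ⟨?_, ?_, ?_, ?_⟩ <;> omega

private theorem SpxP_c {r r1 r2 j : ℕ} (h : r1 + r2 ≤ r) (hj : j < r1) : j < r := by
  omega

theorem one_le_cP (D t : ℕ) : 1 ≤ cP D t := by
  cases t with
  | zero => exact le_rfl
  | succ t => exact (one_le_cS D (t + 1)).trans (Nat.le_add_right _ _)

theorem cP_mono (D : ℕ) : Monotone (cP D) := by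
  refine monotone_nat_of_le_succ fun t => ?_
  have h0 := one_le_cP D t
  have h1 : cP D t ≤ (t + 1) * cP D t := Nat.le_mul_of_pos_left _ (Nat.succ_pos t)
  have h2 : (t + 1) * cP D t ≤ ((t + 1) * cP D t) * ((t + 1) * cP D t) :=
    Nat.le_mul_of_pos_left _ (Nat.mul_pos (Nat.succ_pos t) h0)
  have h3 : ((t + 1) * cP D t) * ((t + 1) * cP D t) ≤
      (t + 1) * (((t + 1) * cP D t) * ((t + 1) * cP D t)) := Nat.le_mul_of_pos_left _ (Nat.succ_pos t)
  have h4 : (t + 1) * (((t + 1) * cP D t) * ((t + 1) * cP D t)) ≤
      (t + 1) * ((t + 1) * (((t + 1) * cP D t) * ((t + 1) * cP D t))) :=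
    Nat.le_mul_of_pos_left _ (Nat.succ_pos t)
  have h5 : (t + 1) * ((t + 1) * (((t + 1) * cP D t) * ((t + 1) * cP D t))) ≤
      (D + 1) * ((t + 1) * ((t + 1) * (((t + 1) * cP D t) * ((t + 1) * cP D t)))) :=
    Nat.le_mul_of_pos_left _ (Nat.succ_pos D)
  exact (h1.trans (h2.trans (h3.trans (h4.trans h5)))).trans (Nat.le_add_left _ _)

theorem cS_le_cP (D t : ℕ) : cS D t ≤ cP D t := by
  cases t with
  | zero => exact le_rfl
  | succ t => exact Nat.le_add_right _ _

theorem src_path_exp (D l : ℕ) (hl : 2 ≤ l) (t : ℕ) (V : Type) [Finite V] (G : SimpleGraph V)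
    (le : V → V → Prop) (hE : IsElim G D le) (hN : NoEven G l) (a b : V) (hab : a ≠ b) :
    ∃ Φ : List V → Fin (t / l) → V,
      (∀ s, PI G a b s → s.length + 1 = t → ∀ i, Φ s i ∈ s) ∧
      ∀ y, {s : List V | PI G a b s ∧ s.length + 1 = t ∧ Φ s = y}.ncard ≤ cP D t := by
  classical
  have aux : ∀ t : ℕ, ∀ (V : Type) [Finite V] (G : SimpleGraph V) (le : V → V → Prop), IsElim G D le →
      NoEven G l → ∀ a b : V, a ≠ b → ∃ Φ : List V → Fin (t / l) → V,
        (∀ s, PI G a b s → s.length + 1 = t → ∀ i, Φ s i ∈ s) ∧
        ∀ y, {s : List V | PI G a b s ∧ s.length + 1 = t ∧ Φ s = y}.ncard ≤ cP D t := by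
    intro t
    induction t using Nat.strong_induction_on with
    | _ t ih =>
      intro V _ G le hE hN a b hab
      rcases Nat.lt_or_ge t l with htl | htl
      · -- short paths
        refine ⟨fun _ _ => a, ?_, ?_⟩
        · intro s _ _ i
          have h0 : t / l = 0 := Nat.div_eq_of_lt htl
          exact absurd i.2 (by omega)
        · intro y
          refine (Set.ncard_le_ncard ?_ (SpxP_fin G a b t)).trans
            ((short_exp D l t htl V G le hE hN a b hab).trans (cS_le_cP D t))
          intro s hs
          exact ⟨hs.1, hs.2.1⟩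
      · obtain ⟨u, rfl⟩ : ∃ u, t = u + 1 := ⟨t - 1, by omega⟩
        obtain ⟨t, ht⟩ : ∃ t, t = u + 1 := ⟨_, rfl⟩
        rw [← ht] at ih htl ⊢
        obtain ⟨B, hB⟩ : ∃ B, B = (u + 1) * cP D u := ⟨_, rfl⟩
        have hCB : ∀ t' < t, cP D t' ≤ B := by
          intro t' h
          rw [hB]
          exact (cP_mono D (by omega : t' ≤ u)).trans (Nat.le_mul_of_pos_left _ (Nat.succ_pos u))
        have hr : 1 ≤ t / l := (Nat.one_le_div_iff (by omega)).2 htl
        have hfinal : (D + 1) * (t * (t * (B * B))) ≤ cP D t := by
          rw [ht, hB]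
          exact Nat.le_add_left _ _
        -- the maps for shorter paths
        have hΦ' : ∀ (t' : ℕ) (x z : V), ∃ Φ : List V → Fin (t' / l) → V, t' < t → x ≠ z →
            (∀ s, PI G x z s → s.length + 1 = t' → ∀ i, Φ s i ∈ s) ∧
              ∀ y, {s : List V | PI G x z s ∧ s.length + 1 = t' ∧ Φ s = y}.ncard ≤ cP D t' := by
          intro t' x z
          by_cases h : t' < t ∧ x ≠ z
          · obtain ⟨Φ, hΦ⟩ := ih t' h.1 V G le hE hN x z h.2
            exact ⟨Φ, fun _ _ => hΦ⟩
          · exact ⟨fun _ _ => x, fun h1 h2 => absurd ⟨h1, h2⟩ h⟩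
        choose Ψ hΨ using hΦ'
        -- the splitting at the smallest member
        have hsp : ∀ s : List V, ∃ (s1 : List V) (q : V) (s2 : List V), PI G a b s → s.length + 1 = t →
            s = s1 ++ q :: s2 ∧ ∀ x ∈ s, le q x := by
          intro s
          by_cases h : PI G a b s ∧ s.length + 1 = t
          · obtain ⟨hs, hlen⟩ := h
            obtain ⟨q, hq, hqx⟩ : ∃ r ∈ s, ∀ x ∈ s, le r x := by
              refine exists_min_list hE s ?_ ?_
              · rintro rfl
                simp only [List.length_nil] at hlen
                omega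
              · exact List.IsChain.left_of_append (l₁ := s) (l₂ := [b]) hs.1.tail
            obtain ⟨s1, s2, hs12⟩ := List.append_of_mem hq
            exact ⟨s1, q, s2, fun _ _ => ⟨hs12, hqx⟩⟩
          · exact ⟨[], a, [], fun h1 h2 => absurd ⟨h1, h2⟩ h⟩
        choose s1 q s2 hsp using hsp
        obtain ⟨Φ, hΦ⟩ : ∃ Φ : List V → Fin (t / l) → V, ∀ s i, Φ s i =
            if h1 : (i : ℕ) < ((s1 s).length + 1) / l then
              Ψ ((s1 s).length + 1) a (q s) (s1 s) ⟨i, h1⟩
            else if h2 : (i : ℕ) - ((s1 s).length + 1) / l < ((s2 s).length + 1) / l then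
              Ψ ((s2 s).length + 1) (q s) b (s2 s) ⟨(i : ℕ) - ((s1 s).length + 1) / l, h2⟩
            else q s := ⟨_, fun _ _ => rfl⟩
        -- the facts on one path
        have key : ∀ s, PI G a b s → s.length + 1 = t →
            s = s1 s ++ q s :: s2 s ∧ (∀ x ∈ s, le (q s) x) ∧ PI G a (q s) (s1 s) ∧
            PI G (q s) b (s2 s) ∧ a ≠ q s ∧ q s ≠ b ∧
            ((s1 s).length + 1) + ((s2 s).length + 1) = t := by
          intro s hs hlen
          obtain ⟨e, hm⟩ := hsp s hs hlen
          have hs' := hs
          rw [e] at hs'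
          obtain ⟨p1, p2⟩ := pi_split hs'
          refine ⟨e, hm, p1, p2, ?_, ?_, ?_⟩
          · intro h
            exact hs'.2.2.1 (by rw [h]; simp)
          · intro h
            exact hs'.2.2.2 (by rw [h]; simp)
          · have := congrArg List.length e
            rw [List.length_append, List.length_cons] at this
            omega
        have hmem : ∀ s, PI G a b s → s.length + 1 = t → ∀ i, Φ s i ∈ s := by
          intro s hs hlen i
          obtain ⟨e, hm, p1, p2, haq, hqb, hsum⟩ := key s hs hlen
          have hsub1 : ∀ x ∈ s1 s, x ∈ s := by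
            intro x hx
            rw [e]
            exact List.mem_append_left _ hx
          have hsub2 : ∀ x ∈ s2 s, x ∈ s := by
            intro x hx
            rw [e]
            exact List.mem_append_right _ (List.mem_cons_of_mem _ hx)
          have hsubq : q s ∈ s := by
            have h5 : q s ∈ s1 s ++ q s :: s2 s := by simp
            rwa [← e] at h5
          rw [hΦ]
          split_ifs with h1 h2
          · exact hsub1 _ ((hΨ _ a (q s) (by omega) haq).1 _ p1 rfl _)
          · exact hsub2 _ ((hΨ _ (q s) b (by omega) hqb).1 _ p2 rfl _)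
          · exact hsubq
        refine ⟨Φ, hmem, ?_⟩
        intro y
        refine le_trans ?_ hfinal
        have hfin := SpxP_fin' G a b t (fun s => Φ s = y)
        rw [Set.ncard_eq_toFinset_card _ hfin]
        -- the possible smallest members
        have hQfin : {u | le u (y ⟨0, hr⟩)}.Finite := Set.toFinite _
        have hQcard : (insert (y ⟨t / l - 1, by omega⟩) hQfin.toFinset).card ≤ D + 1 := by
          refine (Finset.card_insert_le _ _).trans (Nat.succ_le_succ ?_)
          have h2 := hE.height (y ⟨0, hr⟩)
          rw [hQfin.encard_eq_coe_toFinset_card] at h2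
          exact_mod_cast h2
        have hsub : hfin.toFinset ⊆ (insert (y ⟨t / l - 1, by omega⟩) hQfin.toFinset).biUnion fun p =>
            (Finset.range t).biUnion fun i => (Finset.range t).biUnion fun k =>
            Finset.image₂ (fun u1 u2 => u1 ++ p :: u2)
              (if a = p then ∅ else (SpxP_fin' G a p i (fun u => Ψ i a p u =
                fun j : Fin (i / l) => if h : (j : ℕ) < t / l then y ⟨j, h⟩ else a)).toFinset)
              (if p = b then ∅ else (SpxP_fin' G p b k (fun u => Ψ k p b u =
                fun j : Fin (k / l) => if h : i / l + (j : ℕ) < t / l then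
                  y ⟨i / l + (j : ℕ), h⟩ else a)).toFinset) := by
          intro s hs
          rw [Set.Finite.mem_toFinset] at hs
          obtain ⟨hs, hlen, hy⟩ := hs
          obtain ⟨e, hm, p1, p2, haq, hqb, hsum⟩ := key s hs hlen
          have hdiv : ((s1 s).length + 1) / l + ((s2 s).length + 1) / l ≤ t / l := by
            rw [← hsum]
            exact Nat.div_add_div_le_add_div
          rw [Finset.mem_biUnion]
          refine ⟨q s, ?_, ?_⟩
          · rw [Finset.mem_insert, Set.Finite.mem_toFinset]
            by_cases hlt : ((s1 s).length + 1) / l + ((s2 s).length + 1) / l < t / l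
            · left
              obtain ⟨n1, n2⟩ := SpxP_a hlt
              have h3 := congrFun hy ⟨t / l - 1, by omega⟩
              rw [hΦ, dif_neg n1, dif_neg n2] at h3
              exact h3
            · right
              have h0 : y ⟨0, hr⟩ ∈ s := by
                rw [← hy]
                exact hmem s hs hlen _
              exact hm _ h0
          · rw [Finset.mem_biUnion]
            refine ⟨(s1 s).length + 1, Finset.mem_range.2 (by omega), ?_⟩
            rw [Finset.mem_biUnion]
            refine ⟨(s2 s).length + 1, Finset.mem_range.2 (by omega), ?_⟩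
            rw [Finset.mem_image₂]
            refine ⟨s1 s, ?_, s2 s, ?_, e.symm⟩
            · rw [if_neg haq, Set.Finite.mem_toFinset]
              refine ⟨p1, rfl, ?_⟩
              funext j
              have hj := j.2
              have hjt : (j : ℕ) < t / l := SpxP_c hdiv hj
              rw [dif_pos hjt, ← hy, hΦ, dif_pos hj]
            · rw [if_neg hqb, Set.Finite.mem_toFinset]
              refine ⟨p2, rfl, ?_⟩
              funext j
              have hj := j.2
              obtain ⟨hjt, n1, n2, n3⟩ := SpxP_b hdiv hj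
              rw [dif_pos hjt, ← hy, hΦ, dif_neg n1, dif_pos n2]
              congr 1
              exact Fin.ext n3
        refine (Finset.card_le_card hsub).trans ?_
        refine (Finset.card_biUnion_le_card_mul _ _ (t * (t * (B * B))) ?_).trans
          (Nat.mul_le_mul_right _ hQcard)
        intro p _
        refine (Finset.card_biUnion_le_card_mul (Finset.range t) _ (t * (B * B)) ?_).trans ?_
        · intro i hi
          rw [Finset.mem_range] at hi
          refine (Finset.card_biUnion_le_card_mul (Finset.range t) _ (B * B) ?_).trans ?_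
          · intro k hk
            rw [Finset.mem_range] at hk
            refine (Finset.card_image₂_le _ _ _).trans ?_
            by_cases hap : a = p
            · rw [if_pos hap, Finset.card_empty, Nat.zero_mul]
              exact Nat.zero_le _
            by_cases hpb : p = b
            · rw [if_pos hpb, Finset.card_empty, Nat.mul_zero]
              exact Nat.zero_le _
            rw [if_neg hap, if_neg hpb]
            have h1 := (hΨ i a p hi hap).2 (fun j : Fin (i / l) =>
              if h : (j : ℕ) < t / l then y ⟨j, h⟩ else a)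
            have h2 := (hΨ k p b hk hpb).2 (fun j : Fin (k / l) =>
              if h : i / l + (j : ℕ) < t / l then y ⟨i / l + (j : ℕ), h⟩ else a)
            rw [Set.ncard_eq_toFinset_card _ (SpxP_fin' G a p i (fun u => Ψ i a p u =
                fun j : Fin (i / l) => if h : (j : ℕ) < t / l then y ⟨j, h⟩ else a))] at h1
            rw [Set.ncard_eq_toFinset_card _ (SpxP_fin' G p b k (fun u => Ψ k p b u =
                fun j : Fin (k / l) => if h : i / l + (j : ℕ) < t / l then
                  y ⟨i / l + (j : ℕ), h⟩ else a))] at h2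
            exact Nat.mul_le_mul (h1.trans (hCB i hi)) (h2.trans (hCB k hk))
          · rw [Finset.card_range]
        · rw [Finset.card_range]
  exact aux t V G le hE hN a b hab

end H46.EF
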