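import Pool.Agent.H46.EF.Clx
import Pool.Agent.H46.CY.Scale
import Pool.Agent.H46.CY.Mov

/-!
# EF.Tmx : explicit form of `exists_template` (copy of CY/Tmpl.lean, about 270 lines)

Copy the proof of `H46.CY.exists_template` (`Pool/Agent/H46/CY/Tmpl.lean`, with its private lemmas `tmpl_height`, `tmpl_colour`, `tmpl_count`) with `D1 = D + 1`, `B (T i) = code (D + 1) (tT D q i)`, `T = tT D q`, `I = 3 * (D + 1) * q` and `1 / q` in the place of `ε`; everything in `ℕ`:
`#H * T (i + 1) ≤ D1 n` and `3 D1 (1 + B D1 T) q ≤ T (i + 1)` give `3 #H (1 + B D1 T) q ≤ n` (`D1 ≥ 1`); `#S * I ≤ D1 n` gives `3 #S q ≤ n`; `3 (B D1 T) q ≤ tn D q ≤ n` (one term of the sum). The sum of the three: `3 * #{c = 0} * q ≤ 3 * n`.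
-/

set_option autoImplicit false

namespace H46.EF

open Pool.Agent.H3.LC H46.CY

private theorem tmpl_height {V : Type} {G : SimpleGraph V} {D : ℕ} {le : V → V → Prop}
    (h : IsElim G D le) : IsElim G (D + 1) le where
  refl := h.refl
  trans := h.trans
  anti := h.anti
  chain := h.chain
  adj := h.adj
  height := fun v => (h.height v).trans (by exact_mod_cast Nat.le_succ D)

private theorem tmpl_colour {V : Type} [Finite V] {G : SimpleGraph V} {D : ℕ}
    {le : V → V → Prop} (h : IsElim G D le) {H P : Set V}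
    (hP : ∀ y ∈ P, y ∉ H ∧ ∀ w, le w y → w ≠ y → w ∈ H) :
    ∃ c : V → ℕ, (∀ v, c v ≠ 0 ↔ ∃ y ∈ P, le y v) ∧
      (∀ u v, ∀ y ∈ P, le y u → (c u = c v ↔ le y v)) := by
  classical
  obtain ⟨g, hg⟩ : ∃ g : V → ℕ, Function.Injective g := Countable.exists_injective_nat _
  let c : V → ℕ := fun v => if hv : ∃ y, y ∈ P ∧ le y v then g hv.choose + 1 else 0
  have hcy : ∀ v y, y ∈ P → le y v → c v = g y + 1 := by
    intro v y hy hyv
    have hv : ∃ y, y ∈ P ∧ le y v := ⟨y, hy, hyv⟩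
    have h1 : c v = g hv.choose + 1 := dif_pos hv
    have h2 : hv.choose = y :=
      root_unique h (hP _ hv.choose_spec.1).1 (hP y hy).1 (hP _ hv.choose_spec.1).2 (hP y hy).2
        hv.choose_spec.2 hyv
    rw [h1, h2]
  have hc0 : ∀ v, (¬ ∃ y, y ∈ P ∧ le y v) → c v = 0 := fun v hv => dif_neg hv
  refine ⟨c, ?_, ?_⟩
  · intro v
    constructor
    · intro hv
      by_contra hcon
      exact hv (hc0 v hcon)
    · rintro ⟨y, hy, hyv⟩
      rw [hcy v y hy hyv]
      exact Nat.succ_ne_zero _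
  · intro u v y hy hyu
    rw [hcy u y hy hyu]
    constructor
    · intro hv
      by_contra hcon
      by_cases hex : ∃ y, y ∈ P ∧ le y v
      · obtain ⟨y', hy', hyv'⟩ := hex
        rw [hcy v y' hy' hyv'] at hv
        have h1 : y = y' := hg (Nat.succ_injective hv)
        subst h1
        exact hcon hyv'
      · rw [hc0 v hex] at hv
        exact absurd hv (Nat.succ_ne_zero _)
    · intro hyv
      exact (hcy v y hy hyv).symm

private theorem tmpl_count {V : Type} [Finite V] {le : V → V → Prop} (R P : Set V) (κ : V → ℕ)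
    (D t : ℕ) (hR : ∀ y ∈ R, {x | le y x}.ncard ≤ t)
    (hP : ∀ y ∈ R, y ∉ P → {y' | y' ∈ R ∧ κ y' = κ y}.ncard ≤ D) :
    {v | ∃ y, y ∈ R ∧ y ∉ P ∧ le y v}.ncard ≤ (κ '' R).ncard * D * t := by
  classical
  have := Fintype.ofFinite V
  let F : Finset V := Finset.univ.filter fun y => y ∈ R ∧ y ∉ P
  have hF : F.card ≤ D * (F.image κ).card := by
    apply Finset.card_le_mul_card_image
    intro a ha
    obtain ⟨y, hy, rfl⟩ := Finset.mem_image.1 ha
    have hy' := (Finset.mem_filter.1 hy).2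
    have h1 := hP y hy'.1 hy'.2
    have h2 : ((F.filter fun x => κ x = κ y : Finset V) : Set V) ⊆ {y' | y' ∈ R ∧ κ y' = κ y} := by
      intro x hx
      rw [Finset.mem_coe, Finset.mem_filter] at hx
      exact ⟨((Finset.mem_filter.1 hx.1).2).1, hx.2⟩
    have h3 := Set.ncard_le_ncard h2 (Set.toFinite _)
    rw [Set.ncard_coe_finset] at h3
    exact h3.trans h1
  have himg : (F.image κ).card ≤ (κ '' R).ncard := by
    have h2 : ((F.image κ : Finset ℕ) : Set ℕ) ⊆ κ '' R := by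
      intro x hx
      rw [Finset.mem_coe, Finset.mem_image] at hx
      obtain ⟨y, hy, rfl⟩ := hx
      exact ⟨y, ((Finset.mem_filter.1 hy).2).1, rfl⟩
    have h3 := Set.ncard_le_ncard h2 (Set.toFinite _)
    rwa [Set.ncard_coe_finset] at h3
  have hU : {v | ∃ y, y ∈ R ∧ y ∉ P ∧ le y v}.ncard ≤ F.card * t := by
    have h2 : {v | ∃ y, y ∈ R ∧ y ∉ P ∧ le y v} ⊆
        ((F.biUnion fun y => Finset.univ.filter fun v => le y v : Finset V) : Set V) := by
      rintro v ⟨y, h1, h2, h3⟩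
      rw [Finset.mem_coe, Finset.mem_biUnion]
      exact ⟨y, Finset.mem_filter.2 ⟨Finset.mem_univ _, h1, h2⟩,
        Finset.mem_filter.2 ⟨Finset.mem_univ _, h3⟩⟩
    have h3 := Set.ncard_le_ncard h2 (Set.toFinite _)
    rw [Set.ncard_coe_finset] at h3
    refine h3.trans (Finset.card_biUnion_le_card_mul _ _ _ ?_)
    intro y hy
    have h4 := hR y ((Finset.mem_filter.1 hy).2).1
    have h5 : ((Finset.univ.filter fun v => le y v : Finset V) : Set V) = {x | le y x} := by
      ext x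
      simp
    rw [← h5, Set.ncard_coe_finset] at h4
    exact h4
  calc {v | ∃ y, y ∈ R ∧ y ∉ P ∧ le y v}.ncard ≤ F.card * t := hU
    _ ≤ (D * (F.image κ).card) * t := Nat.mul_le_mul_right _ hF
    _ ≤ (D * (κ '' R).ncard) * t := Nat.mul_le_mul_right _ (Nat.mul_le_mul_left _ himg)
    _ = (κ '' R).ncard * D * t := by rw [Nat.mul_comm D]

theorem tT_mono (D q : ℕ) : Monotone (tT D q) := by
  refine monotone_nat_of_le_succ fun i => ?_
  rw [tT]
  exact le_max_left _ _

private theorem tmx_arith {D1 q a s w t t' B n c n0 : ℕ} (hD1 : 0 < D1)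
    (r3 : a * t' ≤ D1 * n) (r5 : 3 * D1 * (1 + B * D1 * t) * q ≤ t')
    (r4 : s * (3 * D1 * q) ≤ D1 * n) (r6 : 3 * (B * D1 * t) * q ≤ n0) (hn : n0 ≤ n)
    (e1 : c ≤ a + (s + w)) (e2 : w ≤ B * (a + 1) * D1 * t) : c * q ≤ n := by
  have s1 : 3 * a * (1 + B * D1 * t) * q ≤ n := by
    have t1 : D1 * (3 * a * (1 + B * D1 * t) * q) ≤ D1 * n :=
      calc D1 * (3 * a * (1 + B * D1 * t) * q) = a * (3 * D1 * (1 + B * D1 * t) * q) := by ring
        _ ≤ a * t' := Nat.mul_le_mul_left _ r5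
        _ ≤ D1 * n := r3
    exact Nat.le_of_mul_le_mul_left t1 hD1
  have s2 : 3 * s * q ≤ n := by
    have t1 : D1 * (3 * s * q) ≤ D1 * n :=
      calc D1 * (3 * s * q) = s * (3 * D1 * q) := by ring
        _ ≤ D1 * n := r4
    exact Nat.le_of_mul_le_mul_left t1 hD1
  have s3 : 3 * (B * D1 * t) * q ≤ n := r6.trans hn
  have s4 : c * q ≤ (a + (s + B * (a + 1) * D1 * t)) * q :=
    Nat.mul_le_mul_right _ (e1.trans (Nat.add_le_add_left (Nat.add_le_add_left e2 _) _))
  have s5 : 3 * ((a + (s + B * (a + 1) * D1 * t)) * q) =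
      3 * a * (1 + B * D1 * t) * q + 3 * s * q + 3 * (B * D1 * t) * q := by ring
  omega

theorem tmpl_exp (D q : ℕ) (hq : 1 ≤ q) (V : Type) [Finite V] (G : SimpleGraph V)
    (le : V → V → Prop) (L : Finset ℕ) (hE : IsElim G D le) (hL : IsLCycleGraph L G)
    (hn : tn D q ≤ Nat.card V) : ∃ c : V → ℕ, Compat G c ∧
      (∀ M', IsLCycleGraph L (blow G c M')) ∧ {v | c v = 0}.ncard * q ≤ Nat.card V ∧
      ∀ i, i ≠ 0 → {v | c v = i}.ncard ≤ tM D q := by
  classical
  have h : IsElim G (D + 1) le := tmpl_height hE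
  have hI0 : 0 < 3 * (D + 1) * q := by positivity
  obtain ⟨i, hi, hS⟩ := exists_scale h (tT D q) (tT_mono D q) hI0
  let H : Set V := {v | tT D q (i + 1) ≤ {x | le v x}.ncard}
  have hH : ∀ u v, le u v → v ∈ H → u ∈ H := by
    intro u v huv hv
    have hv' : tT D q (i + 1) ≤ {x | le v x}.ncard := hv
    have hs : {x | le v x} ⊆ {x | le u x} := fun x hx => h.trans u v x huv hx
    exact hv'.trans (Set.ncard_le_ncard hs (Set.toFinite _))
  let R : Set V := {y | y ∉ H ∧ (∀ w, le w y → w ≠ y → w ∈ H) ∧ {x | le y x}.ncard ≤ tT D q i}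
  obtain ⟨κ, hκ1, hκ2⟩ := class_exp (D + 1) (tT D q i) V G le h H R fun y hy => hy.2
  let P : Set V := {y | y ∈ R ∧ D + 1 ≤ {y' | y' ∈ R ∧ κ y' = κ y}.ncard}
  have hP : ∀ y ∈ P, y ∉ H ∧ ∀ w, le w y → w ≠ y → w ∈ H := fun y hy => ⟨hy.1.1, hy.1.2.1⟩
  have hD : ∀ y ∈ P, D + 1 ≤ {y' | y' ∈ P ∧ κ y' = κ y}.ncard := by
    intro y hy
    have h1 : {y' | y' ∈ P ∧ κ y' = κ y} = {y' | y' ∈ R ∧ κ y' = κ y} := by
      ext y'
      constructor
      · rintro ⟨h1, h2⟩
        exact ⟨h1.1, h2⟩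
      · rintro ⟨h1, h2⟩
        refine ⟨⟨h1, ?_⟩, h2⟩
        rw [h2]
        exact hy.2
    rw [h1]
    exact hy.2
  obtain ⟨c, hc0, hc⟩ := tmpl_colour h hP
  refine ⟨c, compat_of_class h hH hP hc0 hc, ?_, ?_, ?_⟩
  · intro M'
    exact valid_of_class h hL hH hP (fun y hy y' hy' => hκ1 y hy.1 y' hy'.1) hD hc0 hc M'
  · let S : Set V := {u | ∃ v, le v u ∧ tT D q i ≤ {x | le v x}.ncard ∧
      {x | le v x}.ncard < tT D q (i + 1)}
    let W : Set V := {v | ∃ y, y ∈ R ∧ y ∉ P ∧ le y v}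
    have hsub : {v | c v = 0} ⊆ H ∪ (S ∪ W) := by
      intro v hv
      by_cases hvH : v ∈ H
      · exact Or.inl hvH
      · right
        obtain ⟨y, hyH, hyv, hyA⟩ := exists_root_le h H hvH
        have hy1 : {x | le y x}.ncard < tT D q (i + 1) := not_le.1 hyH
        by_cases hy2 : tT D q i ≤ {x | le y x}.ncard
        · exact Or.inl ⟨y, hyv, hy2, hy1⟩
        · right
          have hyR : y ∈ R := ⟨hyH, hyA, (not_le.1 hy2).le⟩
          refine ⟨y, hyR, ?_, hyv⟩
          intro hyP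
          exact (hc0 v).2 ⟨y, hyP, hyv⟩ hv
    have hW : W.ncard ≤ (κ '' R).ncard * (D + 1) * tT D q i := by
      refine tmpl_count R P κ (D + 1) (tT D q i) (fun y hy => hy.2.2) ?_
      intro y hy hyP
      by_contra hcon
      exact hyP ⟨hy, (not_le.1 hcon).le⟩
    have hHc := card_heavy h (tT D q (i + 1))
    have e1 : {v | c v = 0}.ncard ≤ H.ncard + (S.ncard + W.ncard) :=
      (Set.ncard_le_ncard hsub (Set.toFinite _)).trans
        ((Set.ncard_union_le _ _).trans (Nat.add_le_add_left (Set.ncard_union_le _ _) _))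
    have e2 : W.ncard ≤ code (D + 1) (tT D q i) * (H.ncard + 1) * (D + 1) * tT D q i :=
      hW.trans (Nat.mul_le_mul_right _ (Nat.mul_le_mul_right _ hκ2))
    have r5 : 3 * (D + 1) * (1 + code (D + 1) (tT D q i) * (D + 1) * tT D q i) * q ≤
        tT D q (i + 1) := by
      rw [tT]
      exact le_max_right _ _
    have r6 : 3 * (code (D + 1) (tT D q i) * (D + 1) * tT D q i) * q ≤ tn D q :=
      Finset.single_le_sum
        (f := fun i => 3 * (code (D + 1) (tT D q i) * (D + 1) * tT D q i) * q)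
        (fun j _ => Nat.zero_le _) (Finset.mem_range.2 hi)
    exact tmx_arith (Nat.succ_pos D) hHc r5 hS r6 hn e1 e2
  · intro j hj
    rcases Set.eq_empty_or_nonempty {v | c v = j} with h1 | ⟨u, hu⟩
    · rw [h1, Set.ncard_empty]
      exact Nat.zero_le _
    · have hu' : c u = j := hu
      have h2 : c u ≠ 0 := by
        rw [hu']
        exact hj
      obtain ⟨y, hy, hyu⟩ := (hc0 u).1 h2
      have h3 : {v | c v = j} = {x | le y x} := by
        ext v
        rw [← hu']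
        exact ⟨fun hv => (hc u v y hy hyu).1 (Eq.symm hv),
          fun hv => ((hc u v y hy hyu).2 hv).symm⟩
      rw [h3]
      exact hy.1.2.2.trans (tT_mono D q hi.le)

end H46.EF
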