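import Pool.Agent.H46.EF.Pul
import Pool.Agent.H46.EF.Cbx

/-!
# EF.Trn : templates on arbitrary finite types (about 100 lines)

Let `e : Fin m ≃ W`, `m = Nat.card W` (`Finite.equivFin`), `G0 = pul G' e (c' ∘ e)`, `c0 = c' ∘ e`. `Compat G0 c0` and validity: `pul_compat`, `pul_valid` (with `π = e`). For `Compat G' c'` the adjacency of `G0` is `G'.Adj (e u) (e v)`, so `Sym2.map e` maps `dcyc d G0 c0` bijectively onto `dcyc d G' c'` (here `≥` is enough: every member of `dcyc d G' c'`
is the image of a member of `dcyc d G0 c0`: use `mem_cycles_iff`, `cedges`, and the set of the colours met), and `e` maps `{v | c0 v ≠ 0}` bijectively onto `{w | c' w ≠ 0}`. Then `le_GamN'`; if there is no vertex of colour `≠ 0` then `dcyc d G' c'` is empty (`1 ≤ d`).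
-/

set_option autoImplicit false

namespace H46.EF

open Pool.Agent.H3.LC H46.CY

theorem le_GamN {L : Finset ℕ} {l d : ℕ} (hl : 2 ≤ l) (hd : 1 ≤ d)
    (hev : ∀ x ∈ L, Even x → 2 * l ≤ x) (hmax : ∀ x ∈ L, x < (d + 1) * l) {W : Type} [Finite W]
    {G' : SimpleGraph W} {c' : W → ℕ} {N : ℕ} (hN : Nat.card W ≤ N) (hc : Compat G' c')
    (hv : ∀ M, IsLCycleGraph L (blow G' c' M)) :
    ((dcyc d G' c').ncard : ℝ) ≤ GamN L d N * ({w | c' w ≠ 0}.ncard : ℝ) ^ d := by
  set e : Fin (Nat.card W) ≃ W := (Finite.equivFin W).symm with he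
  set c0 : Fin (Nat.card W) → ℕ := fun v => c' (e v) with hc0
  have hcomp : Compat (pul G' e c0) c0 := pul_compat G' e c0
  have hval : ∀ M, IsLCycleGraph L (blow (pul G' e c0) c0 M) := fun M =>
    pul_valid hv (fun _ => Iff.rfl) (fun _ _ _ h => e.injective h) M
  have key := le_GamN' hl hd hev hmax hN hcomp hval
  have hsub : dcyc d G' c' ⊆ (fun E => Sym2.map e '' E) '' dcyc d (pul G' e c0) c0 := by
    rintro E ⟨hE, hcard⟩
    obtain ⟨m, f, hm, hf, rfl⟩ := mem_cycles_iff.1 hE
    refine ⟨cedges (fun i => e.symm (f i)), ⟨mem_cycles_iff.2 ⟨m, fun i => e.symm (f i), hm,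
      ⟨fun a b hab => hf.1 (e.symm.injective hab), fun i => ⟨?_, ?_⟩⟩, rfl⟩, ?_⟩, ?_⟩
    · show G'.Adj (e (e.symm (f i))) (e (e.symm (f (i + 1))))
      rw [e.apply_symm_apply, e.apply_symm_apply]
      exact hf.2 i
    · show c' (e (e.symm (f i))) ≠ 0 → c' (e (e.symm (f (i + 1)))) ≠ 0 →
        c' (e (e.symm (f i))) = c' (e (e.symm (f (i + 1))))
      rw [e.apply_symm_apply, e.apply_symm_apply]
      exact hc _ _ (hf.2 i)
    · have hset : {i | i ≠ 0 ∧ ∃ v, c0 v = i ∧ ∃ b ∈ cedges (fun i => e.symm (f i)), v ∈ b} =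
          {i | i ≠ 0 ∧ ∃ v, c' v = i ∧ ∃ b ∈ cedges f, v ∈ b} := by
        ext i
        constructor
        · rintro ⟨h0, v, hv1, b, ⟨j, rfl⟩, hvb⟩
          refine ⟨h0, e v, hv1, s(f j, f (j + 1)), ⟨j, rfl⟩, ?_⟩
          rcases Sym2.mem_iff.1 hvb with h | h
          · rw [h, e.apply_symm_apply]
            exact Sym2.mem_mk_left _ _
          · rw [h, e.apply_symm_apply]
            exact Sym2.mem_mk_right _ _
        · rintro ⟨h0, v, hv1, b, ⟨j, rfl⟩, hvb⟩
          refine ⟨h0, e.symm v, ?_, s(e.symm (f j), e.symm (f (j + 1))), ⟨j, rfl⟩, ?_⟩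
          · show c' (e (e.symm v)) = i
            rw [e.apply_symm_apply, hv1]
          · rcases Sym2.mem_iff.1 hvb with h | h
            · rw [h]
              exact Sym2.mem_mk_left _ _
            · rw [h]
              exact Sym2.mem_mk_right _ _
      show d ≤ {i | i ≠ 0 ∧ ∃ v, c0 v = i ∧ ∃ b ∈ cedges (fun i => e.symm (f i)), v ∈ b}.ncard
      rw [hset]
      exact hcard
    · show Sym2.map e '' cedges (fun i => e.symm (f i)) = cedges f
      ext b
      constructor
      · rintro ⟨b', ⟨j, rfl⟩, rfl⟩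
        refine ⟨j, ?_⟩
        rw [Sym2.map_mk]
        simp
      · rintro ⟨j, rfl⟩
        refine ⟨s(e.symm (f j), e.symm (f (j + 1))), ⟨j, rfl⟩, ?_⟩
        rw [Sym2.map_mk]
        simp
  have hfin : (dcyc d (pul G' e c0) c0).Finite := Set.toFinite _
  have hle : (dcyc d G' c').ncard ≤ (dcyc d (pul G' e c0) c0).ncard :=
    (Set.ncard_le_ncard hsub (hfin.image _)).trans (Set.ncard_image_le hfin)
  have hden : {v | c0 v ≠ 0}.ncard = {w | c' w ≠ 0}.ncard := by
    have himg : {w | c' w ≠ 0} = e '' {v | c0 v ≠ 0} := by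
      ext w
      constructor
      · intro hw
        refine ⟨e.symm w, ?_, e.apply_symm_apply w⟩
        show c' (e (e.symm w)) ≠ 0
        rw [e.apply_symm_apply]
        exact hw
      · rintro ⟨v, hv1, rfl⟩
        exact hv1
    rw [himg, Set.ncard_image_of_injective _ e.injective]
  rw [hden] at key
  have hleR : ((dcyc d G' c').ncard : ℝ) ≤ ((dcyc d (pul G' e c0) c0).ncard : ℝ) := by
    exact_mod_cast hle
  rcases Nat.eq_zero_or_pos ({w | c' w ≠ 0}.ncard) with h0 | h0
  · have hnone : ∀ w, c' w = 0 := by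
      intro w
      by_contra hw
      have h1 := (Set.ncard_eq_zero (Set.toFinite _)).1 h0
      have h2 : w ∈ {w | c' w ≠ 0} := hw
      rw [h1] at h2
      exact h2
    have hemp : dcyc d G' c' = ∅ := by
      rw [Set.eq_empty_iff_forall_notMem]
      rintro E ⟨-, hcard⟩
      have hz : {i | i ≠ 0 ∧ ∃ v, c' v = i ∧ ∃ b ∈ E, v ∈ b} = ∅ := by
        rw [Set.eq_empty_iff_forall_notMem]
        rintro i ⟨hi, v, hv1, -⟩
        exact hi (hv1.symm.trans (hnone v))
      rw [hz, Set.ncard_empty] at hcard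
      omega
    rw [hemp, h0, Set.ncard_empty, Nat.cast_zero, zero_pow (by omega), mul_zero]
  · have hP : (0 : ℝ) < ({w | c' w ≠ 0}.ncard : ℝ) ^ d := by
      have : (0 : ℝ) < ({w | c' w ≠ 0}.ncard : ℝ) := by exact_mod_cast h0
      positivity
    rw [div_le_iff₀ hP] at key
    exact hleR.trans key

end H46.EF
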