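import Pool.Agent.H46.EF.Smp
import Pool.Agent.H46.EF.Tmx

/-!
# EF.Upx : the upper bound with explicit constants (about 130 lines)

`exists_cMax`: `G` on `Fin n` with `#cycles G = cMax L n =: C`. `elim_exp` with `k = (d + 1) * l`, `q1 = 4 * m * (cB l d + 1)`, depth `aD`; `G' ≤ G` is an `L`-cycle graph with `NoEven` (see `isL_mono`, `noEven_of`, `len_of` in CY/Fin.lean); `tmpl_exp` with `q = aq l d m`; `sampling` with `M = aM`, `N = aN` (`d ≤ N` since `d, m ≥ 1`). With `Γ = GamN L d (aB l d m)`, `0 ≤ Γ ≤ cB * 2 ^ d`: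
`C ≤ #cycles G' + C / q1 ≤ g + fB ((w + M) n ^ (d - 1)) + cB n ^ d / q1`, `w ≤ n / aq`, `fB * M ≤ n / (4 m)`, and `g ≤ Γ (N ^ d / N.descFactorial d) n ^ d`, `N ^ d - N.descFactorial d ≤ d ^ 2 N ^ (d - 1)` (`descF`), so `Γ (N ^ d / N.descFactorial d - 1) ≤ 2 Γ d ^ 2 / N ≤ 1 / (4 m)`. Four errors of `1 / (4 m)`.
`descF`: `(N - d) ^ d ≤ N.descFactorial d` (`Nat.pow_sub_le_descFactorial` gives `(N + 1 - d) ^ d`) and Bernoulli (`one_add_mul_le_pow`).
-/

set_option autoImplicit false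

namespace H46.EF

open Pool.Agent.H3.LC H46.CY

theorem descF {N d : ℕ} (hN : d ≤ N) :
    ((N : ℝ) ^ d) * (1 - (d : ℝ) ^ 2 / N) ≤ (N.descFactorial d : ℝ) := by
  rcases Nat.eq_zero_or_pos N with h0 | h0
  · subst h0
    have hd : d = 0 := by omega
    subst hd
    simp
  · have hN0 : (0 : ℝ) < N := by exact_mod_cast h0
    have h1 : ((N : ℝ) - d) ^ d ≤ (N.descFactorial d : ℝ) := by
      have h2 := Nat.pow_sub_le_descFactorial N d
      have h3 : (((N + 1 - d) ^ d : ℕ) : ℝ) ≤ (N.descFactorial d : ℝ) := by exact_mod_cast h2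
      refine le_trans ?_ h3
      push_cast
      have h4 : (d : ℝ) ≤ N := by exact_mod_cast hN
      refine pow_le_pow_left₀ (by linarith) ?_ d
      have h5 : N - d ≤ N + 1 - d := by omega
      have h6 : ((N - d : ℕ) : ℝ) ≤ ((N + 1 - d : ℕ) : ℝ) := by exact_mod_cast h5
      rw [Nat.cast_sub hN] at h6
      exact h6
    refine le_trans ?_ h1
    have h4 : (d : ℝ) ≤ N := by exact_mod_cast hN
    have h5 : -2 ≤ -((d : ℝ) / N) := by
      have : (d : ℝ) / N ≤ 1 := (div_le_one hN0).2 h4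
      linarith
    have h6 := one_add_mul_le_pow h5 d
    have h7 : ((N : ℝ) - d) ^ d = (N : ℝ) ^ d * (1 + -((d : ℝ) / N)) ^ d := by
      rw [← mul_pow]
      congr 1
      field_simp
      ring
    rw [h7]
    refine mul_le_mul_of_nonneg_left ?_ (by positivity)
    refine le_trans (le_of_eq ?_) h6
    ring

private theorem mono_isCyc {V : Type} {G G' : SimpleGraph V} (h : G' ≤ G) {m : ℕ} {f : ZMod m → V}
    (hf : IsCyc G' f) : IsCyc G f :=
  ⟨hf.1, fun i => h (hf.2 i)⟩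

private theorem mono_isL {V : Type} {G G' : SimpleGraph V} (h : G' ≤ G) {L : Finset ℕ}
    (hG : IsLCycleGraph L G) : IsLCycleGraph L G' := by
  rw [isLCycle_iff] at hG ⊢
  intro m f hm hf
  exact hG m f hm (mono_isCyc h hf)

private theorem lt_len {V : Type} {G : SimpleGraph V} {L : Finset ℕ} {N : ℕ}
    (hG : IsLCycleGraph L G) (hmax : ∀ x ∈ L, x < N) (m : ℕ) (f : ZMod m → V) (hm : 3 ≤ m)
    (hf : IsCyc G f) : m ≤ N := by
  rw [isLCycle_iff] at hG
  exact (hmax m (hG m f hm hf)).le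

theorem upper_exp {L : Finset ℕ} {l d : ℕ} (hl : 2 ≤ l) (hd : 1 ≤ d)
    (hev : ∀ x ∈ L, Even x → 2 * l ≤ x) (hmax : ∀ x ∈ L, x < (d + 1) * l) {m n : ℕ} (hm : 1 ≤ m)
    (hn : an l d m ≤ n) :
    (cMax L n : ℝ) / (n : ℝ) ^ d ≤ GamN L d (aB l d m) + 1 / m := by
  obtain ⟨G, hG, hcn⟩ := exists_cMax L n
  set q1 := 4 * m * (cB l d + 1) with hq1
  have hq1p : 1 ≤ q1 := by
    rw [hq1]
    have : 1 ≤ cB l d + 1 := by omega
    nlinarith
  obtain ⟨G', le, hGG, hE, hcard⟩ := elim_exp ((d + 1) * l) q1 hq1p (Fin n) G (lt_len hG hmax)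
  have hD : ((d + 1) * l) * ((d + 1) * l + 1) * q1 + 1 = aD l d m := rfl
  rw [hD] at hE
  have hG' := mono_isL hGG hG
  have hnc : Nat.card (Fin n) = n := by rw [Nat.card_eq_fintype_card, Fintype.card_fin]
  have htn : tn (aD l d m) (aq l d m) ≤ n := by
    refine le_trans ?_ hn
    unfold an
    omega
  have haq : 1 ≤ aq l d m := by
    unfold aq
    have : 1 ≤ fB (aD l d m) l d + 1 := by omega
    nlinarith
  obtain ⟨c, hc, hv, hw, hM⟩ := tmpl_exp (aD l d m) (aq l d m) haq (Fin n) G' le L hE hG' (by rw [hnc]; exact htn)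
  have hN : d ≤ aN l d m := by
    unfold aN
    have h1 : 1 ≤ cB l d * 2 ^ d + 1 := by omega
    have h2 : d ≤ d ^ 2 := by nlinarith
    have h3 : d ^ 2 ≤ m * d ^ 2 := by nlinarith
    have h4 : m * d ^ 2 ≤ m * d ^ 2 * (cB l d * 2 ^ d + 1) := Nat.le_mul_of_pos_right _ (by omega)
    nlinarith
  obtain ⟨g, hg1, hg2⟩ := sampling hl hd hev hmax hE hG' hc hv (M := aM l d m) hM hN
  rw [hnc] at hg1 hg2 hw
  have hB : sB (aD l d m) l d (aM l d m) (aN l d m) = aB l d m := rfl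
  rw [hB] at hg2
  set Γ := GamN L d (aB l d m) with hΓ
  have hΓ0 : 0 ≤ Γ := GamN_nonneg hl hd hev hmax _
  have hΓ1 : Γ ≤ cB l d * 2 ^ d := GamN_le hl hd hev hmax _
  have hn1 : 1 ≤ n := by
    refine le_trans ?_ hn
    unfold an
    omega
  have hn0 : (0 : ℝ) < n := by exact_mod_cast hn1
  have hm0 : (0 : ℝ) < m := by exact_mod_cast hm
  have hP : (0 : ℝ) < (n : ℝ) ^ d := by positivity
  -- first error
  have e1 : (cMax L n : ℝ) ≤ (cycles G').ncard + (n : ℝ) ^ d / (4 * m) := by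
    have h1 : q1 * (cMax L n) ≤ q1 * (cycles G').ncard + cMax L n := by
      rw [← hcn]
      obtain ⟨q, hq⟩ : ∃ q, q1 = q + 1 := ⟨q1 - 1, by omega⟩
      rw [hq] at hcard ⊢
      rw [Nat.add_sub_cancel] at hcard
      nlinarith
    have h2 : cMax L n ≤ cB l d * n ^ d := cMax_exp hl hd hev hmax n
    have h3 : (q1 : ℝ) * (cMax L n) ≤ q1 * (cycles G').ncard + cMax L n := by exact_mod_cast h1
    have h4 : (cMax L n : ℝ) ≤ cB l d * (n : ℝ) ^ d := by exact_mod_cast h2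
    have h5 : (q1 : ℝ) = 4 * m * (cB l d + 1) := by
      rw [hq1]
      push_cast
      ring
    have h6 : (0 : ℝ) < q1 := by exact_mod_cast (by omega : 0 < q1)
    have h7 : (cMax L n : ℝ) ≤ (cycles G').ncard + (cMax L n : ℝ) / q1 := by
      have h8 : (cMax L n : ℝ) = (q1 * (cMax L n : ℝ)) / q1 := by field_simp
      have h9 : ((cycles G').ncard : ℝ) + (cMax L n : ℝ) / q1 =
          (q1 * (cycles G').ncard + cMax L n) / q1 := by field_simp
      rw [h9]
      calc (cMax L n : ℝ) = (q1 * (cMax L n : ℝ)) / q1 := h8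
        _ ≤ _ := div_le_div_of_nonneg_right h3 h6.le
    have h10 : (cMax L n : ℝ) / q1 ≤ (n : ℝ) ^ d / (4 * m) := by
      rw [div_le_div_iff₀ h6 (by positivity), h5]
      have h11 : (0 : ℝ) ≤ cB l d := Nat.cast_nonneg _
      have h12 : (cMax L n : ℝ) * (4 * m) ≤ (cB l d * (n : ℝ) ^ d) * (4 * m) :=
        mul_le_mul_of_nonneg_right h4 (by positivity)
      have h13 : 0 ≤ (n : ℝ) ^ d * (4 * m) := by positivity
      nlinarith
    linarith
  -- second error
  have hpow : (n : ℝ) ^ d = n * (n : ℝ) ^ (d - 1) := by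
    rw [← pow_succ']
    congr 1
    omega
  set w := {v | c v = 0}.ncard with hww
  have e2 : ((fB (aD l d m) l d * ((w + aM l d m) * n ^ (d - 1)) : ℕ) : ℝ) ≤
      2 * ((n : ℝ) ^ d / (4 * m)) := by
    have h1 : 4 * m * (fB (aD l d m) l d * w) ≤ n := by
      refine le_trans ?_ hw
      unfold aq
      have : fB (aD l d m) l d * w ≤ (fB (aD l d m) l d + 1) * w := by nlinarith
      calc 4 * m * (fB (aD l d m) l d * w) ≤ 4 * m * ((fB (aD l d m) l d + 1) * w) :=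
            Nat.mul_le_mul_left _ this
        _ = w * (4 * m * (fB (aD l d m) l d + 1)) := by ring
    have h2 : 4 * m * (fB (aD l d m) l d * aM l d m) ≤ n := by
      refine le_trans ?_ hn
      unfold an
      have : 4 * m * (fB (aD l d m) l d * aM l d m) = 4 * m * fB (aD l d m) l d * aM l d m := by ring
      rw [this]
      omega
    have h3 : (4 * (m : ℝ)) * (fB (aD l d m) l d * w) ≤ n := by exact_mod_cast h1
    have h4 : (4 * (m : ℝ)) * (fB (aD l d m) l d * aM l d m) ≤ n := by exact_mod_cast h2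
    have h5 : (fB (aD l d m) l d : ℝ) * (w + aM l d m) ≤ 2 * (n / (4 * m)) := by
      have h6 : (fB (aD l d m) l d : ℝ) * w ≤ n / (4 * m) := by
        rw [le_div_iff₀ (by positivity)]
        linarith
      have h7 : (fB (aD l d m) l d : ℝ) * aM l d m ≤ n / (4 * m) := by
        rw [le_div_iff₀ (by positivity)]
        linarith
      nlinarith
    push_cast
    rw [hpow]
    have h8 : (0 : ℝ) ≤ (n : ℝ) ^ (d - 1) := by positivity
    calc (fB (aD l d m) l d : ℝ) * ((w + aM l d m) * (n : ℝ) ^ (d - 1))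
        = ((fB (aD l d m) l d : ℝ) * (w + aM l d m)) * (n : ℝ) ^ (d - 1) := by ring
      _ ≤ (2 * (n / (4 * m))) * (n : ℝ) ^ (d - 1) := mul_le_mul_of_nonneg_right h5 h8
      _ = 2 * (n * (n : ℝ) ^ (d - 1) / (4 * m)) := by ring
  -- third error
  have e3 : (g : ℝ) ≤ Γ * (n : ℝ) ^ d + (n : ℝ) ^ d / (4 * m) := by
    set N := aN l d m with hNN
    have hNd : 1 ≤ N := hd.trans hN
    have hN0 : (0 : ℝ) < N := by exact_mod_cast hNd
    have h1 := descF hN
    have h2 : (N : ℝ) = 8 * m * (d : ℝ) ^ 2 * (cB l d * 2 ^ d + 1) := by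
      rw [hNN]
      unfold aN
      push_cast
      ring
    set X : ℝ := (cB l d : ℝ) * 2 ^ d with hX
    have hX0 : 0 ≤ X := by positivity
    have hd0 : (0 : ℝ) < d := by exact_mod_cast hd
    have h3 : (d : ℝ) ^ 2 / N = 1 / (8 * m * (X + 1)) := by
      rw [h2]
      field_simp
    set δ : ℝ := 1 / (8 * m * (X + 1)) with hδ
    have hδ0 : 0 < δ := by positivity
    have hm1 : (1 : ℝ) ≤ m := by exact_mod_cast hm
    have hδ1 : δ ≤ 1 / 8 := by
      rw [hδ]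
      apply div_le_div_of_nonneg_left (by norm_num) (by norm_num)
      nlinarith
    rw [h3] at h1
    have hNp : (0 : ℝ) < (N : ℝ) ^ d := by positivity
    have h4 : (g : ℝ) * ((N : ℝ) ^ d * (1 - δ)) ≤ Γ * (N : ℝ) ^ d * (n : ℝ) ^ d :=
      (mul_le_mul_of_nonneg_left h1 (Nat.cast_nonneg g)).trans hg2
    have h5 : (g : ℝ) * (1 - δ) ≤ Γ * (n : ℝ) ^ d := by
      have h6 : (N : ℝ) ^ d * ((g : ℝ) * (1 - δ)) ≤ (N : ℝ) ^ d * (Γ * (n : ℝ) ^ d) := by nlinarith
      exact le_of_mul_le_mul_left h6 hNp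
    have h6 : (g : ℝ) ≤ Γ * (n : ℝ) ^ d * (1 + 2 * δ) := by
      have h7 : 1 ≤ (1 - δ) * (1 + 2 * δ) := by nlinarith
      have h8 : (g : ℝ) * ((1 - δ) * (1 + 2 * δ)) ≤ Γ * (n : ℝ) ^ d * (1 + 2 * δ) := by
        rw [← mul_assoc]
        exact mul_le_mul_of_nonneg_right h5 (by positivity)
      have h9 : (g : ℝ) * 1 ≤ (g : ℝ) * ((1 - δ) * (1 + 2 * δ)) :=
        mul_le_mul_of_nonneg_left h7 (Nat.cast_nonneg g)
      linarith
    have h7 : Γ * (2 * δ) ≤ 1 / (4 * m) := by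
      have h8 : Γ * (2 * δ) ≤ X * (2 * δ) := mul_le_mul_of_nonneg_right hΓ1 (by positivity)
      refine h8.trans ?_
      rw [hδ, ← mul_div_assoc, ← mul_div_assoc, div_le_div_iff₀ (by positivity) (by positivity)]
      nlinarith
    have h8 : Γ * (n : ℝ) ^ d * (1 + 2 * δ) = Γ * (n : ℝ) ^ d + (Γ * (2 * δ)) * (n : ℝ) ^ d := by ring
    have h9 : (Γ * (2 * δ)) * (n : ℝ) ^ d ≤ 1 / (4 * m) * (n : ℝ) ^ d :=
      mul_le_mul_of_nonneg_right h7 hP.le
    have h10 : 1 / (4 * (m : ℝ)) * (n : ℝ) ^ d = (n : ℝ) ^ d / (4 * m) := by ring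
    linarith
  -- the sum
  have hg1' : ((cycles G').ncard : ℝ) ≤
      g + ((fB (aD l d m) l d * ((w + aM l d m) * n ^ (d - 1)) : ℕ) : ℝ) := by exact_mod_cast hg1
  rw [div_le_iff₀ hP]
  have h11 : (Γ + 1 / m) * (n : ℝ) ^ d = Γ * (n : ℝ) ^ d + 4 * ((n : ℝ) ^ d / (4 * m)) := by
    field_simp
  rw [h11]
  linarith

end H46.EF
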